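import Pool.Agent.ALC.Defs
import Pool.Agent.SzBF.DiscL

/-!
The ramification of the projection of a plane curve.
-/

open Polynomial

namespace SzPl

/-- the norm of `g(root)` from `K[x]/(f)` is the resultant -/
private theorem norm_root {K : Type*} [Field K] [CharZero K] {f : K[X]} (hf : f.Monic)
    (hirr : Irreducible f) (g : K[X]) :
    haveI := Fact.mk hirr
    Algebra.norm K (aeval (AdjoinRoot.root f) g) = resultant f g f.natDegree g.natDegree := by
  haveI := Fact.mk hirr
  classical
  set E := AlgebraicClosure K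
  let pb := AdjoinRoot.powerBasis hirr.ne_zero
  have hfin : Module.Finite K (AdjoinRoot f) := pb.finite
  have hgen : pb.gen = AdjoinRoot.root f := AdjoinRoot.powerBasis_gen _
  have hmin : minpoly K pb.gen = f := AdjoinRoot.minpoly_powerBasis_gen_of_monic hf
  apply (algebraMap K E).injective
  rw [Algebra.norm_eq_prod_embeddings K E]
  have h1 : ∀ σ : AdjoinRoot f →ₐ[K] E, σ (aeval (AdjoinRoot.root f) g) =
      (g.map (algebraMap K E)).eval (σ pb.gen) := by
    intro σ
    rw [← aeval_algHom_apply, hgen, eval_map_algebraMap]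
  rw [Finset.prod_congr rfl fun σ _ => h1 σ]
  have h2 : ∏ σ : AdjoinRoot f →ₐ[K] E, (g.map (algebraMap K E)).eval (σ pb.gen) =
      ((f.aroots E).map fun α => (g.map (algebraMap K E)).eval α).prod := by
    have hnd : ((minpoly K pb.gen).aroots E).Nodup :=
      nodup_roots (Separable.map (Algebra.IsSeparable.isSeparable K pb.gen))
    rw [Fintype.prod_equiv pb.liftEquiv' (fun σ => (g.map (algebraMap K E)).eval (σ pb.gen))
      (fun x => (g.map (algebraMap K E)).eval (x : E))
      (fun σ => by rw [PowerBasis.liftEquiv'_apply_coe])]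
    rw [Finset.prod_mem_multiset _ _ (fun x => (g.map (algebraMap K E)).eval x) (fun x => rfl),
      Finset.prod_eq_multiset_prod, Multiset.toFinset_val, Multiset.dedup_eq_self.mpr hnd, hmin]
  rw [h2]
  have hd : (f.map (algebraMap K E)).natDegree = f.natDegree := natDegree_map _
  have h3 := resultant_eq_prod_eval (f.map (algebraMap K E)) (g.map (algebraMap K E))
    g.natDegree (natDegree_map_le) (IsAlgClosed.splits _)
  rw [resultant_map_map, hd] at h3
  rw [h3, (hf.map _).leadingCoeff, one_pow, one_mul]

theorem unramified {k : Type*} [Field k] [CharZero k] (F : k[X][X]) (hF : F.Monic)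
    (h1 : 1 ≤ F.natDegree) (hirr : Irreducible F) (hs : F.discr.Splits) (h0 : F.discr ≠ 0)
    (A : Finset k) (hA : ∀ a, F.discr.IsRoot a → a ∈ A) : ALC.UnramifiedOutside F A := by
  classical
  set G := F.map (algebraMap k[X] (RatFunc k)) with hG
  have hGm : G.Monic := hF.map _
  have hGd : G.natDegree = F.natDegree := hF.natDegree_map _
  have hGi : Irreducible G := (hF.irreducible_iff_irreducible_map_fraction_map).1 hirr
  haveI := Fact.mk hGi
  let pb := AdjoinRoot.powerBasis hGi.ne_zero
  have hfin : Module.Finite (RatFunc k) (AdjoinRoot G) := pb.finite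
  have hgen : pb.gen = AdjoinRoot.root G := AdjoinRoot.powerBasis_gen _
  have hmin : minpoly (RatFunc k) pb.gen = G := AdjoinRoot.minpoly_powerBasis_gen_of_monic hGm
  have hdim : pb.dim = F.natDegree := by
    rw [← hGd]
    exact AdjoinRoot.powerBasis_dim _
  have hfr : Module.finrank (RatFunc k) (AdjoinRoot G) = F.natDegree := by
    rw [pb.finrank, hdim]
  refine ⟨fun i => AdjoinRoot.root G ^ (i : ℕ), F.discr, fun i => ?_, ?_, h0, hs, hA⟩
  · refine IsIntegral.pow ?_ _
    refine ⟨F, hF, ?_⟩
    have h2 : aeval (AdjoinRoot.root G) (F.map (algebraMap k[X] (RatFunc k))) = 0 := by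
      rw [← hG, AdjoinRoot.aeval_eq, AdjoinRoot.mk_self]
    rw [aeval_map_algebraMap] at h2
    exact h2
  · have h3 := Algebra.discr_powerBasis_eq_norm (RatFunc k) pb
    rw [hmin, hgen, norm_root hGm hGi, hfr] at h3
    have h4 : Algebra.discr (RatFunc k) (fun i : Fin F.natDegree =>
        (AdjoinRoot.root G ^ (i : ℕ) : AdjoinRoot G)) = Algebra.discr (RatFunc k) pb.basis := by
      have h5 := Algebra.discr_reindex (RatFunc k) pb.basis (finCongr hdim)
      rw [← h5]
      congr 1
      ext i
      simp [hgen]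
    rw [h4, h3]
    have hG1 : 0 < G.degree := natDegree_pos_iff_degree_pos.1 (by omega)
    have h6 := resultant_deriv (f := G) hG1
    rw [hGm.leadingCoeff, mul_one, hGd] at h6
    have h7 : G.derivative.natDegree = F.natDegree - 1 := by
      rw [natDegree_derivative, hGd]
    rw [hGd, h7, h6]
    have h8 : G.discr = algebraMap k[X] (RatFunc k) F.discr :=
      SzBF.discr_map_of_ne _ (by rw [hF.leadingCoeff, map_one]; exact one_ne_zero)
    rw [h8, ← mul_assoc, ← pow_add, ← two_mul, pow_mul]
    simp

/-- the discriminant of a constant multiple -/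
theorem discr_unit_mul {k : Type*} [Field k] (f : k[X][X]) (hf : 1 ≤ f.natDegree) (c : k)
    (hc : c ≠ 0) : (C (C c) * f).discr = C (c ^ (2 * f.natDegree - 2)) * f.discr := by
  have hinj : Function.Injective (algebraMap k[X] (RatFunc k)) := RatFunc.algebraMap_injective k
  have hf0 : f ≠ 0 := by rintro rfl; simp at hf
  have hCc : (C c : k[X]) ≠ 0 := C_ne_zero.2 hc
  have hlc : ∀ g : k[X][X], g ≠ 0 → (algebraMap k[X] (RatFunc k)) g.leadingCoeff ≠ 0 := by
    intro g hg
    rw [ne_eq, map_eq_zero_iff _ hinj]
    exact leadingCoeff_ne_zero.2 hg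
  apply hinj
  rw [← SzBF.discr_map_of_ne _ (hlc _ (mul_ne_zero (C_ne_zero.2 hCc) hf0)), map_mul,
    ← SzBF.discr_map_of_ne _ (hlc _ hf0), Polynomial.map_mul, map_C]
  have hd : (f.map (algebraMap k[X] (RatFunc k))).natDegree = f.natDegree :=
    natDegree_map_eq_of_injective hinj f
  rw [SzBF.discr_C_mul (by rw [hd]; exact hf) (by
    rw [ne_eq, map_eq_zero_iff _ hinj]
    exact hCc), hd, C_pow, map_pow]

end SzPl
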