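import Pool.Agent.ALC.Defs

/-!
The height of the vector of the `1 / (b - a)`, `a` in the set of the roots of an integral
polynomial.
-/

open Polynomial

namespace SzPl

theorem log_iSup_le {ι : Type*} (f : ι → ℝ) (hf : ∀ i, 0 ≤ f i) (c : ℝ) (hc : 1 ≤ c)
    (h : ∀ i, f i ≤ c) : Real.log (⨆ i, f i) ≤ Real.log c := by
  have h0 : 0 ≤ ⨆ i, f i := Real.iSup_nonneg hf
  have h1 : (⨆ i, f i) ≤ c := Real.iSup_le h (by linarith)
  rcases h0.eq_or_lt with h2 | h2
  · rw [← h2, Real.log_zero]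
    exact Real.log_nonneg hc
  · exact Real.log_le_log h2 h1

/-- the equation satisfied by `φ a - b` -/
theorem root_eq {K L : Type*} [Field K] [Field L] (D : ℤ[X]) (b : ℤ) (a : K) (φ : K →+* L)
    (ha : (D.map (Int.castRingHom K)).IsRoot a) :
    ((D.eval b : ℤ) : L) + ∑ i ∈ Finset.range (D.taylor b).natDegree,
      (((D.taylor b).coeff (i + 1) : ℤ) : L) * (φ a - b) ^ (i + 1) = 0 := by
  have h1 : D.eval₂ (Int.castRingHom L) (φ a) = 0 := by
    have h2 : D.eval₂ (Int.castRingHom K) a = 0 := by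
      rw [← Polynomial.eval_map]; exact ha
    have h3 := congrArg φ h2
    rw [map_zero, Polynomial.hom_eval₂] at h3
    rw [← h3]
    congr 1
    ext
    simp
  have h4 : (D.taylor b).eval₂ (Int.castRingHom L) (φ a - b) = 0 := by
    rw [Polynomial.taylor_apply, Polynomial.eval₂_comp]
    rw [Polynomial.eval₂_add, Polynomial.eval₂_X, Polynomial.eval₂_C, eq_intCast,
      sub_add_cancel]
    exact h1
  rw [Polynomial.eval₂_eq_sum_range, Finset.sum_range_succ'] at h4
  rw [← h4, add_comm]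
  congr 1
  rw [Polynomial.taylor_coeff_zero]
  simp

theorem arch_bound {K : Type*} [Field K] (D : ℤ[X]) (b : ℤ) (a : K) (φ : K →+* ℂ)
    (ha : (D.map (Int.castRingHom K)).IsRoot a) (hb : D.eval b ≠ 0) (M : ℕ)
    (hM : ∀ i, |(D.taylor b).coeff i| ≤ M) :
    ‖φ (1 / (b - a))‖ ≤ 2 * M / |((D.eval b : ℤ) : ℝ)| := by
  have hE : 0 < |((D.eval b : ℤ) : ℝ)| := abs_pos.2 (by exact_mod_cast hb)
  have hE1 : |((D.eval b : ℤ) : ℝ)| ≤ M := by
    have := hM 0
    rw [Polynomial.taylor_coeff_zero] at this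
    exact_mod_cast this
  have hMpos : (0 : ℝ) < M := lt_of_lt_of_le hE hE1
  set r : ℂ := φ a - b with hr
  have heq := root_eq D b a φ ha
  rw [← hr] at heq
  have hnorm : ‖φ (1 / (b - a))‖ = ‖r‖⁻¹ := by
    rw [map_div₀, map_one, map_sub, map_intCast, norm_div, norm_one, one_div, ← norm_neg]
    congr 2
    rw [hr]; ring
  rw [hnorm]
  by_contra hcon
  push Not at hcon
  have hrlt : ‖r‖ < |((D.eval b : ℤ) : ℝ)| / (2 * M) := by
    rcases (norm_nonneg r).eq_or_lt with h0 | h0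
    · rw [← h0]; positivity
    · have h1 := (inv_lt_inv₀ (inv_pos.2 h0) (by positivity)).2 hcon
      rwa [inv_inv, inv_div] at h1
  have hr2 : ‖r‖ ≤ 1 / 2 := by
    refine hrlt.le.trans ?_
    rw [div_le_div_iff₀ (by positivity) (by norm_num)]
    linarith
  have h5 : |((D.eval b : ℤ) : ℝ)| ≤ 2 * M * ‖r‖ := by
    have h6 : ((D.eval b : ℤ) : ℂ) = - ∑ i ∈ Finset.range (D.taylor b).natDegree,
      (((D.taylor b).coeff (i + 1) : ℤ) : ℂ) * r ^ (i + 1) := by
      linear_combination heq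
    have h7 : ‖((D.eval b : ℤ) : ℂ)‖ = |((D.eval b : ℤ) : ℝ)| := by
      rw [Complex.norm_intCast]
    rw [← h7, h6, norm_neg]
    refine (norm_sum_le _ _).trans ?_
    have h8 : ∀ i ∈ Finset.range (D.taylor b).natDegree,
        ‖(((D.taylor b).coeff (i + 1) : ℤ) : ℂ) * r ^ (i + 1)‖ ≤ (M * ‖r‖) * (1 / 2) ^ i := by
      intro i _
      rw [norm_mul, norm_pow, pow_succ, Complex.norm_intCast]
      have h9 : |(((D.taylor b).coeff (i + 1) : ℤ) : ℝ)| ≤ M := by exact_mod_cast hM (i + 1)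
      have h10 : ‖r‖ ^ i ≤ (1 / 2) ^ i := pow_le_pow_left₀ (norm_nonneg _) hr2 i
      calc |(((D.taylor b).coeff (i + 1) : ℤ) : ℝ)| * (‖r‖ ^ i * ‖r‖)
          ≤ M * ((1 / 2) ^ i * ‖r‖) := by gcongr
        _ = (M * ‖r‖) * (1 / 2) ^ i := by ring
    refine (Finset.sum_le_sum h8).trans ?_
    rw [← Finset.mul_sum]
    have h11 := sum_geometric_two_le (D.taylor b).natDegree
    nlinarith [mul_nonneg hMpos.le (norm_nonneg r)]
  have h12 : 2 * M * ‖r‖ < |((D.eval b : ℤ) : ℝ)| := by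
    rw [lt_div_iff₀ (by positivity)] at hrlt
    linarith
  linarith

theorem norm_int_le_one {p : ℕ} [Fact p.Prime] (m : ℤ) : ‖(m : ℂ_[p])‖ ≤ 1 := by
  have h : (m : ℂ_[p]) = ((m : ℚ_[p]) : ℂ_[p]) := (map_intCast (algebraMap ℚ_[p] ℂ_[p]) m).symm
  rw [h, PadicComplex.norm_extends']
  exact Padic.norm_int_le_one m

theorem norm_int_eq {p : ℕ} [Fact p.Prime] (m : ℤ) (hm : m ≠ 0) :
    ‖(m : ℂ_[p])‖ = ((p : ℝ) ^ (m.natAbs.factorization p))⁻¹ := by
  have h : (m : ℂ_[p]) = ((m : ℚ_[p]) : ℂ_[p]) := (map_intCast (algebraMap ℚ_[p] ℂ_[p]) m).symm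
  rw [h, PadicComplex.norm_extends', Padic.norm_eq_zpow_neg_valuation (by exact_mod_cast hm),
    Padic.valuation_intCast, padicValInt, zpow_neg, zpow_natCast,
    Nat.factorization_def _ (Fact.out)]

theorem padic_bound {K : Type*} [Field K] {p : ℕ} [Fact p.Prime] (D : ℤ[X]) (b : ℤ) (a : K)
    (φ : K →+* ℂ_[p]) (ha : (D.map (Int.castRingHom K)).IsRoot a) (hb : D.eval b ≠ 0) :
    ‖φ (1 / (b - a))‖ ≤ (p : ℝ) ^ ((D.eval b).natAbs.factorization p) := by
  set r : ℂ_[p] := φ a - b with hr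
  have heq := root_eq D b a φ ha
  rw [← hr] at heq
  have hnorm : ‖φ (1 / (b - a))‖ = ‖r‖⁻¹ := by
    rw [map_div₀, map_one, map_sub, map_intCast, norm_div, norm_one, one_div, ← norm_neg]
    congr 2
    rw [hr]; ring
  rw [hnorm]
  have hE := norm_int_eq (p := p) (D.eval b) hb
  have hp : (0 : ℝ) < p := by exact_mod_cast (Fact.out : p.Prime).pos
  have hp1 : (1 : ℝ) ≤ p := by exact_mod_cast (Fact.out : p.Prime).one_le
  by_cases hr1 : ‖r‖ ≤ 1
  · have h6 : ((D.eval b : ℤ) : ℂ_[p]) = - (r * ∑ i ∈ Finset.range (D.taylor b).natDegree,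
      (((D.taylor b).coeff (i + 1) : ℤ) : ℂ_[p]) * r ^ i) := by
      rw [Finset.mul_sum]
      have : ∑ i ∈ Finset.range (D.taylor b).natDegree,
          r * ((((D.taylor b).coeff (i + 1) : ℤ) : ℂ_[p]) * r ^ i) =
          ∑ i ∈ Finset.range (D.taylor b).natDegree,
          (((D.taylor b).coeff (i + 1) : ℤ) : ℂ_[p]) * r ^ (i + 1) :=
        Finset.sum_congr rfl fun i _ => by ring
      rw [this]
      linear_combination heq
    have h7 : ‖∑ i ∈ Finset.range (D.taylor b).natDegree,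
        (((D.taylor b).coeff (i + 1) : ℤ) : ℂ_[p]) * r ^ i‖ ≤ 1 := by
      refine IsUltrametricDist.norm_sum_le_of_forall_le_of_nonneg zero_le_one fun i _ => ?_
      rw [norm_mul, norm_pow]
      exact mul_le_one₀ (norm_int_le_one _) (by positivity) (pow_le_one₀ (norm_nonneg _) hr1)
    have h8 : ‖((D.eval b : ℤ) : ℂ_[p])‖ ≤ ‖r‖ := by
      rw [h6, norm_neg, norm_mul]
      exact mul_le_of_le_one_right (norm_nonneg _) h7
    rw [hE] at h8
    have h9 : (0 : ℝ) < ((p : ℝ) ^ ((D.eval b).natAbs.factorization p))⁻¹ := by positivity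
    have := inv_anti₀ h9 h8
    rwa [inv_inv] at this
  · push Not at hr1
    have : ‖r‖⁻¹ ≤ 1 := inv_le_one_of_one_le₀ hr1.le
    exact this.trans (one_le_pow₀ hp1)

theorem sum_factorization_le (m : ℕ) (hm : m ≠ 0) (S : Finset Nat.Primes) :
    ∑ p ∈ S, (m.factorization p : ℝ) * Real.log (p : ℕ) ≤ Real.log m := by
  classical
  have h1 : Real.log m = ∑ q ∈ m.primeFactors, (m.factorization q : ℝ) * Real.log q := by
    conv_lhs => rw [← Nat.prod_factorization_pow_eq_self hm]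
    rw [Finsupp.prod, Nat.cast_prod, Real.log_prod]
    · rw [Nat.support_factorization]
      refine Finset.sum_congr rfl fun q _ => ?_
      rw [Nat.cast_pow, Real.log_pow]
    · intro q hq
      rw [Nat.support_factorization] at hq
      have := (Nat.prime_of_mem_primeFactors hq).pos
      positivity
  have h2 : ∑ p ∈ S, (m.factorization p : ℝ) * Real.log (p : ℕ) =
      ∑ q ∈ S.map ⟨fun p : Nat.Primes => (p : ℕ), Subtype.coe_injective⟩,
        (m.factorization q : ℝ) * Real.log q := by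
    rw [Finset.sum_map]; rfl
  rw [h1, h2]
  rw [← Finset.sum_filter_ne_zero]
  refine Finset.sum_le_sum_of_subset_of_nonneg ?_ ?_
  · intro q hq
    rw [Finset.mem_filter] at hq
    rw [← Nat.support_factorization, Finsupp.mem_support_iff]
    intro h0
    apply hq.2
    rw [h0]; simp
  · intro q hq _
    have := (Nat.prime_of_mem_primeFactors hq).one_le
    exact mul_nonneg (by positivity) (Real.log_nonneg (by exact_mod_cast this))

theorem branchHeight_le {K : Type*} [Field K] [NumberField K] (D : ℤ[X])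
    (hs : (D.map (Int.castRingHom K)).Splits) (A : Finset K)
    (hA : ∀ a ∈ A, (D.map (Int.castRingHom K)).IsRoot a) (b : ℤ) (hb : D.eval b ≠ 0) (M : ℕ)
    (hM1 : 1 ≤ M) (hM : ∀ i, |(D.taylor b).coeff i| ≤ M) :
    ALC.branchHeight K A (b : K) ≤ Real.log (2 * M) := by
  classical
  set n : ℝ := (Module.finrank ℚ K : ℝ) with hn
  have hnpos : 0 < n := by
    rw [hn]; exact_mod_cast Module.finrank_pos
  have hE : 0 < |((D.eval b : ℤ) : ℝ)| := abs_pos.2 (by exact_mod_cast hb)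
  have hE0 : (1 : ℝ) ≤ |((D.eval b : ℤ) : ℝ)| := by exact_mod_cast Int.one_le_abs hb
  have hE1 : |((D.eval b : ℤ) : ℝ)| ≤ M := by
    have := hM 0
    rw [Polynomial.taylor_coeff_zero] at this
    exact_mod_cast this
  have hMpos : (0 : ℝ) < M := lt_of_lt_of_le hE hE1
  have harch : ∑ σ : K →+* ℂ, Real.log (⨆ a : A, ‖σ (1 / ((b : K) - a))‖) ≤
      n * (Real.log (2 * M) - Real.log |((D.eval b : ℤ) : ℝ)|) := by
    have h1 : ∀ σ ∈ (Finset.univ : Finset (K →+* ℂ)),
        Real.log (⨆ a : A, ‖σ (1 / ((b : K) - a))‖) ≤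
        Real.log (2 * M) - Real.log |((D.eval b : ℤ) : ℝ)| := by
      intro σ _
      rw [← Real.log_div (by positivity) (by positivity)]
      refine log_iSup_le _ (fun _ => norm_nonneg _) _ ?_ fun a => ?_
      · rw [le_div_iff₀ hE]; linarith
      · exact arch_bound D b (a : K) σ (hA a a.2) hb M hM
    refine (Finset.sum_le_card_nsmul _ _ _ h1).trans ?_
    rw [nsmul_eq_mul, Finset.card_univ, NumberField.Embeddings.card K ℂ]
  have hfin : (∑ᶠ p : Nat.Primes, haveI : Fact (p : ℕ).Prime := ⟨p.2⟩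
      ∑ τ : K →+* ℂ_[(p : ℕ)], Real.log (⨆ a : A, ‖τ (1 / ((b : K) - a))‖)) ≤
      n * Real.log |((D.eval b : ℤ) : ℝ)| := by
    have hlog : Real.log |((D.eval b : ℤ) : ℝ)| = Real.log ((D.eval b).natAbs : ℝ) := by
      congr 1
      rw [Nat.cast_natAbs]; push_cast; rfl
    by_cases hfs : (Function.support (fun p : Nat.Primes => haveI : Fact (p : ℕ).Prime := ⟨p.2⟩
      ∑ τ : K →+* ℂ_[(p : ℕ)], Real.log (⨆ a : A, ‖τ (1 / ((b : K) - a))‖))).Finite
    · rw [finsum_eq_sum _ hfs]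
      have h1 : ∀ p ∈ hfs.toFinset, (haveI : Fact (p : ℕ).Prime := ⟨p.2⟩
          ∑ τ : K →+* ℂ_[(p : ℕ)], Real.log (⨆ a : A, ‖τ (1 / ((b : K) - a))‖)) ≤
          n * (((D.eval b).natAbs.factorization p : ℝ) * Real.log (p : ℕ)) := by
        intro p _
        haveI : Fact (p : ℕ).Prime := ⟨p.2⟩
        have h2 : ∀ τ ∈ (Finset.univ : Finset (K →+* ℂ_[(p : ℕ)])),
            Real.log (⨆ a : A, ‖τ (1 / ((b : K) - a))‖) ≤
            ((D.eval b).natAbs.factorization p : ℝ) * Real.log (p : ℕ) := by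
          intro τ _
          rw [← Real.log_pow]
          refine log_iSup_le _ (fun _ => norm_nonneg _) _ ?_ fun a => ?_
          · exact one_le_pow₀ (by exact_mod_cast p.2.one_le)
          · exact padic_bound D b (a : K) τ (hA a a.2) hb
        refine (Finset.sum_le_card_nsmul _ _ _ h2).trans ?_
        rw [nsmul_eq_mul, Finset.card_univ, NumberField.Embeddings.card K ℂ_[(p : ℕ)]]
      refine (Finset.sum_le_sum h1).trans ?_
      rw [← Finset.mul_sum, hlog]
      exact mul_le_mul_of_nonneg_left (sum_factorization_le _ (by simpa using hb) _) hnpos.le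
    · rw [finsum_of_infinite_support hfs]
      exact mul_nonneg hnpos.le (Real.log_nonneg hE0)
  rw [ALC.branchHeight, ← hn]
  have h3 := add_le_add harch hfin
  have h4 : n * (Real.log (2 * M) - Real.log |((D.eval b : ℤ) : ℝ)|) +
      n * Real.log |((D.eval b : ℤ) : ℝ)| = n * Real.log (2 * M) := by ring
  rw [h4] at h3
  have h5 : (1 / n) * (n * Real.log (2 * M)) = Real.log (2 * M) := by
    field_simp
  rw [← h5]
  exact mul_le_mul_of_nonneg_left h3 (by positivity)

end SzPl
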