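import Mathlib

/-!
The Jacobian criterion for two polynomials in two variables.
-/

open MvPolynomial

namespace SzPl

namespace Jac

variable {K : Type*} [Field K]

/-- the chain rule -/
theorem chain {σ τ : Type*} [Fintype σ] (F : σ → MvPolynomial τ K) (i : τ)
    (P : MvPolynomial σ K) :
    pderiv i (aeval F P) = ∑ j, aeval F (pderiv j P) * pderiv i (F j) := by
  classical
  induction P using MvPolynomial.induction_on with
  | C a =>
    have h1 : aeval F (C a) = (C a : MvPolynomial τ K) := by
      rw [algHom_C]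
      rfl
    rw [h1, pderiv_C]
    simp
  | add p q hp hq =>
    simp only [map_add, hp, hq, add_mul, Finset.sum_add_distrib]
  | mul_X p k hp =>
    have h2 : ∀ j, aeval F (pderiv j (p * X k)) * pderiv i (F j) =
        F k * (aeval F (pderiv j p) * pderiv i (F j)) +
          (if j = k then aeval F p * pderiv i (F k) else 0) := by
      intro j
      rw [pderiv_mul, map_add, map_mul, map_mul, aeval_X]
      by_cases hjk : j = k
      · subst hjk
        rw [pderiv_X_self, map_one, if_pos rfl]
        ring
      · rw [pderiv_X_of_ne (Ne.symm hjk), map_zero, if_neg hjk]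
        ring
    rw [map_mul, aeval_X, pderiv_mul, hp, Finset.sum_congr rfl fun j _ => h2 j,
      Finset.sum_add_distrib, ← Finset.mul_sum, Finset.sum_ite_eq' Finset.univ k,
      if_pos (Finset.mem_univ k)]
    ring

theorem totalDegree_pderiv {σ : Type*} (j : σ) (n : ℕ) (P : MvPolynomial σ K)
    (hP : P.totalDegree ≤ n + 1) : (pderiv j P).totalDegree ≤ n := by
  classical
  refine Finset.sup_le fun m hm => ?_
  rw [mem_support_iff, coeff_pderiv] at hm
  have h1 : coeff (m + Finsupp.single j 1) P ≠ 0 := fun h => hm (by rw [h, zero_mul])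
  have h2 := le_totalDegree (mem_support_iff.2 h1)
  rw [Finsupp.sum_add_index' (fun _ => rfl) (fun _ _ _ => rfl)] at h2
  rw [Finsupp.sum_single_index rfl] at h2
  omega

theorem eq_C_of_pderiv [CharZero K] {σ : Type*} (P : MvPolynomial σ K)
    (h : ∀ j, pderiv j P = 0) : P = C (coeff 0 P) := by
  classical
  ext m
  rw [coeff_C]
  split_ifs with hm
  · rw [← hm]
  · obtain ⟨j, hj⟩ : ∃ j, m j ≠ 0 := by
      by_contra hc
      push Not at hc
      exact hm (Finsupp.ext fun j => (hc j).symm)
    have h1 := congrArg (coeff (m - Finsupp.single j 1)) (h j)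
    rw [coeff_pderiv, coeff_zero] at h1
    have h2 : m - Finsupp.single j 1 + Finsupp.single j 1 = m := by
      ext l
      by_cases hl : l = j
      · subst hl
        simp only [Finsupp.coe_add, Finsupp.coe_tsub, Pi.add_apply, Pi.sub_apply,
          Finsupp.single_eq_same]
        omega
      · simp [Ne.symm hl]
    rw [h2] at h1
    rcases mul_eq_zero.1 h1 with h3 | h3
    · exact h3
    · exfalso
      exact Nat.cast_add_one_ne_zero (R := K) _ h3

theorem key [CharZero K] (f g : MvPolynomial (Fin 2) K)
    (h : pderiv 0 f * pderiv 1 g - pderiv 1 f * pderiv 0 g ≠ 0) (n : ℕ) :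
    ∀ P : MvPolynomial (Fin 2) K, P.totalDegree ≤ n → aeval ![f, g] P = 0 → P = 0 := by
  have hC : ∀ P : MvPolynomial (Fin 2) K, P = C (coeff 0 P) → aeval ![f, g] P = 0 → P = 0 := by
    intro P hP h0
    rw [hP, algHom_C] at h0
    have h1 : (C (coeff 0 P) : MvPolynomial (Fin 2) K) = 0 := h0
    rw [hP, h1]
  induction n with
  | zero =>
    intro P hP h0
    exact hC P (totalDegree_eq_zero_iff_eq_C.1 (Nat.le_zero.1 hP)) h0
  | succ n ih =>
    intro P hP h0
    have e0 := chain ![f, g] 0 P
    have e1 := chain ![f, g] 1 P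
    rw [h0, map_zero, Fin.sum_univ_two] at e0 e1
    simp only [Matrix.cons_val_zero, Matrix.cons_val_one] at e0 e1
    have a0 : aeval ![f, g] (pderiv 0 P) = 0 := by
      refine (mul_eq_zero.1 (?_ : aeval ![f, g] (pderiv 0 P) *
        (pderiv 0 f * pderiv 1 g - pderiv 1 f * pderiv 0 g) = 0)).resolve_right h
      linear_combination pderiv 0 g * e1 - pderiv 1 g * e0
    have a1 : aeval ![f, g] (pderiv 1 P) = 0 := by
      refine (mul_eq_zero.1 (?_ : aeval ![f, g] (pderiv 1 P) *
        (pderiv 0 f * pderiv 1 g - pderiv 1 f * pderiv 0 g) = 0)).resolve_right h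
      linear_combination pderiv 1 f * e0 - pderiv 0 f * e1
    refine hC P (eq_C_of_pderiv P fun j => ?_) h0
    fin_cases j
    · exact ih _ (totalDegree_pderiv 0 n P hP) a0
    · exact ih _ (totalDegree_pderiv 1 n P hP) a1

end Jac

theorem jac {K : Type*} [Field K] [CharZero K] (f g : MvPolynomial (Fin 2) K)
    (h : pderiv 0 f * pderiv 1 g - pderiv 1 f * pderiv 0 g ≠ 0) :
    AlgebraicIndependent K ![f, g] := by
  rw [algebraicIndependent_iff]
  intro P hP
  exact Jac.key f g h P.totalDegree P le_rfl hP

end SzPl
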