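import Pool.Agent.SzPl.GIrr

/-!
Bounds for the discriminant with respect to `y`.
-/

open MvPolynomial

namespace SzPl

namespace DBd

/-- sum of the absolute values of the coefficients -/
noncomputable def L (p : Polynomial ℤ) : ℤ := ∑ i ∈ p.support, |p.coeff i|

theorem L_nonneg (p : Polynomial ℤ) : 0 ≤ L p := Finset.sum_nonneg fun _ _ => abs_nonneg _

theorem L_eq (p : Polynomial ℤ) (s : Finset ℕ) (hs : p.support ⊆ s) :
    L p = ∑ i ∈ s, |p.coeff i| := by
  unfold L
  refine Finset.sum_subset hs ?_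
  intro i _ hi
  rw [Polynomial.notMem_support_iff] at hi
  rw [hi, abs_zero]

theorem coeff_le (p : Polynomial ℤ) (i : ℕ) : |p.coeff i| ≤ L p := by
  rw [L_eq p (insert i p.support) (Finset.subset_insert _ _)]
  exact Finset.single_le_sum (f := fun i => |p.coeff i|) (fun _ _ => abs_nonneg _)
    (Finset.mem_insert_self _ _)

theorem L_add (p q : Polynomial ℤ) : L (p + q) ≤ L p + L q := by
  rw [L_eq p (p.support ∪ q.support) Finset.subset_union_left,
    L_eq q (p.support ∪ q.support) Finset.subset_union_right,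
    L_eq (p + q) (p.support ∪ q.support) Polynomial.support_add, ← Finset.sum_add_distrib]
  refine Finset.sum_le_sum fun i _ => ?_
  rw [Polynomial.coeff_add]
  exact abs_add_le _ _

theorem L_zero : L 0 = 0 := by simp [L]

theorem L_sum {ι : Type*} (s : Finset ι) (f : ι → Polynomial ℤ) :
    L (∑ i ∈ s, f i) ≤ ∑ i ∈ s, L (f i) := by
  classical
  induction s using Finset.induction_on with
  | empty => simp [L_zero]
  | insert a s ha ih =>
    rw [Finset.sum_insert ha, Finset.sum_insert ha]
    exact (L_add _ _).trans (add_le_add le_rfl ih)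

theorem L_monomial (n : ℕ) (a : ℤ) : L (Polynomial.monomial n a) = |a| := by
  rw [L_eq _ {n} (Polynomial.support_monomial_subset n a)]
  simp

theorem L_mul (p q : Polynomial ℤ) : L (p * q) ≤ L p * L q := by
  rw [Polynomial.mul_eq_sum_sum]
  refine (L_sum _ _).trans ?_
  unfold L
  rw [Finset.sum_mul]
  refine Finset.sum_le_sum fun i _ => ?_
  rw [Polynomial.sum_def, Finset.mul_sum]
  refine (L_sum _ _).trans ?_
  refine Finset.sum_le_sum fun j _ => ?_
  rw [L_monomial, abs_mul]

theorem L_C (a : ℤ) : L (Polynomial.C a) = |a| := by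
  rw [← Polynomial.monomial_zero_left, L_monomial]

theorem L_one : L 1 = 1 := by
  have := L_C 1
  simpa using this

theorem L_pow (p : Polynomial ℤ) (n : ℕ) : L (p ^ n) ≤ L p ^ n := by
  induction n with
  | zero => simp [L_one]
  | succ n ih =>
    rw [pow_succ, pow_succ]
    exact (L_mul _ _).trans (mul_le_mul_of_nonneg_right ih (L_nonneg _))

theorem L_taylor (p : Polynomial ℤ) (b n : ℕ) (hn : p.natDegree ≤ n) :
    L (p.taylor (b : ℤ)) ≤ (1 + b) ^ n * L p := by
  rw [Polynomial.taylor_apply, Polynomial.comp_eq_sum_left, Polynomial.sum_def]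
  refine (L_sum _ _).trans ?_
  unfold L
  rw [Finset.mul_sum]
  refine Finset.sum_le_sum fun i hi => ?_
  have h1 : L (Polynomial.X + Polynomial.C (b : ℤ)) ≤ 1 + b := by
    refine (L_add _ _).trans ?_
    rw [← Polynomial.monomial_one_one_eq_X, L_monomial, L_C]
    simp
  have hi' : i ≤ n := (Polynomial.le_natDegree_of_mem_supp i hi).trans hn
  refine (L_mul _ _).trans ?_
  rw [L_C, mul_comm]
  refine mul_le_mul_of_nonneg_right ?_ (abs_nonneg _)
  refine (L_pow _ _).trans ?_
  refine (pow_le_pow_left₀ (L_nonneg _) h1 _).trans ?_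
  exact pow_le_pow_right₀ (by simp) hi'

theorem L_prod {ι : Type*} (s : Finset ι) (f : ι → Polynomial ℤ) :
    L (∏ i ∈ s, f i) ≤ ∏ i ∈ s, L (f i) := by
  classical
  induction s using Finset.induction_on with
  | empty => simp [L_one]
  | insert a s ha ih =>
    rw [Finset.prod_insert ha, Finset.prod_insert ha]
    exact (L_mul _ _).trans (mul_le_mul_of_nonneg_left ih (L_nonneg _))

/-- coefficients of `dehom G` -/
theorem dehom_coeff (G : MvPolynomial (Fin 3) ℤ) (j : ℕ) :
    (dehom G).coeff j = ∑ s ∈ G.support with s 1 = j,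
      Polynomial.monomial (s 0) (G.coeff s) := by
  have h1 : dehom G = ∑ s ∈ G.support,
      Polynomial.monomial (s 1) (Polynomial.monomial (s 0) (G.coeff s)) := by
    unfold dehom
    rw [coe_eval₂Hom, eval₂_eq']
    refine Finset.sum_congr rfl fun s _ => ?_
    rw [Fin.prod_univ_three]
    simp only [RingHom.comp_apply, Matrix.cons_val_zero, Matrix.cons_val_one, Matrix.cons_val,
      one_pow, mul_one]
    rw [← Polynomial.C_mul_X_pow_eq_monomial, ← Polynomial.C_mul_X_pow_eq_monomial,
      Polynomial.C_mul, Polynomial.C_pow, mul_assoc]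
  rw [h1, Polynomial.finsetSum_coeff, Finset.sum_filter]
  refine Finset.sum_congr rfl fun s _ => ?_
  rw [Polynomial.coeff_monomial]

theorem card_le (G : MvPolynomial (Fin 3) ℤ) (d j : ℕ) (hG : G.IsHomogeneous d) :
    (G.support.filter fun s => s 1 = j).card ≤ d + 1 := by
  have hd : ∀ s ∈ G.support, s 0 + s 1 + s 2 = d := by
    intro s hs
    have h2 := hG (mem_support_iff.1 hs)
    rw [Finsupp.weight_apply, Finsupp.sum_fintype _ _ (by simp), Fin.sum_univ_three] at h2
    simpa using h2
  calc (G.support.filter fun s => s 1 = j).card ≤ (Finset.range (d + 1)).card := by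
        refine Finset.card_le_card_of_injOn (fun s => s 0) ?_ ?_
        · intro s hs
          simp only [Finset.coe_filter, Set.mem_ofPred_eq] at hs
          have := hd s hs.1
          simp only [Finset.coe_range, Set.mem_Iio]
          omega
        · intro s hs t ht hst
          simp only [Finset.coe_filter, Set.mem_ofPred_eq] at hs ht
          have h1 := hd s hs.1
          have h2 := hd t ht.1
          simp only at hst
          ext i
          fin_cases i
          · exact hst
          · simp [hs.2, ht.2]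
          · simp only [Fin.reduceFinMk]
            omega
    _ = d + 1 := Finset.card_range _

theorem dehom_coeff_bd (d : ℕ) (G : MvPolynomial (Fin 3) ℤ) (hG : G.IsHomogeneous d) (H : ℕ)
    (hH : ∀ s, |G.coeff s| ≤ H) (j : ℕ) :
    ((dehom G).coeff j).natDegree ≤ d ∧ L ((dehom G).coeff j) ≤ (d + 1) * H := by
  have hd : ∀ s ∈ G.support, s 0 + s 1 + s 2 = d := by
    intro s hs
    have h2 := hG (mem_support_iff.1 hs)
    rw [Finsupp.weight_apply, Finsupp.sum_fintype _ _ (by simp), Fin.sum_univ_three] at h2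
    simpa using h2
  rw [dehom_coeff]
  refine ⟨?_, ?_⟩
  · refine Polynomial.natDegree_sum_le_of_forall_le _ _ fun s hs => ?_
    rw [Finset.mem_filter] at hs
    refine (Polynomial.natDegree_monomial_le _).trans ?_
    have := hd s hs.1
    omega
  · refine (L_sum _ _).trans ?_
    calc ∑ s ∈ G.support with s 1 = j, L (Polynomial.monomial (s 0) (G.coeff s))
        ≤ ∑ s ∈ G.support with s 1 = j, (H : ℤ) := by
          refine Finset.sum_le_sum fun s _ => ?_
          rw [L_monomial]
          exact hH s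
      _ = ((G.support.filter fun s => s 1 = j).card : ℤ) * H := by
          rw [Finset.sum_const, nsmul_eq_mul]
      _ ≤ (d + 1) * H := by
          refine mul_le_mul_of_nonneg_right ?_ (by positivity)
          exact_mod_cast card_le G d j hG

/-- The entries of the modified Sylvester matrix which are not in the last row. -/
theorem entry (f : Polynomial (Polynomial ℤ)) (d : ℕ) (hd : f.natDegree = d) (hd2 : 2 ≤ d)
    (B : ℤ) (hB : 0 ≤ B)
    (hf : ∀ j, (f.coeff j).natDegree ≤ d ∧ L (f.coeff j) ≤ B)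
    (i j : Fin (f.natDegree - 1 + f.natDegree)) :
    (f.sylvesterDeriv i j).natDegree ≤ d ∧
      L (f.sylvesterDeriv i j) ≤ if (i : ℕ) = 2 * d - 2 then (d : ℤ) else d * B := by
  have hn : ¬ f.natDegree = 0 := by omega
  rw [Polynomial.sylvesterDeriv, dif_neg hn]
  have hd0 : (0 : ℤ) ≤ d := by positivity
  by_cases hi : (i : ℕ) = 2 * d - 2
  · have hi2 : i = ⟨2 * f.natDegree - 2, by omega⟩ := by
      ext
      simp only
      omega
    rw [if_pos hi, hi2, Matrix.updateRow_self]
    split_ifs with h1 h2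
    · simp only [Polynomial.natDegree_one, L_one, Nat.zero_le, true_and]
      have : (2 : ℤ) ≤ d := by exact_mod_cast hd2
      omega
    · refine ⟨?_, ?_⟩
      · rw [Polynomial.natDegree_natCast]
        omega
      · have h3 := L_C (f.natDegree : ℤ)
        rw [Nat.abs_cast] at h3
        have h4 : ((f.natDegree : ℕ) : Polynomial ℤ) = Polynomial.C (f.natDegree : ℤ) := by
          simp
        rw [h4, h3, hd]
    · simp [L_zero]
  · have hi2 : i ≠ ⟨2 * f.natDegree - 2, by omega⟩ := by
      intro h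
      apply hi
      rw [h]
      simp only
      omega
    rw [Matrix.updateRow_ne hi2, if_neg hi]
    have hdB : (0 : ℤ) ≤ d * B := mul_nonneg hd0 hB
    have h0 : (0 : Polynomial ℤ).natDegree ≤ d ∧ L 0 ≤ d * B := by
      rw [L_zero]
      simp [hdB]
    have hBd : B ≤ d * B := by
      have : (1 : ℤ) ≤ d := by
        have : (2 : ℤ) ≤ d := by exact_mod_cast hd2
        omega
      nlinarith
    rw [Polynomial.sylvester, Matrix.of_apply]
    refine Fin.addCases (fun j₁ => ?_) (fun j₁ => ?_) j
    · rw [Fin.addCases_left]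
      split_ifs with h1
      · exact ⟨(hf _).1, (hf _).2.trans hBd⟩
      · exact h0
    · rw [Fin.addCases_right]
      split_ifs with h1
      · rw [Polynomial.coeff_derivative]
        set k : ℕ := (i : ℕ) - (j₁ : ℕ) with hk
        have hk2 : k + 1 ≤ d := by
          have := h1.2
          omega
        have h5 : (((k : ℕ) : Polynomial ℤ) + 1) = Polynomial.C (((k + 1 : ℕ) : ℤ)) := by
          simp
        rw [h5]
        refine ⟨?_, ?_⟩
        · refine (Polynomial.natDegree_mul_le).trans ?_
          rw [Polynomial.natDegree_C, add_zero]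
          exact (hf _).1
        · refine (L_mul _ _).trans ?_
          rw [L_C, Nat.abs_cast, mul_comm]
          refine mul_le_mul ?_ (hf _).2 (L_nonneg _) hd0
          exact_mod_cast hk2
      · exact h0

theorem det_bound (f : Polynomial (Polynomial ℤ)) (d : ℕ) (hd : f.natDegree = d) (hd2 : 2 ≤ d)
    (B : ℤ) (hB : 0 ≤ B)
    (hf : ∀ j, (f.coeff j).natDegree ≤ d ∧ L (f.coeff j) ≤ B) :
    f.discr.natDegree ≤ (2 * d - 1) * d ∧ ∀ b N : ℕ, b ≤ N →
      L (f.discr.taylor (b : ℤ)) ≤
        ((2 * d - 1).factorial : ℤ) * ((1 + N) ^ d * d) * ((1 + N) ^ d * (d * B)) ^ (2 * d - 2) := by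
  classical
  have hd1 : 1 ≤ d := by omega
  have hcard : Fintype.card (Fin (f.natDegree - 1 + f.natDegree)) = 2 * d - 1 := by
    rw [Fintype.card_fin]
    omega
  have hsign : ∀ (p : Polynomial ℤ) (k : ℕ), (p * (-1) ^ k).natDegree ≤ p.natDegree ∧
      ∀ r : ℤ, L ((p * (-1) ^ k).taylor r) ≤ L (p.taylor r) := by
    intro p k
    rcases neg_one_pow_eq_or (Polynomial ℤ) k with h | h
    · rw [h, mul_one]
      exact ⟨le_rfl, fun _ => le_rfl⟩
    · rw [h, mul_neg, mul_one]
      refine ⟨(Polynomial.natDegree_neg p).le, fun r => ?_⟩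
      rw [map_neg]
      have h6 : -(p.taylor r) = Polynomial.C (-1) * p.taylor r := by simp
      rw [h6]
      refine (L_mul _ _).trans ?_
      rw [L_C]
      simp
  unfold Polynomial.discr
  refine ⟨(hsign _ _).1.trans ?_, fun b N hb => ((hsign _ _).2 _).trans ?_⟩
  · rw [Matrix.det_apply']
    refine Polynomial.natDegree_sum_le_of_forall_le _ _ fun σ _ => ?_
    refine (Polynomial.natDegree_mul_le).trans ?_
    have h7 : (((Equiv.Perm.sign σ : ℤˣ) : ℤ) : Polynomial ℤ).natDegree = 0 :=
      Polynomial.natDegree_intCast _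
    rw [h7, zero_add]
    refine (Polynomial.natDegree_prod_le _ _).trans ?_
    refine (Finset.sum_le_card_nsmul _ _ d fun i _ => (entry f d hd hd2 B hB hf _ _).1).trans ?_
    rw [Finset.card_univ, hcard, smul_eq_mul]
  · set A : Fin (f.natDegree - 1 + f.natDegree) → ℤ := fun i =>
      (1 + (N : ℤ)) ^ d * (if (i : ℕ) = 2 * d - 2 then (d : ℤ) else d * B) with hA
    have hA0 : ∀ i, 0 ≤ A i := by
      intro i
      simp only [hA]
      split_ifs <;> positivity
    have hent : ∀ i j, L ((f.sylvesterDeriv i j).taylor (b : ℤ)) ≤ A i := by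
      intro i j
      obtain ⟨h8, h9⟩ := entry f d hd hd2 B hB hf i j
      refine (L_taylor _ b d h8).trans ?_
      simp only [hA]
      refine mul_le_mul ?_ h9 (L_nonneg _) (by positivity)
      refine pow_le_pow_left₀ (by positivity) ?_ _
      have : (b : ℤ) ≤ N := by exact_mod_cast hb
      linarith
    have hprod : ∏ i, A i = ((1 + (N : ℤ)) ^ d * d) * ((1 + (N : ℤ)) ^ d * (d * B)) ^ (2 * d - 2) := by
      have h10 : ∀ m : ℕ, m = 2 * d - 1 → ∏ i : Fin m,
          ((1 + (N : ℤ)) ^ d * (if (i : ℕ) = 2 * d - 2 then (d : ℤ) else d * B)) =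
            ((1 + (N : ℤ)) ^ d * d) * ((1 + (N : ℤ)) ^ d * (d * B)) ^ (2 * d - 2) := by
        intro m hm
        obtain ⟨k, rfl⟩ : ∃ k, m = k + 1 := ⟨2 * d - 2, by omega⟩
        have hk : k = 2 * d - 2 := by omega
        rw [Fin.prod_univ_castSucc, Fin.val_last, if_pos hk, mul_comm]
        congr 1
        rw [← hk]
        rw [Finset.prod_congr rfl (g := fun _ => (1 + (N : ℤ)) ^ d * (d * B)) ?_]
        · rw [Finset.prod_const, Finset.card_univ, Fintype.card_fin]
        · intro i _
          rw [if_neg]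
          have := i.isLt
          rw [Fin.val_castSucc]
          omega
      exact h10 _ (by omega)
    rw [Matrix.det_apply', map_sum]
    refine (L_sum _ _).trans ?_
    have hterm : ∀ σ : Equiv.Perm (Fin (f.natDegree - 1 + f.natDegree)),
        L (Polynomial.taylor (b : ℤ) ((((Equiv.Perm.sign σ : ℤˣ) : ℤ) : Polynomial ℤ) *
          ∏ i, f.sylvesterDeriv (σ i) i)) ≤ ∏ i, A i := by
      intro σ
      have h11 : Polynomial.taylor (b : ℤ) ((((Equiv.Perm.sign σ : ℤˣ) : ℤ) : Polynomial ℤ) *
          ∏ i, f.sylvesterDeriv (σ i) i) = Polynomial.C ((Equiv.Perm.sign σ : ℤˣ) : ℤ) *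
            ∏ i, Polynomial.taylor (b : ℤ) (f.sylvesterDeriv (σ i) i) := by
        rw [Polynomial.taylor_mul]
        congr 1
        · rw [← Polynomial.C_eq_intCast, Polynomial.taylor_C]
          simp
        · exact map_prod (Polynomial.taylorAlgHom (b : ℤ)) _ _
      rw [h11]
      refine (L_mul _ _).trans ?_
      have h12 : L (Polynomial.C ((Equiv.Perm.sign σ : ℤˣ) : ℤ)) = 1 := by
        rw [L_C]
        rcases Int.units_eq_one_or (Equiv.Perm.sign σ) with h | h <;> rw [h] <;> simp
      rw [h12, one_mul]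
      refine (L_prod _ _).trans ?_
      calc ∏ i, L (Polynomial.taylor (b : ℤ) (f.sylvesterDeriv (σ i) i))
          ≤ ∏ i, A (σ i) := Finset.prod_le_prod (fun _ _ => L_nonneg _) (fun i _ => hent _ _)
        _ = ∏ i, A i := Equiv.prod_comp σ A
    refine (Finset.sum_le_card_nsmul _ _ _ fun σ _ => hterm σ).trans ?_
    rw [hprod, Finset.card_univ, Fintype.card_perm, hcard, nsmul_eq_mul]
    exact le_of_eq (by ring)

end DBd

theorem discr_bound (d : ℕ) (hd : 2 ≤ d) : ∃ (N : ℕ) (K : ℕ), 1 ≤ K ∧
    ∀ (G : MvPolynomial (Fin 3) ℤ), G.IsHomogeneous d → G.coeff (Finsupp.single 1 d) ≠ 0 →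
      ∀ H : ℕ, 1 ≤ H → (∀ s, |G.coeff s| ≤ H) → (dehom G).discr.natDegree ≤ N ∧
        ∀ b : ℕ, b ≤ N → ∀ i, |((dehom G).discr.taylor (b : ℤ)).coeff i| ≤
          (K : ℤ) * (H : ℤ) ^ (2 * d - 2) := by
  refine ⟨(2 * d - 1) * d, (2 * d - 1).factorial * ((1 + ((2 * d - 1) * d)) ^ d * d) *
    ((1 + ((2 * d - 1) * d)) ^ d * (d * (d + 1))) ^ (2 * d - 2), ?_, ?_⟩
  · have : 0 < d := by omega
    exact Nat.one_le_iff_ne_zero.2 (by positivity)
  · intro G hG hc H _ hH
    obtain ⟨h1, h2⟩ := DBd.det_bound (dehom G) d (dehom_natDegree d G hG hc).1 hd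
      ((d + 1) * H) (by positivity) (DBd.dehom_coeff_bd d G hG H hH)
    refine ⟨h1, fun b hb i => (DBd.coeff_le _ _).trans ((h2 b _ hb).trans (le_of_eq ?_))⟩
    have h3 : ((1 + (((2 * d - 1) * d : ℕ) : ℤ)) ^ d * ((d : ℤ) * ((d + 1) * H))) =
        ((1 + (((2 * d - 1) * d : ℕ) : ℤ)) ^ d * (d * (d + 1))) * H := by ring
    rw [h3, mul_pow]
    generalize (2 * d - 1) * d = M
    push_cast
    ring

end SzPl
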