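import Pool.Agent.SzPl.Defs

/-!
Smooth plane curves are irreducible: the proof.
-/

open MvPolynomial

namespace SzPl

/-- kill the first `j` variables -/
noncomputable def killVars (k : Type*) [Field k] (j : ℕ) :
    MvPolynomial (Fin 3) k →ₐ[k] MvPolynomial (Fin 3) k :=
  aeval (fun i : Fin 3 => if i.val < j then 0 else X i)

theorem killVars_X {k : Type*} [Field k] (j : ℕ) (i : Fin 3) :
    killVars k j (X i) = if i.val < j then 0 else X i := by
  simp [killVars]

theorem killVars_comp {k : Type*} [Field k] (j : ℕ) :
    (killVars k (j + 1)).comp (killVars k j) = killVars k (j + 1) := by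
  apply MvPolynomial.algHom_ext
  intro i
  simp only [AlgHom.comp_apply, killVars_X]
  split_ifs with h1 h2
  · simp
  · omega
  · rw [killVars_X]; simp [*]
  · rw [killVars_X]; simp [*]

theorem killVars_three {k : Type*} [Field k] (p : MvPolynomial (Fin 3) k) :
    killVars k 3 p = C (eval 0 p) := by
  have : killVars k 3 = (Algebra.ofId k (MvPolynomial (Fin 3) k)).comp
      (aeval (0 : Fin 3 → k)) := by
    apply MvPolynomial.algHom_ext
    intro i
    simp [killVars_X]
  rw [this]
  simp [Algebra.ofId_apply, MvPolynomial.algebraMap_eq]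

instance killVars_ker_prime {k : Type*} [Field k] (j : ℕ) :
    (RingHom.ker (killVars k j)).IsPrime := RingHom.ker_isPrime _

theorem killVars_ker_lt {k : Type*} [Field k] (j : ℕ) (hj : j < 3) :
    RingHom.ker (killVars k j) < RingHom.ker (killVars k (j + 1)) := by
  refine lt_of_le_of_ne ?_ ?_
  · intro p hp
    rw [RingHom.mem_ker] at hp ⊢
    rw [← killVars_comp, AlgHom.comp_apply, hp, map_zero]
  · intro h
    have h1 : (X (⟨j, hj⟩ : Fin 3) : MvPolynomial (Fin 3) k) ∈
        RingHom.ker (killVars k (j + 1)) := by
      rw [RingHom.mem_ker, killVars_X]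
      simp
    rw [← h, RingHom.mem_ker, killVars_X] at h1
    simp at h1

theorem three_le_height {k : Type*} [Field k] :
    (3 : ℕ∞) ≤ (RingHom.ker (killVars k 3)).height := by
  have h0 := Ideal.height_strict_mono_of_isPrime_of_isPrime (killVars_ker_lt (k := k) 0 (by norm_num))
  have h1 := Ideal.height_strict_mono_of_isPrime_of_isPrime (killVars_ker_lt (k := k) 1 (by norm_num))
  have h2 := Ideal.height_strict_mono_of_isPrime_of_isPrime (killVars_ker_lt (k := k) 2 (by norm_num))
  simp only [zero_add] at h0
  norm_num at h0 h1 h2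
  have a1 : (1 : ℕ∞) ≤ (RingHom.ker (killVars k 1)).height := Order.one_le_iff_ne_zero.2 (ne_bot_of_gt h0)
  have a2 : (2 : ℕ∞) ≤ (RingHom.ker (killVars k 2)).height := by
    have := Order.add_one_le_of_lt (lt_of_le_of_lt a1 h1)
    simpa [one_add_one_eq_two] using this
  have a3 := Order.add_one_le_of_lt (lt_of_le_of_lt a2 h2)
  have e : (2 : ℕ∞) + 1 = 3 := by norm_num
  rw [e] at a3
  exact a3

theorem exists_common_zero {k : Type*} [Field k] [IsAlgClosed k]
    (F H : MvPolynomial (Fin 3) k) (hF : eval 0 F = 0) (hH : eval 0 H = 0) :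
    ∃ v : Fin 3 → k, v ≠ 0 ∧ eval v F = 0 ∧ eval v H = 0 := by
  classical
  by_contra hcon
  push Not at hcon
  set I : Ideal (MvPolynomial (Fin 3) k) := Ideal.span (({F, H} : Finset (MvPolynomial (Fin 3) k)) :
    Set (MvPolynomial (Fin 3) k)) with hI
  have hmem : RingHom.ker (killVars k 3) ∈ I.minimalPrimes := by
    refine ⟨⟨killVars_ker_prime 3, ?_⟩, ?_⟩
    · rw [hI, Ideal.span_le]
      intro p hp
      simp only [Finset.coe_insert, Finset.coe_singleton, Set.mem_insert_iff,
        Set.mem_singleton_iff] at hp
      rw [SetLike.mem_coe, RingHom.mem_ker, killVars_three]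
      rcases hp with rfl | rfl
      · rw [hF, map_zero]
      · rw [hH, map_zero]
    · rintro J ⟨hJ, hIJ⟩ hJm p hp
      have hrad : p ∈ I.radical := by
        rw [← vanishingIdeal_zeroLocus_eq_radical (K := k)]
        rw [mem_vanishingIdeal_iff]
        intro x hx
        rw [mem_zeroLocus_iff] at hx
        have e : ∀ q : MvPolynomial (Fin 3) k, aeval x q = eval x q := fun q => by
          rw [aeval_def]; rfl
        have hxF : eval x F = 0 := by
          have := hx F (Ideal.subset_span (by simp))
          rwa [e] at this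
        have hxH : eval x H = 0 := by
          have := hx H (Ideal.subset_span (by simp))
          rwa [e] at this
        have hx0 : x = 0 := by
          by_contra hne
          exact hcon x hne hxF hxH
        rw [RingHom.mem_ker, killVars_three] at hp
        have : eval 0 p = 0 := by
          have := congrArg (eval (0 : Fin 3 → k)) hp
          simpa using this
        rw [hx0]
        simpa [aeval_def, eval, algebraMap_eq] using this
      exact hJ.radical_le_iff.2 hIJ hrad
  have h2 := Ideal.height_le_card_of_mem_minimalPrimes_span_finset hmem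
  have h3 := three_le_height (k := k)
  have h4 : (({F, H} : Finset (MvPolynomial (Fin 3) k)).card : ℕ∞) ≤ 2 := by
    exact_mod_cast Finset.card_le_two
  have := h3.trans (h2.trans h4)
  norm_num at this

/-- `f(X0 T, X1 T)` -/
noncomputable def spread (k : Type*) [Field k] :
    Polynomial (Polynomial k) →+* Polynomial (MvPolynomial (Fin 3) k) :=
  Polynomial.eval₂RingHom
    (Polynomial.eval₂RingHom ((Polynomial.C (R := MvPolynomial (Fin 3) k)).comp C)
      (Polynomial.C (X 0) * Polynomial.X))
    (Polynomial.C (X 1) * Polynomial.X)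

/-- `G(X0 T, X1 T, 1)` -/
noncomputable def spreadG (k : Type*) [Field k] :
    MvPolynomial (Fin 3) k →+* Polynomial (MvPolynomial (Fin 3) k) :=
  eval₂Hom ((Polynomial.C (R := MvPolynomial (Fin 3) k)).comp C)
    ![Polynomial.C (X 0) * Polynomial.X, Polynomial.C (X 1) * Polynomial.X, 1]

/-- `G(X0, X1, T)` -/
noncomputable def lastG (k : Type*) [Field k] :
    MvPolynomial (Fin 3) k →+* Polynomial (MvPolynomial (Fin 3) k) :=
  eval₂Hom ((Polynomial.C (R := MvPolynomial (Fin 3) k)).comp C)
    ![Polynomial.C (X 0), Polynomial.C (X 1), Polynomial.X]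

theorem spread_dehom {k : Type*} [Field k] (G : MvPolynomial (Fin 3) k) :
    spread k (dehom G) = spreadG k G := by
  have : (spread k).comp dehom = spreadG k := by
    apply MvPolynomial.ringHom_ext
    · intro r
      simp [spread, dehom, spreadG]
    · intro i
      fin_cases i <;> simp [spread, dehom, spreadG]
  rw [← this]; rfl

theorem reflect_sum {R ι : Type*} [CommRing R] (N : ℕ) (s : Finset ι) (f : ι → Polynomial R) :
    Polynomial.reflect N (∑ i ∈ s, f i) = ∑ i ∈ s, Polynomial.reflect N (f i) := by
  classical
  induction s using Finset.induction_on with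
  | empty => simp
  | insert a s ha ih => rw [Finset.sum_insert ha, Finset.sum_insert ha, Polynomial.reflect_add, ih]

theorem deg_eq {m : Fin 3 →₀ ℕ} {d : ℕ} (h : m.degree = d) : m 0 + m 1 + m 2 = d := by
  rw [← h, Finsupp.degree_eq_sum, Fin.sum_univ_three]

theorem spreadG_monomial {k : Type*} [Field k] (m : Fin 3 →₀ ℕ) (c : k) :
    spreadG k (monomial m c) =
      Polynomial.C (C c * X 0 ^ m 0 * X 1 ^ m 1) * Polynomial.X ^ (m 0 + m 1) := by
  rw [spreadG, coe_eval₂Hom, eval₂_monomial, Finsupp.prod_fintype _ _ (by simp),
    Fin.prod_univ_three]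
  simp only [RingHom.comp_apply, Matrix.cons_val_zero, Matrix.cons_val_one, Matrix.cons_val,
    mul_pow, one_pow, mul_one, map_mul, map_pow, pow_add]
  ring

theorem lastG_monomial {k : Type*} [Field k] (m : Fin 3 →₀ ℕ) (c : k) :
    lastG k (monomial m c) =
      Polynomial.C (C c * X 0 ^ m 0 * X 1 ^ m 1) * Polynomial.X ^ (m 2) := by
  rw [lastG, coe_eval₂Hom, eval₂_monomial, Finsupp.prod_fintype _ _ (by simp),
    Fin.prod_univ_three]
  simp only [RingHom.comp_apply, Matrix.cons_val_zero, Matrix.cons_val_one, Matrix.cons_val,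
    map_mul, map_pow]
  ring

theorem reflect_spreadG {k : Type*} [Field k] (d : ℕ) (G : MvPolynomial (Fin 3) k)
    (hG : G.IsHomogeneous d) : Polynomial.reflect d (spreadG k G) = lastG k G := by
  conv_lhs => rw [G.as_sum]
  conv_rhs => rw [G.as_sum]
  rw [map_sum, map_sum, reflect_sum]
  refine Finset.sum_congr rfl fun m hm => ?_
  have hd : m.degree = d := by
    by_contra hne
    exact (mem_support_iff.1 hm) (hG.coeff_eq_zero hne)
  have h3 := deg_eq hd
  rw [spreadG_monomial, lastG_monomial, Polynomial.reflect_C_mul_X_pow,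
    Polynomial.revAt_le (by omega)]
  congr 2
  omega

theorem natDegree_spreadG_le {k : Type*} [Field k] (d : ℕ) (G : MvPolynomial (Fin 3) k)
    (hG : G.IsHomogeneous d) : (spreadG k G).natDegree ≤ d := by
  rw [G.as_sum, map_sum]
  refine Polynomial.natDegree_sum_le_of_forall_le _ _ fun m hm => ?_
  have hd : m.degree = d := by
    by_contra hne
    exact (mem_support_iff.1 hm) (hG.coeff_eq_zero hne)
  have h3 := deg_eq hd
  rw [spreadG_monomial]
  exact (Polynomial.natDegree_C_mul_X_pow_le _ _).trans (by omega)

theorem eval_e1 {k : Type*} [Field k] (d : ℕ) (G : MvPolynomial (Fin 3) k)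
    (hG : G.IsHomogeneous d) : eval ![0, 1, 0] G = G.coeff (Finsupp.single 1 d) := by
  rw [eval_eq']
  rw [Finset.sum_eq_single (Finsupp.single 1 d)]
  · simp [Fin.prod_univ_three]
  · intro m hm hne
    have hd : m.degree = d := by
      by_contra hne
      exact (mem_support_iff.1 hm) (hG.coeff_eq_zero hne)
    have h3 := deg_eq hd
    rw [Fin.prod_univ_three]
    simp only [Matrix.cons_val_zero, Matrix.cons_val_one, Matrix.cons_val, one_pow, mul_one]
    by_cases h0 : m 0 = 0
    · by_cases h2 : m 2 = 0
      · exfalso
        apply hne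
        ext i
        fin_cases i
        · simpa using h0
        · simp; omega
        · simpa using h2
      · rw [zero_pow h2]; simp
    · rw [zero_pow h0]; simp
  · intro h
    rw [notMem_support_iff.1 h]; simp

theorem lastG_coeff_zero {k : Type*} [Field k] (d : ℕ) (G : MvPolynomial (Fin 3) k)
    (hG : G.IsHomogeneous d) (hc : G.coeff (Finsupp.single 1 d) ≠ 0) :
    (lastG k G).coeff 0 ≠ 0 := by
  intro h
  apply hc
  rw [← eval_e1 d G hG]
  have h1 : eval ![0, 1, 0] ((lastG k G).coeff 0) = eval ![0, 1, 0] G := by
    rw [Polynomial.coeff_zero_eq_eval_zero]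
    have : ((eval (![0, 1, 0] : Fin 3 → k)).comp
        ((Polynomial.evalRingHom (0 : MvPolynomial (Fin 3) k)).comp (lastG k))) =
        eval (![0, 1, 0] : Fin 3 → k) := by
      apply MvPolynomial.ringHom_ext
      · intro r
        simp [lastG]
      · intro i
        fin_cases i <;> simp [lastG]
    exact congrArg (fun φ => φ G) this
  rw [← h1, h, map_zero]

theorem lastG_eval {k : Type*} [Field k] (G : MvPolynomial (Fin 3) k) :
    (lastG k G).eval (X 2) = G := by
  have : ((Polynomial.evalRingHom (X 2 : MvPolynomial (Fin 3) k)).comp (lastG k)) =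
        RingHom.id _ := by
    apply MvPolynomial.ringHom_ext
    · intro r
      simp [lastG]
    · intro i
      fin_cases i <;> simp [lastG]
  exact congrArg (fun φ => φ G) this

theorem spreadG_natDegree {k : Type*} [Field k] (d : ℕ) (G : MvPolynomial (Fin 3) k)
    (hG : G.IsHomogeneous d) (hc : G.coeff (Finsupp.single 1 d) ≠ 0) :
    (spreadG k G).natDegree = d := by
  refine le_antisymm (natDegree_spreadG_le d G hG) ?_
  apply Polynomial.le_natDegree_of_ne_zero
  have h := lastG_coeff_zero d G hG hc
  rwa [← reflect_spreadG d G hG, Polynomial.coeff_reflect, Polynomial.revAt_zero] at h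

theorem spreadG_reverse {k : Type*} [Field k] (d : ℕ) (G : MvPolynomial (Fin 3) k)
    (hG : G.IsHomogeneous d) (hc : G.coeff (Finsupp.single 1 d) ≠ 0) :
    (spreadG k G).reverse = lastG k G := by
  rw [Polynomial.reverse, spreadG_natDegree d G hG hc, reflect_spreadG d G hG]

/-- back from `k[X0, X1, X2]` to `k[x][y]` -/
theorem spread_eval_one {k : Type*} [Field k] (f : Polynomial (Polynomial k)) :
    dehom ((spread k f).eval 1) = f := by
  have : ((dehom (R := k)).comp
      ((Polynomial.evalRingHom (1 : MvPolynomial (Fin 3) k)).comp (spread k))) =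
        RingHom.id _ := by
    apply Polynomial.ringHom_ext'
    · apply Polynomial.ringHom_ext'
      · ext r
        simp [spread, dehom]
      · simp [spread, dehom]
    · simp [spread, dehom]
  exact congrArg (fun φ => φ f) this

theorem spread_eval_zero {k : Type*} [Field k] (f : Polynomial (Polynomial k)) :
    (spread k f).eval 0 = C ((f.eval 0).eval 0) := by
  have : ((Polynomial.evalRingHom (0 : MvPolynomial (Fin 3) k)).comp (spread k)) =
      (C (σ := Fin 3)).comp ((Polynomial.evalRingHom (0 : k)).comp
        (Polynomial.evalRingHom (0 : Polynomial k))) := by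
    apply Polynomial.ringHom_ext'
    · apply Polynomial.ringHom_ext'
      · ext r
        simp [spread]
      · simp [spread]
    · simp [spread]
  exact congrArg (fun φ => φ f) this

theorem isUnit_of_natDegree_zero {k : Type*} [Field k] (f : Polynomial (Polynomial k))
    (hf : f ≠ 0) (h : (spread k f).natDegree = 0) : IsUnit f := by
  have h1 : (spread k f).eval 1 = (spread k f).eval 0 := by
    rw [Polynomial.eq_C_of_natDegree_eq_zero h]; simp
  have h2 := spread_eval_one f
  rw [h1, spread_eval_zero] at h2
  have h3 : f = Polynomial.C (Polynomial.C ((f.eval 0).eval 0)) := by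
    conv_lhs => rw [← h2]
    simp [dehom]
  have h4 : (f.eval 0).eval 0 ≠ 0 := by
    intro h0
    rw [h0] at h3
    apply hf
    simpa using h3
  rw [h3]
  exact ((isUnit_iff_ne_zero.2 h4).map Polynomial.C).map Polynomial.C

theorem spread_map_zero {k : Type*} [Field k] (f : Polynomial (Polynomial k)) :
    (spread k f).map (eval (0 : Fin 3 → k)) = Polynomial.C ((f.eval 0).eval 0) := by
  have : ((Polynomial.mapRingHom (eval (0 : Fin 3 → k))).comp (spread k)) =
      (Polynomial.C (R := k)).comp ((Polynomial.evalRingHom (0 : k)).comp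
        (Polynomial.evalRingHom (0 : Polynomial k))) := by
    apply Polynomial.ringHom_ext'
    · apply Polynomial.ringHom_ext'
      · ext r
        simp [spread]
      · simp [spread]
    · simp [spread]
  exact congrArg (fun φ => φ f) this

/-- the homogenisation -/
noncomputable def homog {k : Type*} [Field k] (f : Polynomial (Polynomial k)) :
    MvPolynomial (Fin 3) k := ((spread k f).reverse).eval (X 2)

theorem homog_zero {k : Type*} [Field k] (f : Polynomial (Polynomial k))
    (h : (spread k f).natDegree ≠ 0) : eval 0 (homog f) = 0 := by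
  have h1 : eval (0 : Fin 3 → k) (homog f) =
      (((spread k f).reverse).map (eval (0 : Fin 3 → k))).eval 0 := by
    rw [homog, Polynomial.eval_map]
    rw [← Polynomial.eval₂_hom]
    simp [Polynomial.eval₂_eq_eval_map]
  rw [h1, ← Polynomial.coeff_zero_eq_eval_zero, Polynomial.coeff_map,
    Polynomial.coeff_zero_reverse, Polynomial.leadingCoeff, ← Polynomial.coeff_map,
    spread_map_zero, Polynomial.coeff_C, if_neg h]

theorem irreducible_dehom_proof {k : Type*} [Field k] [IsAlgClosed k] (d : ℕ) (hd : 1 ≤ d)
    (G : MvPolynomial (Fin 3) k) (hG : G.IsHomogeneous d)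
    (hc : G.coeff (Finsupp.single 1 d) ≠ 0) (hs : ∀ v : Fin 3 → k, ¬ IsSing G v) :
    Irreducible (dehom G) := by
  have hdeg : (spread k (dehom G)).natDegree = d := by
    rw [spread_dehom, spreadG_natDegree d G hG hc]
  refine ⟨?_, ?_⟩
  · intro hu
    have h1 := hu.map (spread k)
    have h2 := Polynomial.natDegree_eq_zero_of_isUnit h1
    omega
  · intro f g hfg
    by_contra hcon
    push Not at hcon
    obtain ⟨hf, hg⟩ := hcon
    have hne : dehom G ≠ 0 := by
      intro h0
      rw [h0, map_zero, Polynomial.natDegree_zero] at hdeg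
      omega
    have hf0 : f ≠ 0 := by
      rintro rfl; apply hne; rw [hfg, zero_mul]
    have hg0 : g ≠ 0 := by
      rintro rfl; apply hne; rw [hfg, mul_zero]
    have hf1 : (spread k f).natDegree ≠ 0 := fun h => hf (isUnit_of_natDegree_zero f hf0 h)
    have hg1 : (spread k g).natDegree ≠ 0 := fun h => hg (isUnit_of_natDegree_zero g hg0 h)
    have hprod : G = homog f * homog g := by
      rw [homog, homog, ← Polynomial.eval_mul, ← Polynomial.reverse_mul_of_domain, ← map_mul,
        ← hfg, spread_dehom, spreadG_reverse d G hG hc, lastG_eval]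
    obtain ⟨v, hv, h1, h2⟩ := exists_common_zero (homog f) (homog g) (homog_zero f hf1)
      (homog_zero g hg1)
    apply hs v
    refine ⟨hv, ?_, ?_⟩
    · rw [hprod, map_mul, h1, zero_mul]
    · intro i
      rw [hprod, Derivation.leibniz, map_add, smul_eq_mul, smul_eq_mul, map_mul, map_mul, h1, h2]
      ring

end SzPl
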