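import Pool.Agent.SzPl.GIrrA
import Pool.Agent.SzPl.GIrrB

/-!
Smooth plane curves are irreducible.
-/

open MvPolynomial

namespace SzPl

theorem dehom_natDegree {R : Type*} [CommRing R] (d : ℕ) (G : MvPolynomial (Fin 3) R)
    (hG : G.IsHomogeneous d) (hc : G.coeff (Finsupp.single 1 d) ≠ 0) :
    (dehom G).natDegree = d ∧
      (dehom G).leadingCoeff = Polynomial.C (G.coeff (Finsupp.single 1 d)) :=
  dehom_natDegree_proof d G hG hc

theorem dehom_map {R S : Type*} [CommRing R] [CommRing S] (φ : R →+* S)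
    (G : MvPolynomial (Fin 3) R) :
    dehom (map φ G) = (dehom G).map (Polynomial.mapRingHom φ) :=
  dehom_map_proof φ G

theorem irreducible_dehom {k : Type*} [Field k] [IsAlgClosed k] (d : ℕ) (hd : 1 ≤ d)
    (G : MvPolynomial (Fin 3) k) (hG : G.IsHomogeneous d)
    (hc : G.coeff (Finsupp.single 1 d) ≠ 0) (hs : ∀ v : Fin 3 → k, ¬ IsSing G v) :
    Irreducible (dehom G) :=
  irreducible_dehom_proof d hd G hG hc hs

end SzPl
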