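import Pool.Agent.SzPl.Defs
import Pool.Agent.SzPl.GIrr
import Pool.Agent.SzPl.DBd
import Pool.Agent.SzPl.BrH
import Pool.Agent.SzPl.Unr
import Pool.Agent.ALC.Glob

/-!
Smooth plane curves with small coefficients have a point of small height.
-/

open Polynomial

namespace SzPl

theorem eval_map_pt {R S σ : Type*} [CommRing R] [CommRing S] (f : R →+* S) (w : σ → R)
    (F : MvPolynomial σ R) :
    MvPolynomial.eval (fun i => f (w i)) (MvPolynomial.map f F) = f (MvPolynomial.eval w F) := by
  have h : (MvPolynomial.eval (fun i => f (w i))).comp (MvPolynomial.map f) =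
      f.comp (MvPolynomial.eval w) := by
    apply MvPolynomial.ringHom_ext
    · intro r; simp
    · intro i; simp
  exact congrArg (fun g => g F) h

/-- singular points under an extension of fields -/
theorem isSing_map {k l : Type*} [Field k] [Field l] (τ : k →+* l)
    (G : MvPolynomial (Fin 3) k) (v : Fin 3 → k) (h : IsSing G v) :
    IsSing (MvPolynomial.map τ G) (fun i => τ (v i)) := by
  obtain ⟨h0, h1, h2⟩ := h
  refine ⟨fun h => h0 ?_, ?_, fun i => ?_⟩
  · funext i
    exact τ.injective (by simpa using congrFun h i)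
  · rw [eval_map_pt, h1, map_zero]
  · rw [MvPolynomial.pderiv_map, eval_map_pt, h2, map_zero]

theorem discr_ne_zero_of_separable {K : Type*} [Field K] [CharZero K] {f : K[X]}
    (hf : 1 ≤ f.natDegree) (hs : f.Separable) : f.discr ≠ 0 := by
  intro h0
  have h1 := resultant_deriv (f := f) (natDegree_pos_iff_degree_pos.mp (by omega))
  have h2 : f.derivative.natDegree = f.natDegree - 1 := by
    apply natDegree_eq_of_le_of_coeff_ne_zero (natDegree_derivative_le f)
    rw [coeff_derivative]
    have h3 : f.natDegree - 1 + 1 = f.natDegree := by omega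
    rw [h3]
    have h4 : f.coeff f.natDegree ≠ 0 := by
      rw [coeff_natDegree]
      apply leadingCoeff_ne_zero.2
      rintro rfl
      simp at hf
    exact mul_ne_zero h4 (by exact_mod_cast Nat.succ_ne_zero (f.natDegree - 1))
  rw [h0, mul_zero, ← h2] at h1
  exact (resultant_eq_zero_iff.1 h1).2 hs

theorem discr_ne_zero_of_irreducible {k : Type*} [Field k] [CharZero k] (F : k[X][X])
    (h1 : 1 ≤ F.natDegree) (hirr : Irreducible F) : F.discr ≠ 0 := by
  have hprim : F.IsPrimitive := hirr.isPrimitive (by omega)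
  have hirr' : Irreducible (F.map (algebraMap k[X] (RatFunc k))) :=
    (hprim.irreducible_iff_irreducible_map_fraction_map (K := RatFunc k)).1 hirr
  have hinj : Function.Injective (algebraMap k[X] (RatFunc k)) := IsFractionRing.injective _ _
  have hF0 : F ≠ 0 := hirr.ne_zero
  have h2 := SzBF.discr_map_of_ne (algebraMap k[X] (RatFunc k)) (f := F) (by
    rw [Ne, map_eq_zero_iff _ hinj]
    exact leadingCoeff_ne_zero.2 hF0)
  have h3 : (F.map (algebraMap k[X] (RatFunc k))).natDegree = F.natDegree :=
    natDegree_map_eq_of_injective hinj F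
  have : CharZero (RatFunc k) := charZero_of_injective_algebraMap (R := k[X]) hinj
  have h4 := discr_ne_zero_of_separable (by rw [h3]; exact h1) hirr'.separable
  intro h0
  rw [h0, map_zero] at h2
  exact h4 h2

/-- an embedding of the algebraic closure of a number field in the complex numbers -/
theorem exists_emb (K : Type) [Field K] [NumberField K] :
    Nonempty (AlgebraicClosure K →+* ℂ) := by
  have h1 : Algebra.IsAlgebraic ℚ (AlgebraicClosure K) :=
    Algebra.IsAlgebraic.trans ℚ K (AlgebraicClosure K)
  exact ⟨(IsAlgClosed.lift (R := ℚ) (S := AlgebraicClosure K) (M := ℂ)).toRingHom⟩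

/-- splitting fields -/
theorem exists_split (P : ℚ[X]) : ∃ (K : Type) (_ : Field K) (_ : NumberField K),
    (P.map (Rat.castHom K)).Splits := by
  have h0 : CharZero (SplittingField P) :=
    charZero_of_injective_algebraMap (algebraMap ℚ (SplittingField P)).injective
  have h2 : (DivisionRing.toRatAlgebra : Algebra ℚ (SplittingField P)) =
      (inferInstanceAs (Algebra ℚ P.SplittingField)) := Subsingleton.elim _ _
  refine ⟨SplittingField P, inferInstance,
    { to_charZero := inferInstance, to_finiteDimensional := ?_ }, ?_⟩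
  · rw [h2]
    infer_instance
  · have h1 : Rat.castHom (SplittingField P) = algebraMap ℚ (SplittingField P) :=
      Subsingleton.elim _ _
    rw [h1]
    exact SplittingField.splits P

theorem small_point (d : ℕ) (hd : 4 ≤ d) : ∃ C : ℝ, ∀ G : MvPolynomial (Fin 3) ℤ,
    G.IsHomogeneous d → G.coeff (Finsupp.single 1 d) ≠ 0 →
    Smooth G → ∀ H : ℕ, 1 ≤ H → (∀ s, |G.coeff s| ≤ H) →
      SmallPoint d G ((2 * d - 2 : ℕ) * Real.log H + C) := by
  obtain ⟨N, K0, hK0, hbd⟩ := discr_bound d (by omega)
  set g : ℕ := (d - 1) * (d - 2) / 2 with hg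
  have hg1 : 1 ≤ g := by
    have h1 : 2 * 1 ≤ (d - 1) * (d - 2) := Nat.mul_le_mul (by omega) (by omega)
    omega
  refine ⟨Real.log (4 * K0) + (2 * Chebyshev.psi d +
      (1 / 2) * Real.log (1 + 1 / g) + (1 / g) * Real.log (1 + g)), ?_⟩
  intro G hG hc hsm H hH1 hH
  obtain ⟨hN, hT⟩ := hbd G hG hc H hH1 hH
  obtain ⟨hfd, hfl⟩ := dehom_natDegree d G hG hc
  set f : ℤ[X][X] := dehom G with hf
  set D : ℤ[X] := f.discr with hD
  set c : ℤ := G.coeff (Finsupp.single 1 d) with hcdef
  have hf0 : f ≠ 0 := by
    intro h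
    rw [h, natDegree_zero] at hfd
    omega
  -- facts over any field of characteristic zero
  have hmapf : ∀ (k : Type) [Field k], dehom (MvPolynomial.map (Int.castRingHom k) G) =
      f.map (mapRingHom (Int.castRingHom k)) := fun k _ => dehom_map _ _
  have hirrC : ∀ (k : Type) [Field k] [IsAlgClosed k] [CharZero k],
      (∀ v : Fin 3 → k, ¬ IsSing (MvPolynomial.map (Int.castRingHom k) G) v) →
      Irreducible (f.map (mapRingHom (Int.castRingHom k))) := by
    intro k _ _ _ h
    rw [← hmapf k]
    refine irreducible_dehom d (by omega) _ (hG.map _) ?_ h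
    rw [MvPolynomial.coeff_map]
    simpa using hc
  have hD0 : D ≠ 0 := by
    have h1 := hirrC ℂ hsm
    have hdeg : (f.map (mapRingHom (Int.castRingHom ℂ))).natDegree = d := by
      rw [← hfd]
      exact natDegree_map_eq_of_injective (map_injective _ (RingHom.injective_int _)) f
    have h2 := discr_ne_zero_of_irreducible _ (by rw [hdeg]; omega) h1
    rw [SzBF.discr_map_of_ne (mapRingHom (Int.castRingHom ℂ)) (f := f) (by
      rw [hfl]
      simpa using hc)] at h2
    intro h0
    apply h2
    rw [← hD, h0, map_zero]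
  -- the point b
  obtain ⟨b, hbN, hb⟩ : ∃ b : ℕ, b ≤ N ∧ D.eval (b : ℤ) ≠ 0 := by
    by_contra hcon
    push Not at hcon
    have h1 : (Finset.image (fun b : ℕ => (b : ℤ)) (Finset.range (N + 1))) ⊆ D.roots.toFinset := by
      intro x hx
      obtain ⟨b, hb, rfl⟩ := Finset.mem_image.1 hx
      rw [Multiset.mem_toFinset, mem_roots hD0]
      exact hcon b (by have := Finset.mem_range.1 hb; omega)
    have h2 := Finset.card_le_card h1
    rw [Finset.card_image_of_injective _ Nat.cast_injective, Finset.card_range] at h2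
    have h3 := h2.trans ((Multiset.toFinset_card_le _).trans (card_roots' _))
    omega
  -- the field
  set q : ℚ[X] := (f.map (evalRingHom (b : ℤ))).map (Int.castRingHom ℚ) with hq
  set Dq : ℚ[X] := D.map (Int.castRingHom ℚ) with hDq
  obtain ⟨K, instF, instN, hsp⟩ := exists_split (Dq * q)
  have hcomp : (Rat.castHom K).comp (Int.castRingHom ℚ) = Int.castRingHom K := RingHom.ext_int _ _
  have hqd : (f.map (evalRingHom (b : ℤ))).natDegree = d := by
    rw [← hfd]
    apply natDegree_map_of_leadingCoeff_ne_zero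
    rw [hfl]
    simpa using hc
  have hqd' : q.natDegree = d := by
    rw [← hqd]
    exact natDegree_map_eq_of_injective (RingHom.injective_int _) _
  have hq0 : q ≠ 0 := by
    intro h
    rw [h, natDegree_zero] at hqd'
    omega
  have hDq0 : Dq ≠ 0 := (Polynomial.map_ne_zero_iff (RingHom.injective_int _)).2 hD0
  have hDK : Dq.map (Rat.castHom K) = D.map (Int.castRingHom K) := by
    rw [hDq, Polynomial.map_map, hcomp]
  have hspD : (D.map (Int.castRingHom K)).Splits := by
    rw [← hDK]
    refine hsp.of_dvd ?_ ?_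
    · rw [Polynomial.map_ne_zero_iff (Rat.castHom K).injective]
      exact mul_ne_zero hDq0 hq0
    · rw [Polynomial.map_mul]
      exact dvd_mul_right _ _
  have hspq : (q.map (Rat.castHom K)).Splits := by
    refine hsp.of_dvd ?_ ?_
    · rw [Polynomial.map_ne_zero_iff (Rat.castHom K).injective]
      exact mul_ne_zero hDq0 hq0
    · rw [Polynomial.map_mul]
      exact dvd_mul_left _ _
  have hcK : ((c : ℤ) : K) ≠ 0 := by exact_mod_cast hc
  set φ : ℤ →+* K := Int.castRingHom K with hφ
  have hφinj : Function.Injective φ := RingHom.injective_int _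
  have hF : eqn d K G = C (C ((c : K)⁻¹)) * f.map (mapRingHom φ) := by
    rw [eqn, hmapf K]
  have hfKd : (f.map (mapRingHom φ)).natDegree = d := by
    rw [← hfd]
    exact natDegree_map_eq_of_injective (map_injective _ hφinj) f
  have hfKl : (f.map (mapRingHom φ)).leadingCoeff = C (c : K) := by
    rw [leadingCoeff_map_of_injective (map_injective _ hφinj), hfl]
    simp [hφ]
  have hFm : (eqn d K G).Monic := by
    rw [Monic, hF, leadingCoeff_mul, leadingCoeff_C, hfKl, ← C_mul, inv_mul_cancel₀ hcK, C_1]
  have hFd : (eqn d K G).natDegree = d := by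
    rw [hF, natDegree_C_mul_of_mul_ne_zero, hfKd]
    rw [hfKl, ← C_mul, inv_mul_cancel₀ hcK]
    simp
  have hgeom : ALC.GeomIrred (eqn d K G) := by
    obtain ⟨τ⟩ := exists_emb K
    have h1 : Irreducible (f.map (mapRingHom (Int.castRingHom (AlgebraicClosure K)))) := by
      have : CharZero (AlgebraicClosure K) :=
        charZero_of_injective_algebraMap (algebraMap K (AlgebraicClosure K)).injective
      apply hirrC
      intro v hv
      apply hsm (fun i => τ (v i))
      have h2 := isSing_map τ _ v hv
      rw [MvPolynomial.map_map] at h2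
      have h3 : τ.comp (Int.castRingHom (AlgebraicClosure K)) = Int.castRingHom ℂ :=
        RingHom.ext_int _ _
      rw [h3] at h2
      exact h2
    unfold ALC.GeomIrred ALC.bc
    rw [hF, Polynomial.map_mul, map_C, Polynomial.map_map]
    have h2 : (mapRingHom (algebraMap K (AlgebraicClosure K))).comp (mapRingHom φ) =
        mapRingHom (Int.castRingHom (AlgebraicClosure K)) := by
      rw [mapRingHom_comp]
      congr 1
    rw [h2, irreducible_isUnit_mul]
    · exact h1
    · apply IsUnit.map C
      refine IsUnit.map (mapRingHom (algebraMap K (AlgebraicClosure K))) ?_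
      apply IsUnit.map C
      exact (isUnit_iff_ne_zero.2 (inv_ne_zero hcK))
  have hirrK : Irreducible (eqn d K G) :=
    Monic.irreducible_of_irreducible_map (mapRingHom (algebraMap K (AlgebraicClosure K))) _ hFm hgeom
  have hdisc : (eqn d K G).discr = C (((c : K)⁻¹) ^ (2 * d - 2)) * D.map φ := by
    rw [hF, discr_unit_mul _ (by rw [hfKd]; omega) _ (inv_ne_zero hcK), hfKd]
    rw [SzBF.discr_map_of_ne (mapRingHom φ) (f := f) (by
      rw [hfl]
      simpa [hφ] using hc)]
    rfl
  have hDK0 : D.map φ ≠ 0 := (Polynomial.map_ne_zero_iff hφinj).2 hD0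
  have hc2 : ((c : K)⁻¹) ^ (2 * d - 2) ≠ 0 := pow_ne_zero _ (inv_ne_zero hcK)
  have hdisc0 : (eqn d K G).discr ≠ 0 := by
    rw [hdisc]
    exact mul_ne_zero (C_ne_zero.2 hc2) hDK0
  have hdiscs : (eqn d K G).discr.Splits := by
    rw [hdisc]
    exact (Splits.C _).mul hspD
  -- the exceptional set
  classical
  set D' : ℤ[X] := D * (X - C ((b : ℤ) + 1)) with hD'
  have hD'0 : D'.map φ ≠ 0 := by
    rw [Polynomial.map_ne_zero_iff hφinj]
    exact mul_ne_zero hD0 (X_sub_C_ne_zero _)
  set A : Finset K := (D'.map φ).roots.toFinset with hA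
  have hA1 : ∀ a ∈ A, (D'.map φ).IsRoot a := by
    intro a ha
    rw [hA, Multiset.mem_toFinset, mem_roots hD'0] at ha
    exact ha
  have hAne : A.Nonempty := by
    refine ⟨(b : K) + 1, ?_⟩
    rw [hA, Multiset.mem_toFinset, mem_roots hD'0, IsRoot.def, hD', Polynomial.map_mul, eval_mul]
    simp [hφ]
  have hD's : (D'.map φ).Splits := by
    rw [hD', Polynomial.map_mul, Polynomial.map_sub, map_X, map_C]
    exact hspD.mul (Splits.X_sub_C _)
  have hbD : (D.map φ).eval (b : K) = ((D.eval (b : ℤ) : ℤ) : K) := by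
    have h1 := (eval₂_at_apply φ (b : ℤ) (p := D))
    rw [← eval_map] at h1
    simpa [hφ] using h1
  have hbA : (b : K) ∉ A := by
    intro h
    have h1 := hA1 _ h
    rw [IsRoot.def, hD', Polynomial.map_mul, eval_mul, hbD] at h1
    rcases mul_eq_zero.1 h1 with h2 | h2
    · exact hb (by exact_mod_cast h2)
    · simp [hφ] at h2
  have hun : ALC.UnramifiedOutside (eqn d K G) A := by
    apply unramified _ hFm (by rw [hFd]; omega) hirrK hdiscs hdisc0
    intro a ha
    rw [hA, Multiset.mem_toFinset, mem_roots hD'0, IsRoot.def, hD', Polynomial.map_mul, eval_mul]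
    rw [IsRoot.def, hdisc, eval_mul, eval_C] at ha
    rcases mul_eq_zero.1 ha with h1 | h1
    · exact absurd h1 hc2
    · rw [h1, zero_mul]
  have hat : ALC.at_ (eqn d K G) (b : K) = C ((c : K)⁻¹) * q.map (Rat.castHom K) := by
    unfold ALC.at_
    rw [hF, Polynomial.map_mul, map_C, Polynomial.map_map, hq, Polynomial.map_map,
      Polynomial.map_map, hcomp]
    congr 1
    · simp
    · congr 1
      ext x
      · simp [hφ]
      · simp [hφ]
  have hsep : (ALC.at_ (eqn d K G) (b : K)).Separable := by
    have h1 : ((eqn d K G).map (evalRingHom (b : K))).discr =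
        evalRingHom (b : K) (eqn d K G).discr := by
      apply SzBF.discr_map_of_ne
      rw [hFm.leadingCoeff, map_one]
      exact one_ne_zero
    apply SzBF.separable_of_discr
    · show 1 ≤ ((eqn d K G).map (evalRingHom (b : K))).natDegree
      rw [hFm.natDegree_map, hFd]
      omega
    · show ((eqn d K G).map (evalRingHom (b : K))).discr ≠ 0
      rw [h1, coe_evalRingHom, hdisc, eval_mul, eval_C, hbD]
      exact mul_ne_zero hc2 (by exact_mod_cast hb)
  obtain ⟨y0, hy0⟩ : ∃ y0 : K, (q.map (Rat.castHom K)).eval y0 = 0 := by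
    apply hspq.exists_eval_eq_zero
    intro h
    have h1 : (q.map (Rat.castHom K)).natDegree = 0 := natDegree_eq_of_degree_eq_some h
    rw [natDegree_map, hqd'] at h1
    omega
  have hy : (ALC.at_ (eqn d K G) (b : K)).eval y0 = 0 := by
    rw [hat, eval_mul, hy0, mul_zero]
  refine ⟨K, inferInstance, inferInstance, b, y0, hsep, hy, fun e Gr l he hGr => ?_⟩
  refine (ALC.main (eqn d K G) hFm hgeom A hAne hun b y0 hbA hsep hy g hg1 e he Gr l hGr).trans ?_
  rw [EReal.coe_le_coe_iff, hFd]
  have hH0 : (1 : ℝ) ≤ H := by exact_mod_cast hH1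
  have hK0' : (1 : ℝ) ≤ K0 := by exact_mod_cast hK0
  have hbr := branchHeight_le D' hD's A hA1 (b : ℤ) (by
    rw [hD', eval_mul]
    refine mul_ne_zero hb ?_
    simp) (2 * (K0 * H ^ (2 * d - 2))) (by
    have h1 : 1 ≤ H ^ (2 * d - 2) := Nat.one_le_pow _ _ hH1
    nlinarith) (by
    intro i
    have h1 : D'.taylor (b : ℤ) = D.taylor (b : ℤ) * (X - C 1) := by
      rw [hD', taylor_mul, map_sub, taylor_X, taylor_C]
      congr 1
      rw [C_add]
      ring
    rw [h1, mul_sub, coeff_sub, coeff_mul_C, mul_one]
    have h2 := hT b hbN i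
    have h3 : |((taylor (b : ℤ)) D * X).coeff i| ≤ (K0 : ℤ) * (H : ℤ) ^ (2 * d - 2) := by
      cases i with
      | zero =>
        rw [coeff_mul_X_zero, abs_zero]
        positivity
      | succ i =>
        rw [coeff_mul_X]
        exact hT b hbN i
    push_cast
    calc _ ≤ |((taylor (b : ℤ)) D * X).coeff i| + |((taylor (b : ℤ)) D).coeff i| := abs_sub _ _
      _ ≤ _ := by linarith)
  have h5 : Real.log (2 * ((2 * (K0 * H ^ (2 * d - 2)) : ℕ) : ℝ)) =
      Real.log (4 * K0) + (2 * d - 2 : ℕ) * Real.log H := by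
    rw [← Real.log_pow, ← Real.log_mul (by positivity) (by positivity)]
    congr 1
    push_cast
    ring
  rw [h5] at hbr
  have h6 : ALC.branchHeight K A (b : K) = ALC.branchHeight K A (((b : ℤ) : K)) := by norm_num
  rw [h6]
  linarith

end SzPl
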