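import Mathlib

/-!
Plane curves: definitions.

A plane curve over a field `k` is a homogeneous polynomial `G` in `x_0, x_1, x_2`.
-/

open MvPolynomial

namespace SzPl

/-- `v` is a singular point of the plane curve `G = 0`. -/
def IsSing {k : Type*} [Field k] (G : MvPolynomial (Fin 3) k) (v : Fin 3 → k) : Prop :=
  v ≠ 0 ∧ eval v G = 0 ∧ ∀ i, eval v (pderiv i G) = 0

/-- The Hessian matrix of `G` at `v`. -/
noncomputable def hess {k : Type*} [Field k] (G : MvPolynomial (Fin 3) k) (v : Fin 3 → k)
    (i j : Fin 3) : k := eval v (pderiv i (pderiv j G))

/-- The Hessian matrix of `G` at `v` has rank at least two. A singular point with this property is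
an ordinary double point. -/
def IsNode {k : Type*} [Field k] (G : MvPolynomial (Fin 3) k) (v : Fin 3 → k) : Prop :=
  ∃ i j i' j', hess G v i j * hess G v i' j' ≠ hess G v i j' * hess G v i' j

/-- The plane curve `G = 0` (over an algebraically closed field) is singular and all its singular
points are ordinary double points. -/
def IsNodal {k : Type*} [Field k] (G : MvPolynomial (Fin 3) k) : Prop :=
  (∃ v, IsSing G v) ∧ ∀ v, IsSing G v → IsNode G v

/-- The member at `t` of a family of plane curves over affine space. -/
noncomputable def member {r : ℕ} {S : Type*} [CommRing S]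
    (G : MvPolynomial (Fin 3) (MvPolynomial (Fin r) ℤ)) (t : Fin r → S) :
    MvPolynomial (Fin 3) S :=
  map (eval₂Hom (Int.castRingHom S) t) G

end SzPl
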