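import Pool.Agent.SzPl.Basic
import Pool.Agent.ALC.Defs

/-!
Plane curves: places of nodal reduction and heights of points.

A plane curve of degree `d ≥ 4` over `ℚ`, given by a polynomial `G` with integral coefficients
such that `G mod p` defines a curve over an algebraic closure of the field with `p` elements all
singular points of which are ordinary double points, has this curve as its stable reduction
(`ω = O(d-3)` is ample). So if `NodalAt G p` and `G = 0` is smooth over `ℚ` then `p` is a place of
bad reduction of the curve, over `ℚ` and over all finite extensions.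
-/

open MvPolynomial

namespace SzPl

/-- The reduction of the plane curve `G = 0` modulo the prime `p` is singular and all its singular
points are ordinary double points. -/
def NodalAt (G : MvPolynomial (Fin 3) ℤ) (p : ℕ) : Prop :=
  ∃ hp : p.Prime, haveI : Fact p.Prime := ⟨hp⟩
    IsNodal (map (Int.castRingHom (AlgebraicClosure (ZMod p))) G)

/-- `G(x, y, 1)` as a polynomial in `y` with coefficients in `R[x]` -/
noncomputable def dehom {R : Type*} [CommRing R] : MvPolynomial (Fin 3) R →+*
    Polynomial (Polynomial R) :=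
  eval₂Hom ((Polynomial.C (R := Polynomial R)).comp (Polynomial.C (R := R)))
    ![Polynomial.C Polynomial.X, Polynomial.X, 1]

/-- The equation `G(x, y, 1) = 0` over the field `K`, divided by the coefficient of `y^d`. -/
noncomputable def eqn (d : ℕ) (K : Type*) [Field K] (G : MvPolynomial (Fin 3) ℤ) :
    Polynomial (Polynomial K) :=
  Polynomial.C (Polynomial.C (((G.coeff (Finsupp.single 1 d) : ℤ) : K)⁻¹)) *
    dehom (map (Int.castRingHom K) G)

/-- The smooth plane curve `G = 0` of degree `d`, of genus `(d - 1)(d - 2)/2`, has a point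
`(b, y0, 1)` over some number field with stable Arakelov height at most `B`. -/
def SmallPoint (d : ℕ) (G : MvPolynomial (Fin 3) ℤ) (B : ℝ) : Prop :=
  ∃ (K : Type) (_ : Field K) (_ : NumberField K) (b y0 : K),
    (ALC.at_ (eqn d K G) b).Separable ∧ (ALC.at_ (eqn d K G) b).eval y0 = 0 ∧
    ∀ (e : (K →+* ℂ) → Fin ((d - 1) * (d - 2) / 2) →
        Polynomial (Polynomial ℂ) × Polynomial ℂ)
      (Gr : (K →+* ℂ) → ℂ → ℂ → ℝ) (l : (K →+* ℂ) → ℝ),
      (∀ σ, ALC.IsONB (ALC.bc σ (eqn d K G)) ((d - 1) * (d - 2) / 2) (e σ)) →
      (∀ σ, ALC.IsGreen (ALC.bc σ (eqn d K G)) (e σ) (σ b) (σ y0) (Gr σ) (l σ)) →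
      ALC.height K (eqn d K G) b y0 l ≤ (B : EReal)

/-- `G = 0` is smooth over the field of the complex numbers. -/
def Smooth (G : MvPolynomial (Fin 3) ℤ) : Prop :=
  ∀ v : Fin 3 → ℂ, ¬ IsSing (map (Int.castRingHom ℂ) G) v

/-- The curve `G = 0` is smooth and has a point with stable Arakelov height at most
`κ log N + C` for a product `N` of different primes of nodal reduction. -/
def Szpiro (d : ℕ) (G : MvPolynomial (Fin 3) ℤ) (κ C : ℝ) : Prop :=
  Smooth G ∧ ∃ S : Finset ℕ, (∀ p ∈ S, NodalAt G p) ∧
    SmallPoint d G (κ * Real.log (∏ p ∈ S, p : ℕ) + C)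

end SzPl
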