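import Pool.Agent.SzPl.DscB

/-!
The discriminant of plane curves: it vanishes exactly at the singular curves, in all
characteristics.
-/

open MvPolynomial

namespace SzPl

theorem exists_disc (d : ℕ) (hd : 2 ≤ d) : ∃ P : MvPolynomial (Mon d) ℤ,
    (∀ (k : Type) [Field k] [IsAlgClosed k] (ψ : MvPolynomial (Mon d) ℤ →+* k), ψ P = 0 →
      ∃ v : Fin 3 → k, IsSing (map ψ (gen d)) v) ∧
    ∀ (k : Type) [Field k] (ψ : MvPolynomial (Mon d) ℤ →+* k) (v : Fin 3 → k), v 2 ≠ 0 →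
      IsSing (map ψ (gen d)) v → ψ P = 0 :=
  exists_disc_proof d hd

/-- the prime divisor of nodal curves through a nodal member of a family -/
theorem exists_divisor (r d : ℕ) (hd : 2 ≤ d)
    (G : MvPolynomial (Fin 3) (MvPolynomial (Fin r) ℤ)) (hG : G.IsHomogeneous d)
    (t₀ t₁ : Fin r → ℂ) (h1 : ∀ v : Fin 3 → ℂ, ¬ IsSing (member G t₁) v)
    (h0 : IsNodal (member G t₀)) :
    ∃ P J : MvPolynomial (Fin r) ℤ, Irreducible P ∧ 0 < P.totalDegree ∧ ¬ P ∣ J ∧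
      ∀ (k : Type) [Field k] [IsAlgClosed k] (ψ : MvPolynomial (Fin r) ℤ →+* k), ψ P = 0 →
        ψ J ≠ 0 → IsNodal (map ψ G) :=
  DscB.exists_divisor_proof r d hd G hG t₀ t₁ h1 h0

end SzPl
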