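import Mathlib

/-!
Elimination: forms in three variables without common zero.
-/

open MvPolynomial

namespace SzPl

/-- The exponents of degree `N`. -/
def elimT (N : ℕ) : Finset (Fin 3 →₀ ℕ) := (Finset.univ : Finset (Fin 3)).finsuppAntidiag N

theorem mem_elimT {N : ℕ} {d : Fin 3 →₀ ℕ} : d ∈ elimT N ↔ d.degree = N := by
  rw [elimT, Finset.mem_finsuppAntidiag, Finsupp.degree_eq_sum]
  constructor
  · intro h
    exact h.1
  · intro h
    exact ⟨h, Finset.subset_univ _⟩

theorem elim_span {ι : Type} [Fintype ι] {k : Type} [Field k] (T : ι → MvPolynomial (Fin 3) k)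
    (e : ι → ℕ) (hT : ∀ j, (T j).IsHomogeneous (e j)) (N : ℕ) (p : MvPolynomial (Fin 3) k)
    (hp : p ∈ Ideal.span (Set.range T)) :
    homogeneousComponent N p ∈ Submodule.span k
      ((fun q : ι × (Fin 3 →₀ ℕ) => monomial q.2 (1 : k) * T q.1) ''
        {q | q.2.degree + e q.1 = N}) := by
  obtain ⟨c, hc⟩ := Ideal.mem_span_range_iff_exists_fun.1 hp
  rw [← hc, map_sum]
  apply Submodule.sum_mem
  intro j _
  have key : ∀ r : MvPolynomial (Fin 3) k, homogeneousComponent N (r * T j) ∈ Submodule.span k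
      ((fun q : ι × (Fin 3 →₀ ℕ) => monomial q.2 (1 : k) * T q.1) ''
        {q | q.2.degree + e q.1 = N}) := by
    intro r
    induction r using MvPolynomial.induction_on' with
    | monomial u a =>
      have h1 : monomial u a * T j = a • (monomial u (1 : k) * T j) := by
        rw [← smul_mul_assoc, smul_monomial, smul_eq_mul, mul_one]
      rw [h1, map_smul]
      apply Submodule.smul_mem
      have h2 : monomial u (1 : k) * T j ∈ homogeneousSubmodule (Fin 3) k (u.degree + e j) := by
        rw [mem_homogeneousSubmodule]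
        exact (isHomogeneous_monomial (1 : k) rfl).mul (hT j)
      rw [homogeneousComponent_of_mem h2]
      split_ifs with h3
      · apply Submodule.subset_span
        exact ⟨(j, u), h3.symm, rfl⟩
      · exact Submodule.zero_mem _
    | add r s hr hs =>
      rw [add_mul, map_add]
      exact Submodule.add_mem _ hr hs
  exact key (c j)

theorem elim_det {ι : Type} [Fintype ι] {k : Type} [Field k] (T : ι → MvPolynomial (Fin 3) k)
    (e : ι → ℕ) (hT : ∀ j, (T j).IsHomogeneous (e j)) (N : ℕ)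
    (h : ∀ d ∈ elimT N, monomial d (1 : k) ∈ Ideal.span (Set.range T)) :
    ∃ c : elimT N → ι × (Fin 3 →₀ ℕ), (∀ i, (c i).2.degree + e (c i).1 = N) ∧
      (Matrix.of fun i j : elimT N =>
        coeff (j : Fin 3 →₀ ℕ) (monomial (c i).2 (1 : k) * T (c i).1)).det ≠ 0 := by
  classical
  have h1 : ∀ i : elimT N, ∃ l ∈ Finsupp.supported k k
      {q : ι × (Fin 3 →₀ ℕ) | q.2.degree + e q.1 = N},
      Finsupp.linearCombination k
        (fun q : ι × (Fin 3 →₀ ℕ) => monomial q.2 (1 : k) * T q.1) l =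
        monomial (i : Fin 3 →₀ ℕ) (1 : k) := by
    intro i
    rw [← Finsupp.mem_span_image_iff_linearCombination]
    have h2 := elim_span T e hT N _ (h i i.2)
    rwa [homogeneousComponent_eq_self (isHomogeneous_monomial (1 : k) (mem_elimT.1 i.2))] at h2
  choose l hl hl2 using h1
  let row : ι × (Fin 3 →₀ ℕ) → (elimT N → k) := fun q j =>
    coeff (j : Fin 3 →₀ ℕ) (monomial q.2 (1 : k) * T q.1)
  have h3 : (fun i : elimT N => ∑ q ∈ (l i).support, l i q • row q) =
      (1 : Matrix (elimT N) (elimT N) k) := by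
    funext i j
    rw [Finset.sum_apply]
    simp only [Pi.smul_apply, smul_eq_mul, row]
    have h4 := congrArg (coeff (j : Fin 3 →₀ ℕ)) (hl2 i)
    rw [Finsupp.linearCombination_apply, Finsupp.sum, coeff_sum, coeff_monomial] at h4
    simp only [coeff_smul, smul_eq_mul] at h4
    rw [h4, Matrix.one_apply]
    simp only [Subtype.ext_iff]
  have h5 : (Matrix.detRowAlternating : (elimT N → k) [⋀^elimT N]→ₗ[k] k)
      (fun i : elimT N => ∑ q ∈ (l i).support, l i q • row q) = 1 := by
    rw [h3]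
    exact Matrix.det_one
  have h6 := (Matrix.detRowAlternating : (elimT N → k) [⋀^elimT N]→ₗ[k]
    k).toMultilinearMap.map_sum_finset (fun (i : elimT N) q => l i q • row q)
    (fun i => (l i).support)
  have h7 : ∑ r ∈ Fintype.piFinset (fun i : elimT N => (l i).support),
      (Matrix.detRowAlternating : (elimT N → k) [⋀^elimT N]→ₗ[k] k).toMultilinearMap
        (fun i => l i (r i) • row (r i)) ≠ 0 := by
    rw [← h6]
    change (Matrix.detRowAlternating : (elimT N → k) [⋀^elimT N]→ₗ[k] k)
      (fun i : elimT N => ∑ q ∈ (l i).support, l i q • row q) ≠ 0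
    rw [h5]
    exact one_ne_zero
  obtain ⟨r, hr, hr2⟩ := Finset.exists_ne_zero_of_sum_ne_zero h7
  rw [MultilinearMap.map_smul_univ] at hr2
  refine ⟨r, ?_, ?_⟩
  · intro i
    have h8 := Fintype.mem_piFinset.1 hr i
    exact (Finsupp.mem_supported k (l i)).1 (hl i) h8
  · intro h9
    apply hr2
    have h10 : (Matrix.detRowAlternating : (elimT N → k) [⋀^elimT N]→ₗ[k] k).toMultilinearMap
        (fun i => row (r i)) = 0 := h9
    rw [h10, smul_zero]

theorem elim_eval {k : Type} [Field k] (N : ℕ) (p : MvPolynomial (Fin 3) k)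
    (hp : p.IsHomogeneous N) (v : Fin 3 → k) :
    eval v p = ∑ j : elimT N, coeff (j : Fin 3 →₀ ℕ) p * ∏ i, v i ^ ((j : Fin 3 →₀ ℕ) i) := by
  rw [eval_eq', Finset.sum_coe_sort (elimT N) (fun j => coeff j p * ∏ i, v i ^ (j i))]
  apply Finset.sum_subset
  · intro d hd
    rw [mem_elimT]
    by_contra h
    exact (mem_support_iff.1 hd) (hp.coeff_eq_zero h)
  · intro d _ hd
    rw [notMem_support_iff.1 hd, zero_mul]

theorem elim_power {ι : Type} {k : Type} [Field k] [IsAlgClosed k]
    (T : ι → MvPolynomial (Fin 3) k)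
    (h : ∀ v : Fin 3 → k, v ≠ 0 → ∃ j, eval v (T j) ≠ 0) :
    ∃ M : ℕ, ∀ i, (X i : MvPolynomial (Fin 3) k) ^ M ∈ Ideal.span (Set.range T) := by
  have h1 : ∀ i, ∃ m : ℕ, (X i : MvPolynomial (Fin 3) k) ^ m ∈ Ideal.span (Set.range T) := by
    intro i
    have h2 : (X i : MvPolynomial (Fin 3) k) ∈ (Ideal.span (Set.range T)).radical := by
      rw [← vanishingIdeal_zeroLocus_eq_radical (K := k)]
      intro x hx
      by_cases hx0 : x = 0
      · rw [hx0, aeval_X]
        rfl
      · exfalso
        obtain ⟨j, hj⟩ := h x hx0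
        apply hj
        have h3 := hx (T j) (Ideal.subset_span ⟨j, rfl⟩)
        rw [← h3]
        rfl
    exact h2
  choose m hm using h1
  refine ⟨∑ i, m i, fun i => ?_⟩
  have h4 : m i ≤ ∑ i, m i := Finset.single_le_sum (fun _ _ => Nat.zero_le _) (Finset.mem_univ i)
  rw [← Nat.sub_add_cancel h4, pow_add]
  exact Ideal.mul_mem_left _ _ (hm i)

theorem elim {R : Type} [CommRing R] {ι : Type} [Finite ι] (S : ι → MvPolynomial (Fin 3) R)
    (e : ι → ℕ) (hS : ∀ j, (S j).IsHomogeneous (e j)) (k₀ : Type) [Field k₀] [IsAlgClosed k₀]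
    (φ₀ : R →+* k₀) (h : ∀ v : Fin 3 → k₀, v ≠ 0 → ∃ j, eval v (map φ₀ (S j)) ≠ 0) :
    ∃ J : R, φ₀ J ≠ 0 ∧ ∀ (k : Type) [Field k] (φ : R →+* k), φ J ≠ 0 →
      ∀ v : Fin 3 → k, v ≠ 0 → ∃ j, eval v (map φ (S j)) ≠ 0 := by
  classical
  obtain ⟨_⟩ := nonempty_fintype ι
  obtain ⟨M, hM⟩ := elim_power (fun j => map φ₀ (S j)) h
  let N := 3 * M
  have hmon : ∀ d ∈ elimT N, monomial d (1 : k₀) ∈ Ideal.span (Set.range fun j => map φ₀ (S j)) := by
    intro d hd
    rw [mem_elimT, Finsupp.degree_eq_sum, Fin.sum_univ_three] at hd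
    have h1 : ∃ i, M ≤ d i := by
      by_contra hcon
      push Not at hcon
      have h2 := hcon 0
      have h3 := hcon 1
      have h4 := hcon 2
      omega
    obtain ⟨i, hi⟩ := h1
    have h2 : monomial d (1 : k₀) = monomial (d - Finsupp.single i M) 1 * X i ^ M := by
      rw [X_pow_eq_monomial, monomial_mul, one_mul]
      congr 1
      rw [tsub_add_cancel_of_le]
      rwa [Finsupp.single_le_iff]
    rw [h2]
    exact Ideal.mul_mem_left _ _ (hM i)
  obtain ⟨c, hc, hdet⟩ := elim_det (fun j => map φ₀ (S j)) e (fun j => (hS j).map φ₀) N hmon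
  let B : Matrix (elimT N) (elimT N) R := Matrix.of fun i j =>
    coeff (j : Fin 3 →₀ ℕ) (monomial (c i).2 (1 : R) * S (c i).1)
  have hB : ∀ (k : Type) [Field k] (φ : R →+* k), φ.mapMatrix B = Matrix.of fun i j : elimT N =>
      coeff (j : Fin 3 →₀ ℕ) (monomial (c i).2 (1 : k) * map φ (S (c i).1)) := by
    intro k _ φ
    ext i j
    rw [RingHom.mapMatrix_apply, Matrix.map_apply, Matrix.of_apply]
    change φ (coeff (j : Fin 3 →₀ ℕ) (monomial (c i).2 (1 : R) * S (c i).1)) = _
    rw [← coeff_map, map_mul, map_monomial, map_one]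
  refine ⟨B.det, ?_, ?_⟩
  · rw [RingHom.map_det, hB]
    exact hdet
  · intro k _ φ hφ v hv
    by_contra hcon
    push Not at hcon
    rw [RingHom.map_det, hB] at hφ
    apply hv
    have h1 : (fun j : elimT N => ∏ i, v i ^ ((j : Fin 3 →₀ ℕ) i)) = 0 := by
      apply Matrix.eq_zero_of_mulVec_eq_zero hφ
      funext i
      have hom : (monomial (c i).2 (1 : k) * map φ (S (c i).1)).IsHomogeneous N := by
        rw [← hc i]
        exact (isHomogeneous_monomial (1 : k) rfl).mul ((hS _).map φ)
      have h2 := elim_eval N _ hom v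
      rw [map_mul, hcon, mul_zero] at h2
      exact h2.symm
    funext i
    have hmem : Finsupp.single i N ∈ elimT N := by
      rw [mem_elimT, Finsupp.degree_single]
    have h3 := congrFun h1 ⟨Finsupp.single i N, hmem⟩
    have h4 : v i ^ N = 0 := by
      have h5 : ∏ t, v t ^ ((Finsupp.single i N : Fin 3 →₀ ℕ) t) = v i ^ N := by
        rw [Finset.prod_eq_single i]
        · rw [Finsupp.single_eq_same]
        · intro t _ ht
          rw [Finsupp.single_eq_of_ne ht, pow_zero]
        · intro hi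
          exact absurd (Finset.mem_univ i) hi
      rw [← h5]
      exact h3
    by_contra h6
    exact pow_ne_zero N h6 h4

end SzPl
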