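import Pool.Agent.SzPl.Basic
import Pool.Agent.SzPl.Elim

/-!
Smoothness and absence of bad singular points are open conditions.
-/

open MvPolynomial

namespace SzPl

theorem smooth_open {R : Type} [CommRing R] (d : ℕ) (G : MvPolynomial (Fin 3) R)
    (hG : G.IsHomogeneous d) (k₀ : Type) [Field k₀] [IsAlgClosed k₀] (φ₀ : R →+* k₀)
    (h : ∀ v : Fin 3 → k₀, ¬ IsSing (map φ₀ G) v) :
    ∃ J : R, φ₀ J ≠ 0 ∧ ∀ (k : Type) [Field k] (φ : R →+* k), φ J ≠ 0 →
      ∀ v : Fin 3 → k, ¬ IsSing (map φ G) v := by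
  obtain ⟨J, hJ, hJ'⟩ := elim (ι := Option (Fin 3))
    (fun o => Option.elim o G (fun i => pderiv i G)) (fun o => Option.elim o d (fun _ => d - 1))
    (by
      rintro (_ | i)
      · exact hG
      · exact hG.pderiv) k₀ φ₀ (by
      intro v hv
      by_contra hb
      push Not at hb
      apply h v
      refine ⟨hv, hb none, fun i => ?_⟩
      rw [pderiv_map]
      exact hb (some i))
  refine ⟨J, hJ, fun k _ φ hφ v hv => ?_⟩
  obtain ⟨o, ho⟩ := hJ' k φ hφ v hv.1
  rcases o with _ | i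
  · exact ho hv.2.1
  · apply ho
    have := hv.2.2 i
    rw [pderiv_map] at this
    exact this

/-- A two by two minor of the Hessian matrix. -/
noncomputable def hmin {R : Type} [CommRing R] (G : MvPolynomial (Fin 3) R)
    (q : Fin 3 × Fin 3 × Fin 3 × Fin 3) : MvPolynomial (Fin 3) R :=
  pderiv q.1 (pderiv q.2.1 G) * pderiv q.2.2.1 (pderiv q.2.2.2 G) -
    pderiv q.1 (pderiv q.2.2.2 G) * pderiv q.2.2.1 (pderiv q.2.1 G)

theorem hmin_hom {R : Type} [CommRing R] {d : ℕ} {G : MvPolynomial (Fin 3) R}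
    (hG : G.IsHomogeneous d) (q : Fin 3 × Fin 3 × Fin 3 × Fin 3) :
    (hmin G q).IsHomogeneous ((d - 1 - 1) + (d - 1 - 1)) :=
  (hG.pderiv.pderiv.mul hG.pderiv.pderiv).sub (hG.pderiv.pderiv.mul hG.pderiv.pderiv)

theorem eval_hmin {R k : Type} [CommRing R] [Field k] (G : MvPolynomial (Fin 3) R) (φ : R →+* k)
    (q : Fin 3 × Fin 3 × Fin 3 × Fin 3) (v : Fin 3 → k) :
    eval v (map φ (hmin G q)) =
      eval v (pderiv q.1 (pderiv q.2.1 (map φ G))) *
          eval v (pderiv q.2.2.1 (pderiv q.2.2.2 (map φ G))) -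
        eval v (pderiv q.1 (pderiv q.2.2.2 (map φ G))) *
          eval v (pderiv q.2.2.1 (pderiv q.2.1 (map φ G))) := by
  unfold hmin
  simp only [map_sub, map_mul, pderiv_map]

theorem node_open {R : Type} [CommRing R] (d : ℕ) (G : MvPolynomial (Fin 3) R)
    (hG : G.IsHomogeneous d) (k₀ : Type) [Field k₀] [IsAlgClosed k₀] (φ₀ : R →+* k₀)
    (h : ∀ v : Fin 3 → k₀, IsSing (map φ₀ G) v → IsNode (map φ₀ G) v) :
    ∃ J : R, φ₀ J ≠ 0 ∧ ∀ (k : Type) [Field k] (φ : R →+* k), φ J ≠ 0 →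
      ∀ v : Fin 3 → k, IsSing (map φ G) v → IsNode (map φ G) v := by
  obtain ⟨J, hJ, hJ'⟩ := elim (ι := Option (Fin 3) ⊕ (Fin 3 × Fin 3 × Fin 3 × Fin 3))
    (Sum.elim (fun o => Option.elim o G (fun i => pderiv i G)) (hmin G))
    (Sum.elim (fun o => Option.elim o d (fun _ => d - 1)) (fun _ => (d - 1 - 1) + (d - 1 - 1)))
    (by
      rintro ((_ | i) | q)
      · exact hG
      · exact hG.pderiv
      · exact hmin_hom hG q) k₀ φ₀ (by
      intro v hv
      by_contra hb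
      push Not at hb
      obtain ⟨i, j, i', j', hn⟩ := h v ⟨hv, hb (Sum.inl none), fun i => by
        rw [pderiv_map]
        exact hb (Sum.inl (some i))⟩
      apply hn
      have h1 := hb (Sum.inr (i, j, i', j'))
      have h2 := eval_hmin G φ₀ (i, j, i', j') v
      rw [Sum.elim_inr] at h1
      rw [h1] at h2
      exact (sub_eq_zero.1 h2.symm))
  refine ⟨J, hJ, fun k _ φ hφ v hv => ?_⟩
  obtain ⟨o, ho⟩ := hJ' k φ hφ v hv.1
  rcases o with (_ | i) | q
  · exact absurd hv.2.1 ho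
  · exfalso
    apply ho
    have := hv.2.2 i
    rw [pderiv_map] at this
    exact this
  · refine ⟨q.1, q.2.1, q.2.2.1, q.2.2.2, fun hc => ho ?_⟩
    unfold hess at hc
    rw [Sum.elim_inr, eval_hmin, hc, sub_self]

end SzPl
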