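import Pool.Agent.SzPl.Phi
import Pool.Agent.SzPl.ElimC

/-!
The discriminant of plane curves: it vanishes exactly at the singular curves, in all
characteristics.  Proof of `exists_disc`.
-/

open MvPolynomial

namespace SzPl

private theorem gen_homog (d : ℕ) : (gen d).IsHomogeneous d := by
  unfold gen
  refine IsHomogeneous.sum _ _ _ (fun s _ => ?_)
  have hs : (s.1.1 : ℕ) + (s.1.2 : ℕ) ≤ d := s.2
  have h := (((isHomogeneous_C (Fin 3) (X s : MvPolynomial (Mon d) ℤ)).mul
    ((isHomogeneous_X (MvPolynomial (Mon d) ℤ) (0 : Fin 3)).pow (e0 s))).mul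
    ((isHomogeneous_X (MvPolynomial (Mon d) ℤ) (1 : Fin 3)).pow (e1 s))).mul
    ((isHomogeneous_X (MvPolynomial (Mon d) ℤ) (2 : Fin 3)).pow (d - e0 s - e1 s))
  convert h using 1
  unfold e0 e1
  omega

private theorem eval_map_comp {R S σ : Type*} [CommRing R] [CommRing S] (f : R →+* S) (w : σ → R)
    (F : MvPolynomial σ R) : eval (fun i => f (w i)) (map f F) = f (eval w F) := by
  have h : (eval (fun i => f (w i))).comp (map f) = f.comp (eval w) := by
    apply MvPolynomial.ringHom_ext
    · intro r; simp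
    · intro i; simp
  exact congrArg (fun g => g F) h

theorem exists_disc_proof (d : ℕ) (hd : 2 ≤ d) : ∃ P : MvPolynomial (Mon d) ℤ,
    (∀ (k : Type) [Field k] [IsAlgClosed k] (ψ : MvPolynomial (Mon d) ℤ →+* k), ψ P = 0 →
      ∃ v : Fin 3 → k, IsSing (map ψ (gen d)) v) ∧
    ∀ (k : Type) [Field k] (ψ : MvPolynomial (Mon d) ℤ →+* k) (v : Fin 3 → k), v 2 ≠ 0 →
      IsSing (map ψ (gen d)) v → ψ P = 0 := by
  obtain ⟨P, hP⟩ := phi_ker d hd
  have hP0 : phi d P = 0 := by
    have : P ∈ RingHom.ker (phi d) := by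
      rw [hP]; exact Ideal.mem_span_singleton_self P
    exact this
  refine ⟨P, ?_, ?_⟩
  · intro k _ _ ψ hψ
    by_contra hno
    push Not at hno
    obtain ⟨J, hJ, hJs⟩ := smooth_open d (gen d) (gen_homog d) k ψ hno
    have hJ0 : phi d J = 0 := by
      by_contra hne
      set ι := algebraMap (BRing d) (FractionRing (BRing d)) with hι
      have hinj : Function.Injective ι := IsFractionRing.injective _ _
      obtain ⟨hs1, hs2⟩ := phi_sing d hd
      refine hJs (FractionRing (BRing d)) (ι.comp (phi d)) ?_ (fun i => ι (![X 0, X 1, 1] i)) ?_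
      · rw [RingHom.comp_apply]
        intro h0
        exact hne (hinj (by rw [h0, map_zero]))
      · have hmap : map (ι.comp (phi d)) (gen d) = map ι (map (phi d) (gen d)) := by
          rw [MvPolynomial.map_map]
        rw [hmap]
        refine ⟨?_, ?_, fun i => ?_⟩
        · intro h0
          have h2 := congrFun h0 2
          simp at h2
        · rw [eval_map_comp, hs1, map_zero]
        · rw [MvPolynomial.pderiv_map, eval_map_comp, hs2 i, map_zero]
    have hmem : J ∈ Ideal.span {P} := by
      rw [← hP]; exact hJ0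
    rw [Ideal.mem_span_singleton] at hmem
    obtain ⟨Q, rfl⟩ := hmem
    rw [map_mul, hψ, zero_mul] at hJ
    exact hJ rfl
  · intro k _ ψ v hv hs
    exact phi_univ d hd ψ v hv hs P hP0

end SzPl
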