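import Pool.Agent.SzPl.DscA

/-!
The prime divisor of nodal curves in a family of plane curves.
-/

open MvPolynomial

namespace SzPl

namespace DscB

theorem pderiv_ren {k : Type*} [Field k] (σ : Equiv.Perm (Fin 3)) (F : MvPolynomial (Fin 3) k)
    (i : Fin 3) : pderiv i (rename σ F) = rename σ (pderiv (σ.symm i) F) := by
  rw [← pderiv_rename σ.injective, Equiv.apply_symm_apply]

theorem sing_ren {k : Type*} [Field k] (σ : Equiv.Perm (Fin 3)) (F : MvPolynomial (Fin 3) k)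
    (w : Fin 3 → k) : IsSing (rename σ F) w ↔ IsSing F (w ∘ σ) := by
  unfold IsSing
  simp only [pderiv_ren, eval_rename]
  refine and_congr ?_ (and_congr Iff.rfl ?_)
  · refine not_congr ⟨?_, ?_⟩
    · rintro rfl
      rfl
    · intro h
      ext i
      have := congrFun h (σ.symm i)
      simpa using this
  · constructor
    · intro h i
      have := h (σ i)
      simpa using this
    · intro h i
      exact h _

theorem node_ren {k : Type*} [Field k] (σ : Equiv.Perm (Fin 3)) (F : MvPolynomial (Fin 3) k)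
    (w : Fin 3 → k) : IsNode (rename σ F) w ↔ IsNode F (w ∘ σ) := by
  unfold IsNode hess
  simp only [pderiv_ren, eval_rename]
  constructor
  · rintro ⟨i, j, i', j', h⟩
    exact ⟨_, _, _, _, h⟩
  · rintro ⟨i, j, i', j', h⟩
    refine ⟨σ i, σ j, σ i', σ j', ?_⟩
    simpa using h

theorem nodal_ren {k : Type*} [Field k] (σ : Equiv.Perm (Fin 3)) (F : MvPolynomial (Fin 3) k) :
    IsNodal (rename σ F) ↔ IsNodal F := by
  unfold IsNodal
  simp only [sing_ren, node_ren]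
  constructor
  · rintro ⟨⟨v, hv⟩, h⟩
    refine ⟨⟨_, hv⟩, fun w hw => ?_⟩
    have h1 : (w ∘ σ.symm) ∘ σ = w := by
      ext i
      simp
    have := h (w ∘ σ.symm)
    rw [h1] at this
    exact this hw
  · rintro ⟨⟨v, hv⟩, h⟩
    refine ⟨⟨v ∘ σ.symm, ?_⟩, fun w hw => h _ hw⟩
    have h1 : (v ∘ σ.symm) ∘ σ = v := by
      ext i
      simp
    rw [h1]
    exact hv

theorem core (r d : ℕ) (hd : 2 ≤ d)
    (G : MvPolynomial (Fin 3) (MvPolynomial (Fin r) ℤ)) (hG : G.IsHomogeneous d)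
    (t₀ t₁ : Fin r → ℂ) (h1 : ∀ v : Fin 3 → ℂ, ¬ IsSing (member G t₁) v)
    (h0 : IsNodal (member G t₀)) (hv : ∃ v : Fin 3 → ℂ, v 2 ≠ 0 ∧ IsSing (member G t₀) v) :
    ∃ P J : MvPolynomial (Fin r) ℤ, Irreducible P ∧ 0 < P.totalDegree ∧ ¬ P ∣ J ∧
      ∀ (k : Type) [Field k] [IsAlgClosed k] (ψ : MvPolynomial (Fin r) ℤ →+* k), ψ P = 0 →
        ψ J ≠ 0 → IsNodal (map ψ G) := by
  obtain ⟨P, hP1, hP2⟩ := exists_disc_proof d hd
  obtain ⟨α, hα⟩ := exists_spec d G hG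
  have hmap : ∀ {k : Type} [Field k] (ψ : MvPolynomial (Fin r) ℤ →+* k),
      map ψ G = map (ψ.comp α) (gen d) := by
    intro k _ ψ
    rw [← hα, map_map]
  set ψ₀ : MvPolynomial (Fin r) ℤ →+* ℂ := eval₂Hom (Int.castRingHom ℂ) t₀ with hψ₀
  set ψ₁ : MvPolynomial (Fin r) ℤ →+* ℂ := eval₂Hom (Int.castRingHom ℂ) t₁ with hψ₁
  have hm0 : member G t₀ = map ψ₀ G := rfl
  have hm1 : member G t₁ = map ψ₁ G := rfl
  have hPt1 : ψ₁ (α P) ≠ 0 := by
    intro h
    obtain ⟨v, hv⟩ := hP1 ℂ (ψ₁.comp α) h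
    rw [← hmap] at hv
    exact h1 v hv
  have hPt0 : ψ₀ (α P) = 0 := by
    obtain ⟨v, hv2, hv⟩ := hv
    rw [hm0, hmap] at hv
    exact hP2 ℂ (ψ₀.comp α) v hv2 hv
  have hP0 : α P ≠ 0 := by
    intro h
    rw [h, map_zero] at hPt1
    exact hPt1 rfl
  obtain ⟨f, hf, u, hu⟩ := WfDvdMonoid.exists_factors (α P) hP0
  have hfz : ψ₀ f.prod = 0 := by
    have h2 : ψ₀ f.prod * ψ₀ u = 0 := by
      rw [← map_mul, hu, hPt0]
    rcases mul_eq_zero.1 h2 with h | h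
    · exact h
    · exact absurd h (u.isUnit.map ψ₀).ne_zero
  rw [map_multiset_prod, Multiset.prod_eq_zero_iff, Multiset.mem_map] at hfz
  obtain ⟨P1, hP1f, hP10⟩ := hfz
  have hirr : Irreducible P1 := hf P1 hP1f
  have hdvd : P1 ∣ α P := by
    refine (Multiset.dvd_prod hP1f).trans ?_
    exact ⟨u, hu.symm⟩
  obtain ⟨J, hJ0, hJ⟩ := node_open d G hG ℂ ψ₀ (fun v hv => h0.2 v hv)
  refine ⟨P1, J, hirr, ?_, ?_, ?_⟩
  · rw [Nat.pos_iff_ne_zero]
    intro h
    rw [totalDegree_eq_zero_iff_eq_C] at h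
    have h2 : ψ₀ (C (coeff 0 P1)) = ((coeff 0 P1 : ℤ) : ℂ) := by
      simp [hψ₀]
    have h4 : ψ₀ (C (coeff 0 P1)) = 0 := by
      rw [← h]
      exact hP10
    rw [h4] at h2
    have h3 : coeff 0 P1 = 0 := by
      exact_mod_cast h2.symm
    rw [h3, C_0] at h
    exact hirr.ne_zero h
  · rintro ⟨Q, hQ⟩
    apply hJ0
    rw [hQ, map_mul, hP10, zero_mul]
  · intro k _ _ ψ hψ hψJ
    refine ⟨?_, hJ k ψ hψJ⟩
    obtain ⟨Q, hQ⟩ := hdvd
    have h2 : ψ (α P) = 0 := by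
      rw [hQ, map_mul, hψ, zero_mul]
    obtain ⟨v, hv⟩ := hP1 k (ψ.comp α) h2
    rw [← hmap] at hv
    exact ⟨v, hv⟩

/-- the prime divisor of nodal curves through a nodal member of a family -/
theorem exists_divisor_proof (r d : ℕ) (hd : 2 ≤ d)
    (G : MvPolynomial (Fin 3) (MvPolynomial (Fin r) ℤ)) (hG : G.IsHomogeneous d)
    (t₀ t₁ : Fin r → ℂ) (h1 : ∀ v : Fin 3 → ℂ, ¬ IsSing (member G t₁) v)
    (h0 : IsNodal (member G t₀)) :
    ∃ P J : MvPolynomial (Fin r) ℤ, Irreducible P ∧ 0 < P.totalDegree ∧ ¬ P ∣ J ∧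
      ∀ (k : Type) [Field k] [IsAlgClosed k] (ψ : MvPolynomial (Fin r) ℤ →+* k), ψ P = 0 →
        ψ J ≠ 0 → IsNodal (map ψ G) := by
  obtain ⟨v, hv⟩ := h0.1
  obtain ⟨i, hi⟩ : ∃ i, v i ≠ 0 := by
    by_contra h
    push Not at h
    exact hv.1 (funext h)
  set σ : Equiv.Perm (Fin 3) := Equiv.swap i 2 with hσ
  have hren : ∀ {k : Type} [Field k] (ψ : MvPolynomial (Fin r) ℤ →+* k),
      map ψ (rename σ G) = rename σ (map ψ G) := by
    intro k _ ψ
    rw [map_rename]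
  have hmem : ∀ t : Fin r → ℂ, member (rename σ G) t = rename σ (member G t) := by
    intro t
    exact hren _
  obtain ⟨P, J, hP, hP0, hPJ, h⟩ := core r d hd (rename σ G) (hG.rename_isHomogeneous) t₀ t₁ (by
      intro w hw
      rw [hmem, sing_ren] at hw
      exact h1 _ hw) (by
      rw [hmem, nodal_ren]
      exact h0) (by
      refine ⟨v ∘ σ.symm, ?_, ?_⟩
      · simpa [hσ] using hi
      · rw [hmem, sing_ren]
        have h2 : (v ∘ σ.symm) ∘ σ = v := by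
          ext j
          simp
        rw [h2]
        exact hv)
  refine ⟨P, J, hP, hP0, hPJ, ?_⟩
  intro k _ _ ψ h2 h3
  have h4 := h k ψ h2 h3
  rw [hren, nodal_ren] at h4
  exact h4

end DscB

end SzPl
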