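import Pool.Agent.SzPl.Main

/-!
The family of all plane curves of degree `d`.
-/

open MvPolynomial
open scoped Classical

namespace SzPl

/-- The plane curve with the coefficients `t_s`, `s` a monomial of degree `d` in three
variables. -/
noncomputable def gform {R : Type*} [CommRing R] (d : ℕ) (t : Mon d → R) :
    MvPolynomial (Fin 3) R :=
  ∑ s : Mon d, C (t s) * X 0 ^ e0 s * X 1 ^ e1 s * X 2 ^ (d - e0 s - e1 s)

/-- the integral points of the box -/
noncomputable def box (d T : ℕ) : Finset (Mon d → ℤ) :=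
  Fintype.piFinset fun _ => Finset.Icc (-(T : ℤ)) T

namespace Full

/-- the monomial -/
noncomputable def mm (R : Type*) [CommRing R] {d : ℕ} (s : Mon d) : MvPolynomial (Fin 3) R :=
  X 0 ^ e0 s * X 1 ^ e1 s * X 2 ^ (d - e0 s - e1 s)

theorem gform_single {R : Type*} [CommRing R] (d : ℕ) (s : Mon d) :
    gform d (Pi.single s (1 : R)) = mm R s := by
  unfold gform mm
  rw [Finset.sum_eq_single s]
  · simp
  · intro b _ hb
    rw [Pi.single_eq_of_ne hb]
    simp
  · intro h
    exact absurd (Finset.mem_univ _) h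

theorem gform_add {R : Type*} [CommRing R] (d : ℕ) (t t' : Mon d → R) :
    gform d (t + t') = gform d t + gform d t' := by
  unfold gform
  rw [← Finset.sum_add_distrib]
  apply Finset.sum_congr rfl
  intro s _
  rw [Pi.add_apply, C_add]
  ring

theorem fermat (d : ℕ) (hd : 4 ≤ d) : ∃ t : Mon d → ℂ, ∀ v : Fin 3 → ℂ, ¬ IsSing (gform d t) v := by
  refine ⟨Pi.single (PhiA.mk d 0 (by omega)) 1 + Pi.single (PhiA.mk 0 d (by omega)) 1 +
    Pi.single (PhiA.mk 0 0 (by omega)) 1, fun v hv => ?_⟩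
  rw [gform_add, gform_add, gform_single, gform_single, gform_single] at hv
  obtain ⟨h0, h1, h2⟩ := hv
  apply h0
  have hd0 : (d : ℂ) ≠ 0 := by
    have : d ≠ 0 := by omega
    exact_mod_cast this
  funext i
  have h3 := h2 i
  have h4 : d - 1 ≠ 0 := by omega
  unfold mm at h3
  fin_cases i <;> simp [PhiA.e0_mk, PhiA.e1_mk, hd0, h4, pderiv_X, Pi.single_apply] at h3 ⊢ <;>
    exact h3

theorem nodal (d : ℕ) (hd : 4 ≤ d) : ∃ t : Mon d → ℂ, IsNodal (gform d t) := by
  refine ⟨Pi.single (PhiA.mk d 0 (by omega)) 1 + Pi.single (PhiA.mk 0 d (by omega)) 1 +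
    Pi.single (PhiA.mk 1 1 (by omega)) 1, ?_⟩
  rw [gform_add, gform_add, gform_single, gform_single, gform_single]
  have hd0 : (d : ℂ) ≠ 0 := by
    have : d ≠ 0 := by omega
    exact_mod_cast this
  have h4 : d - 1 ≠ 0 := by omega
  have h5 : d - 1 - 1 ≠ 0 := by omega
  have h6 : d ≠ 0 := by omega
  have h7 : d - 1 - 1 - 1 ≠ 0 := by omega
  unfold mm
  refine ⟨⟨![0, 0, 1], ?_, ?_, ?_⟩, ?_⟩
  · intro h
    simpa using congrFun h 2
  · simp [PhiA.e0_mk, PhiA.e1_mk, h6]
  · intro i
    fin_cases i <;> simp [PhiA.e0_mk, PhiA.e1_mk, hd0, h4, pderiv_X]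
  · rintro v ⟨h0, h1, h2⟩
    have a0 := h2 0
    have a1 := h2 1
    have a2 := h2 2
    simp [PhiA.e0_mk, PhiA.e1_mk, hd0, h4, pderiv_X] at a0 a1 a2
    have hv01 : v 0 = 0 ∧ v 1 = 0 := by
      rcases a2 with (h | h) | h | h
      · rw [h, mul_zero, add_zero] at a1
        exact ⟨h, pow_eq_zero_iff h4 |>.1 ((mul_eq_zero.1 a1).resolve_left hd0)⟩
      · rw [h, mul_zero, add_zero] at a0
        exact ⟨pow_eq_zero_iff h4 |>.1 ((mul_eq_zero.1 a0).resolve_left hd0), h⟩
      · exact absurd h h5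
      · rw [h.1, zero_pow h5, zero_mul, add_zero] at a0 a1
        exact ⟨pow_eq_zero_iff h4 |>.1 ((mul_eq_zero.1 a0).resolve_left hd0),
          pow_eq_zero_iff h4 |>.1 ((mul_eq_zero.1 a1).resolve_left hd0)⟩
    have hv2 : v 2 ≠ 0 := by
      intro h
      apply h0
      funext i
      fin_cases i
      · exact hv01.1
      · exact hv01.2
      · exact h
    refine ⟨0, 0, 1, 1, ?_⟩
    simp [hess, PhiA.e0_mk, PhiA.e1_mk, h4, h5, pderiv_X, hv01.1, hv01.2, hv2]

end Full

theorem full_family (d : ℕ) (hd : 4 ≤ d) (κ : ℝ) (hκ : ((2 * d - 2 : ℕ) : ℝ) < κ) :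
    ∃ C A η : ℝ, 0 < η ∧ ∀ T : ℕ, 1 ≤ T →
      (((box d T).filter (fun t => ¬ Szpiro d (gform d t) κ C)).card : ℝ) ≤
        A * (T : ℝ) ^ ((Fintype.card (Mon d) : ℝ) - η) := by
  set r : ℕ := Fintype.card (Mon d) with hr
  obtain ⟨e⟩ : Nonempty (Mon d ≃ Fin r) := ⟨Fintype.equivFin _⟩
  set G : MvPolynomial (Fin 3) (MvPolynomial (Fin r) ℤ) :=
    gform d (fun s => X (e s)) with hG
  have hmem : ∀ (S : Type) [CommRing S] (t : Fin r → S),
      member G t = gform d (fun s => t (e s)) := by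
    intro S _ t
    rw [hG]
    unfold member gform
    rw [map_sum]
    refine Finset.sum_congr rfl fun s _ => ?_
    simp only [map_mul, map_C, map_X, map_pow, coe_eval₂Hom, eval₂_X]
  have hhom : G.IsHomogeneous d := by
    rw [hG]
    unfold gform
    apply IsHomogeneous.sum
    intro s _
    have h := (((isHomogeneous_C (Fin 3) (X (e s) : MvPolynomial (Fin r) ℤ)).mul
      ((isHomogeneous_X (MvPolynomial (Fin r) ℤ) (0 : Fin 3)).pow (e0 s))).mul
      ((isHomogeneous_X (MvPolynomial (Fin r) ℤ) (1 : Fin 3)).pow (e1 s))).mul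
      ((isHomogeneous_X (MvPolynomial (Fin r) ℤ) (2 : Fin 3)).pow (d - e0 s - e1 s))
    convert h using 1
    have := PhiA.e_le s
    omega
  have hcoef : ∀ m, G.coeff m = ∑ s : Mon d, if PhiA.ex s = m then X (e s) else 0 := by
    intro m
    rw [hG]
    unfold gform
    simp only [PhiA.term_eq]
    rw [coeff_sum]
    simp only [coeff_monomial]
  have hw : ∀ m, (G.coeff m).totalDegree ≤ 1 := by
    intro m
    rw [hcoef]
    refine (totalDegree_finsetSum _ _).trans (Finset.sup_le fun s _ => ?_)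
    split_ifs
    · rw [totalDegree_X]
    · rw [totalDegree_zero]
      exact Nat.zero_le _
  have hc : G.coeff (Finsupp.single 1 d) ≠ 0 := by
    rw [hcoef, Finset.sum_eq_single (PhiA.mk (d := d) 0 d (by omega))]
    · rw [if_pos]
      · exact X_ne_zero _
      · simp [PhiA.ex]
    · intro t _ ht
      rw [if_neg]
      intro h
      apply ht
      apply PhiA.mon_ext
      · rw [← PhiA.ex_zero t, h, PhiA.e0_mk]
        simp
      · rw [← PhiA.ex_one t, h, PhiA.e1_mk]
        simp
    · intro h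
      exact absurd (Finset.mem_univ _) h
  obtain ⟨u0, hu0⟩ := Full.nodal d hd
  obtain ⟨u1, hu1⟩ := Full.fermat d hd
  obtain ⟨C0, A, η, hη, hA⟩ := family r d 1 hd G hhom hw hc (fun i => u0 (e.symm i))
    (fun i => u1 (e.symm i)) (by rw [hmem]; simpa using hu1) (by rw [hmem]; simpa using hu0) κ
    (by simpa using hκ)
  refine ⟨C0, A, η, hη, fun T hT => le_trans ?_ (hA T hT)⟩
  refine Nat.cast_le.2 (Finset.card_le_card_of_injOn (fun t => fun i => t (e.symm i)) ?_ ?_)
  · intro t ht
    rw [Finset.mem_coe, Finset.mem_filter] at ht ⊢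
    refine ⟨?_, ?_⟩
    · have h1 := ht.1
      unfold box at h1
      unfold SzFM.cube
      rw [Fintype.mem_piFinset] at h1 ⊢
      exact fun i => h1 _
    · have h2 : member G (fun i => t (e.symm i)) = gform d t := by
        rw [hmem]
        simp
      rw [h2]
      exact ht.2
  · intro t _ t' _ h
    funext s
    have := congrFun h (e s)
    simpa using this

end SzPl
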