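import Pool.Agent.SzPl.Defs
import Pool.Agent.SzPl.Dsc
import Pool.Agent.SzFM.Fib

/-!
Almost all members have many primes of nodal reduction.
-/

open MvPolynomial
open scoped Classical

namespace SzPl

private theorem map_member {r : ℕ} (k : Type) [Field k]
    (G : MvPolynomial (Fin 3) (MvPolynomial (Fin r) ℤ)) (t : Fin r → ℤ) :
    map (Int.castRingHom k) (member G t) = map ((Int.castRingHom k).comp (eval t)) G := by
  unfold member
  rw [map_map]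
  congr 2

theorem many_nodal (r d : ℕ) (hd : 2 ≤ d)
    (G : MvPolynomial (Fin 3) (MvPolynomial (Fin r) ℤ)) (hG : G.IsHomogeneous d)
    (t₀ t₁ : Fin r → ℂ) (h1 : ∀ v : Fin 3 → ℂ, ¬ IsSing (member G t₁) v)
    (h0 : IsNodal (member G t₀)) (ε : ℝ) (hε : 0 < ε) (hε1 : ε ≤ 1) :
    ∃ A η : ℝ, 0 < η ∧ ∀ T : ℕ, 1 ≤ T →
      (((SzFM.cube r T).filter (fun t => ¬ ∃ S : Finset ℕ, (∀ p ∈ S, NodalAt (member G t) p) ∧
        (T : ℝ) ^ (1 - ε) ≤ (∏ p ∈ S, p : ℕ))).card : ℝ) ≤ A * (T : ℝ) ^ ((r : ℝ) - η) := by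
  obtain ⟨P, J, hP, hdeg, hPJ, hnod⟩ := exists_divisor r d hd G hG t₀ t₁ h1 h0
  obtain ⟨A, η, hη, hA⟩ := SzFM.fib_gen r P J hP hdeg hPJ 1 one_ne_zero ε hε hε1
  refine ⟨A, η, hη, fun T hT => le_trans ?_ (hA T hT)⟩
  refine Nat.cast_le.2 (Finset.card_le_card fun t ht => ?_)
  rw [Finset.mem_filter] at ht ⊢
  refine ⟨ht.1, ?_⟩
  by_contra hcon
  push Not at hcon
  obtain ⟨hker, hJ⟩ := hcon
  apply ht.2
  refine ⟨(eval t P).natAbs.primeFactors.filter (fun p => ¬ (p : ℤ) ∣ 1 * eval t J), ?_, ?_⟩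
  · intro p hp
    rw [Finset.mem_filter] at hp
    have hpp : p.Prime := Nat.prime_of_mem_primeFactors hp.1
    have hpP : (p : ℤ) ∣ eval t P := Int.natCast_dvd.2 (Nat.dvd_of_mem_primeFactors hp.1)
    have hpJ : ¬ (p : ℤ) ∣ eval t J := by
      have := hp.2
      rwa [one_mul] at this
    refine ⟨hpp, ?_⟩
    have : Fact p.Prime := ⟨hpp⟩
    rw [map_member]
    have hz : ∀ x : ℤ, (x : AlgebraicClosure (ZMod p)) = 0 ↔ (p : ℤ) ∣ x := fun x =>
      CharP.intCast_eq_zero_iff (AlgebraicClosure (ZMod p)) p x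
    refine hnod (AlgebraicClosure (ZMod p)) _ ?_ ?_
    · change ((eval t P : ℤ) : AlgebraicClosure (ZMod p)) = 0
      exact (hz _).2 hpP
    · change ((eval t J : ℤ) : AlgebraicClosure (ZMod p)) ≠ 0
      exact fun h => hpJ ((hz _).1 h)
  · exact hker

end SzPl
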