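import Pool.Agent.SzPl.Pt
import Pool.Agent.SzPl.Num

/-!
Almost all plane curves of a family have a small point.
-/

open MvPolynomial
open scoped Classical

namespace SzPl

/-- the members with a non-smooth or degenerate fibre are rare -/
theorem member_map {r : ℕ} {k : Type*} [Field k]
    (G : MvPolynomial (Fin 3) (MvPolynomial (Fin r) ℤ)) (t : Fin r → ℤ) :
    map (Int.castRingHom k) (member G t) = map ((Int.castRingHom k).comp (eval t)) G := by
  unfold member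
  rw [map_map]
  congr 2

theorem coeff_member {r : ℕ} (G : MvPolynomial (Fin 3) (MvPolynomial (Fin r) ℤ))
    (t : Fin r → ℤ) (s : Fin 3 →₀ ℕ) : (member G t).coeff s = eval t (G.coeff s) := by
  unfold member
  rw [coeff_map]
  rfl

theorem family (r d w : ℕ) (hd : 4 ≤ d) (G : MvPolynomial (Fin 3) (MvPolynomial (Fin r) ℤ))
    (hG : G.IsHomogeneous d) (hw : ∀ s, (G.coeff s).totalDegree ≤ w)
    (hc : G.coeff (Finsupp.single 1 d) ≠ 0) (t₀ t₁ : Fin r → ℂ)
    (h1 : ∀ v : Fin 3 → ℂ, ¬ IsSing (member G t₁) v) (h0 : IsNodal (member G t₀)) (κ : ℝ)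
    (hκ : ((2 * d - 2 : ℕ) : ℝ) * w < κ) :
    ∃ C A η : ℝ, 0 < η ∧ ∀ T : ℕ, 1 ≤ T →
      (((SzFM.cube r T).filter (fun t => ¬ Szpiro d (member G t) κ C)).card : ℝ) ≤
        A * (T : ℝ) ^ ((r : ℝ) - η) := by
  -- smoothness
  obtain ⟨J, hJ1, hJ2⟩ := smooth_open d G hG ℂ (eval₂Hom (Int.castRingHom ℂ) t₁) h1
  have hJ0 : J ≠ 0 := by
    rintro rfl
    exact hJ1 (map_zero _)
  obtain ⟨A1, hA1, hZ⟩ := SzFM.cube_zero r (J * G.coeff (Finsupp.single 1 d)) (mul_ne_zero hJ0 hc)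
  -- growth
  have hgr : ∃ K : ℕ, 1 ≤ K ∧ ∀ T : ℕ, 1 ≤ T → ∀ t ∈ SzFM.cube r T, ∀ s,
      |(member G t).coeff s| ≤ ((K * T ^ w : ℕ) : ℤ) := by
    choose Ks hKs using fun s : Fin 3 →₀ ℕ => SzFM.cube_growth r w (G.coeff s) (hw s)
    refine ⟨1 + ∑ s ∈ G.support, Ks s, by omega, fun T hT t ht s => ?_⟩
    rw [coeff_member]
    by_cases hs : s ∈ G.support
    · refine (hKs s T hT t ht).trans ?_
      have h2 : Ks s ≤ 1 + ∑ s ∈ G.support, Ks s :=
        (Finset.single_le_sum (fun _ _ => Nat.zero_le _) hs).trans (Nat.le_add_left _ _)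
      exact_mod_cast Nat.mul_le_mul_right _ h2
    · rw [notMem_support_iff.1 hs, map_zero, abs_zero]
      positivity
  obtain ⟨K, hK1, hK⟩ := hgr
  obtain ⟨C0, hC0⟩ := small_point d hd
  -- the exponent
  have hw0 : (0 : ℝ) ≤ ((2 * d - 2 : ℕ) : ℝ) * w := by positivity
  have hκ0 : 0 < κ := lt_of_le_of_lt hw0 hκ
  set ε : ℝ := 1 - ((2 * d - 2 : ℕ) : ℝ) * w / κ with hε
  have hε0 : 0 < ε := by
    have : ((2 * d - 2 : ℕ) : ℝ) * w / κ < 1 := by
      rw [div_lt_one hκ0]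
      exact hκ
    linarith
  have hε1 : ε ≤ 1 := by
    have : 0 ≤ ((2 * d - 2 : ℕ) : ℝ) * w / κ := div_nonneg hw0 hκ0.le
    linarith
  obtain ⟨A, η, hη, hA⟩ := many_nodal r d (by omega) G hG t₀ t₁ h1 h0 ε hε0 hε1
  refine ⟨((2 * d - 2 : ℕ) : ℝ) * Real.log K + C0, |A| + A1, min η 1, lt_min hη one_pos,
    fun T hT => ?_⟩
  have hT1 : (1 : ℝ) ≤ T := by exact_mod_cast hT
  have hsub : ((SzFM.cube r T).filter (fun t => ¬ Szpiro d (member G t) κ
        (((2 * d - 2 : ℕ) : ℝ) * Real.log K + C0))) ⊆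
      ((SzFM.cube r T).filter (fun t => ¬ ∃ S : Finset ℕ, (∀ p ∈ S, NodalAt (member G t) p) ∧
        (T : ℝ) ^ (1 - ε) ≤ (∏ p ∈ S, p : ℕ))) ∪
      ((SzFM.cube r T).filter (fun t => eval t (J * G.coeff (Finsupp.single 1 d)) = 0)) := by
    intro t ht
    rw [Finset.mem_filter] at ht
    rw [Finset.mem_union, Finset.mem_filter, Finset.mem_filter]
    by_contra hcon
    push Not at hcon
    obtain ⟨hc1, hc2⟩ := hcon
    obtain ⟨S, hS1, hS2⟩ := hc1 ht.1
    have hc3 := hc2 ht.1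
    rw [map_mul] at hc3
    have hJt : eval t J ≠ 0 := left_ne_zero_of_mul hc3
    have hct : eval t (G.coeff (Finsupp.single 1 d)) ≠ 0 := right_ne_zero_of_mul hc3
    apply ht.2
    have hsm : ∀ v : Fin 3 → ℂ, ¬ IsSing (map (Int.castRingHom ℂ) (member G t)) v := by
      rw [member_map]
      apply hJ2
      rw [RingHom.comp_apply]
      simpa using hJt
    refine ⟨hsm, S, hS1, ?_⟩
    have hhom : (member G t).IsHomogeneous d := hG.map _
    have h3 := hC0 (member G t) hhom (by rw [coeff_member]; exact hct) hsm (K * T ^ w)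
      (Nat.one_le_iff_ne_zero.2 (by positivity)) (hK T hT t ht.1)
    obtain ⟨K', i1, i2, b, y0, g1, g2, g3⟩ := h3
    refine ⟨K', i1, i2, b, y0, g1, g2, fun e Gr l he hG => (g3 e Gr l he hG).trans ?_⟩
    rw [EReal.coe_le_coe_iff]
    have hlog : (1 - ε) * Real.log T ≤ Real.log (∏ p ∈ S, p : ℕ) := by
      rw [← Real.log_rpow (by linarith)]
      exact Real.log_le_log (by positivity) hS2
    have h4 : κ * ((1 - ε) * Real.log T) = ((2 * d - 2 : ℕ) : ℝ) * w * Real.log T := by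
      rw [hε]
      field_simp
      ring
    have h5 := mul_le_mul_of_nonneg_left hlog hκ0.le
    have h6 : Real.log ((K * T ^ w : ℕ) : ℝ) = Real.log K + w * Real.log T := by
      push_cast
      rw [Real.log_mul (by positivity) (by positivity), Real.log_pow]
    rw [h6]
    nlinarith
  have hη1 : (T : ℝ) ^ ((r : ℝ) - η) ≤ (T : ℝ) ^ ((r : ℝ) - min η 1) :=
    Real.rpow_le_rpow_of_exponent_le hT1 (by linarith [min_le_left η 1])
  have hη2 : (T : ℝ) ^ ((r : ℝ) - 1) ≤ (T : ℝ) ^ ((r : ℝ) - min η 1) :=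
    Real.rpow_le_rpow_of_exponent_le hT1 (by linarith [min_le_right η 1])
  have hp0 : (0 : ℝ) ≤ (T : ℝ) ^ ((r : ℝ) - η) := by positivity
  refine (Nat.cast_le.2 (Finset.card_le_card hsub)).trans ?_
  refine (Nat.cast_le.2 (Finset.card_union_le _ _)).trans ?_
  rw [Nat.cast_add]
  refine (add_le_add (hA T hT) (hZ T hT)).trans ?_
  rw [add_mul]
  apply add_le_add
  · exact (mul_le_mul_of_nonneg_right (le_abs_self A) hp0).trans
      (mul_le_mul_of_nonneg_left hη1 (abs_nonneg A))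
  · exact mul_le_mul_of_nonneg_left hη2 hA1

end SzPl
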