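import Pool.Agent.SzPl.Ex

/-!
Almost all plane curves of a family have a small point, with an explicit constant.
-/

open MvPolynomial
open scoped Classical

namespace SzPl

theorem num_aux (d : ℕ) (hd : 4 ≤ d) :
    Real.log (((2 * d - 1).factorial * d * (d * (d + 1)) ^ (2 * d - 2) : ℕ) : ℝ) +
      (((((2 * d - 1) * d : ℕ) : ℝ) + 1) * Real.log ((((2 * d - 1) * d : ℕ) : ℝ) + 1) +
        2 * Chebyshev.psi d + 4 * Real.log 2) ≤ 8 * (d : ℝ) ^ 2 * Real.log d := by
  have hd4 : (4 : ℝ) ≤ d := by exact_mod_cast hd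
  have hl2 : 0 < Real.log 2 := Real.log_pos (by norm_num)
  have hld : 2 * Real.log 2 ≤ Real.log d := by
    rw [← Real.log_rpow (by norm_num)]
    apply Real.log_le_log (by positivity)
    refine le_trans ?_ hd4
    norm_num
  set l : ℝ := Real.log d with hl
  have hl0 : 0 < l := by linarith
  -- psi
  have hpsi : Chebyshev.psi d ≤ d * l := by
    refine (Chebyshev.psi_le_primeCounting_mul_log d).trans ?_
    refine mul_le_mul_of_nonneg_right ?_ hl0.le
    have : Nat.primeCounting d ≤ d := by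
      rw [Nat.primeCounting, Nat.primeCounting', Nat.count_succ]
      have h1 := Nat.count_le (p := Nat.Prime) (n := d)
      split_ifs with h2
      · have h3 : Nat.count Nat.Prime d < d := by
          have h4 : Nat.count Nat.Prime d ≤ Nat.count (fun n => n ≠ 0) d :=
            Nat.count_mono_left fun n _ hn => hn.ne_zero
          have h5 : Nat.count (fun n => n ≠ 0) d < d := by
            obtain ⟨k, rfl⟩ : ∃ k, d = k + 1 := ⟨d - 1, by omega⟩
            rw [Nat.count_succ']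
            have := Nat.count_le (p := fun n => n + 1 ≠ 0) (n := k)
            simp
          omega
        omega
      · omega
    exact_mod_cast this
  -- factorial
  have hfac : Real.log (((2 * d - 1).factorial : ℕ) : ℝ) ≤ (2 * d - 1) * (l + Real.log 2) := by
    have h1 : ((2 * d - 1).factorial : ℝ) ≤ ((2 * d : ℕ) : ℝ) ^ (2 * d - 1) := by
      have := Nat.factorial_le_pow (2 * d - 1)
      have h2 : (2 * d - 1) ^ (2 * d - 1) ≤ (2 * d) ^ (2 * d - 1) :=
        Nat.pow_le_pow_left (by omega) _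
      exact_mod_cast this.trans h2
    refine (Real.log_le_log (by positivity) h1).trans ?_
    rw [Real.log_pow]
    push_cast
    rw [Real.log_mul (by norm_num) (by positivity)]
    have h3 : ((2 * d - 1 : ℕ) : ℝ) = 2 * d - 1 := by
      rw [Nat.cast_sub (by omega)]
      push_cast
      ring
    rw [h3]
    exact le_of_eq (by ring)
  have hdd : Real.log ((d : ℝ) * (d + 1)) ≤ 2 * l + Real.log 2 / 2 := by
    have h1 : (d : ℝ) * (d + 1) ≤ (5 / 4) * d ^ 2 := by nlinarith
    refine (Real.log_le_log (by positivity) h1).trans ?_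
    rw [Real.log_mul (by norm_num) (by positivity), Real.log_pow]
    have h2 : Real.log (5 / 4) ≤ Real.log 2 / 2 := by
      have h3 : 2 * Real.log (5 / 4) ≤ Real.log 2 := by
        rw [← Real.log_rpow (by norm_num)]
        apply Real.log_le_log (by positivity)
        norm_num
      linarith
    push_cast
    linarith
  have hN : ((((2 * d - 1) * d : ℕ) : ℝ) + 1) ≤ 2 * (d : ℝ) ^ 2 := by
    rw [Nat.cast_mul, Nat.cast_sub (by omega)]
    push_cast
    nlinarith
  have hN0 : (1 : ℝ) ≤ ((((2 * d - 1) * d : ℕ) : ℝ) + 1) := by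
    have : (0 : ℝ) ≤ (((2 * d - 1) * d : ℕ) : ℝ) := by positivity
    linarith
  have hNN : ((((2 * d - 1) * d : ℕ) : ℝ) + 1) * Real.log ((((2 * d - 1) * d : ℕ) : ℝ) + 1) ≤
      2 * (d : ℝ) ^ 2 * (Real.log 2 + 2 * l) := by
    refine mul_le_mul hN ?_ (Real.log_nonneg hN0) (by positivity)
    refine (Real.log_le_log (by linarith) hN).trans ?_
    rw [Real.log_mul (by norm_num) (by positivity), Real.log_pow]
    push_cast
    exact le_rfl
  have hK : Real.log (((2 * d - 1).factorial * d * (d * (d + 1)) ^ (2 * d - 2) : ℕ) : ℝ) =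
      Real.log (((2 * d - 1).factorial : ℕ) : ℝ) + l +
        (2 * d - 2) * Real.log ((d : ℝ) * (d + 1)) := by
    have h1 : (((2 * d - 1).factorial : ℕ) : ℝ) ≠ 0 := by
      exact_mod_cast (Nat.factorial_pos _).ne'
    have h2 : ((2 * d - 2 : ℕ) : ℝ) = 2 * d - 2 := by
      rw [Nat.cast_sub (by omega)]
      push_cast
      ring
    rw [Nat.cast_mul, Nat.cast_mul, Nat.cast_pow, Real.log_mul (by positivity) (by positivity),
      Real.log_mul h1 (by positivity), Real.log_pow, h2]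
    push_cast
    rfl
  rw [hK]
  have h5 : (2 * (d : ℝ) - 2) * Real.log ((d : ℝ) * (d + 1)) ≤
      (2 * (d : ℝ) - 2) * (2 * l + Real.log 2 / 2) :=
    mul_le_mul_of_nonneg_left hdd (by linarith)
  set t : ℝ := Real.log 2 with ht
  have h6 : t ≤ l / 2 := by linarith
  have hd2 : 4 * (d : ℝ) ≤ (d : ℝ) ^ 2 := by nlinarith
  have h7 : (2 * (d : ℝ) ^ 2) * (t + 2 * l) ≤ (2 * (d : ℝ) ^ 2) * (5 / 2 * l) :=
    mul_le_mul_of_nonneg_left (by linarith) (by positivity)
  have h8 : (2 * (d : ℝ) - 2) * (2 * l + t / 2) ≤ (2 * (d : ℝ) - 2) * (9 / 4 * l) :=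
    mul_le_mul_of_nonneg_left (by linarith) (by linarith)
  have h9 : (2 * (d : ℝ) - 1) * (l + t) ≤ (2 * (d : ℝ) - 1) * (3 / 2 * l) :=
    mul_le_mul_of_nonneg_left (by linarith) (by linarith)
  have h10 : (d : ℝ) * l * 4 ≤ (d : ℝ) ^ 2 * l := by nlinarith
  have h11 : l * 16 ≤ (d : ℝ) ^ 2 * l := by nlinarith
  nlinarith

/-- A smooth plane curve with coefficients of absolute value at most `H` has a point of height at
most `(2 d - 2) log H + 8 d ^ 2 log d`. -/
theorem small_expl (d : ℕ) (hd : 4 ≤ d) (G : MvPolynomial (Fin 3) ℤ) (hG : G.IsHomogeneous d)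
    (hc : G.coeff (Finsupp.single 1 d) ≠ 0) (hsm : Smooth G) (H : ℕ) (hH1 : 1 ≤ H)
    (hH : ∀ s, |G.coeff s| ≤ H) :
    SzAF.SmallPoint (dehom G) ((2 * d - 2 : ℕ) * Real.log H + 8 * (d : ℝ) ^ 2 * Real.log d) := by
  obtain ⟨hfd, hfl⟩ := dehom_natDegree d G hG hc
  obtain ⟨hN, hT⟩ := DBd.det_bound (dehom G) d hfd (by omega)
      ((d + 1) * H) (by positivity) (DBd.dehom_coeff_bd d G hG H hH)
  have hirr : SzAF.Irred (dehom G) := by
    unfold SzAF.Irred
    rw [← dehom_map (Int.castRingHom ℂ) G]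
    refine irreducible_dehom d (by omega) _ (hG.map _) ?_ hsm
    rw [MvPolynomial.coeff_map]
    simpa using hc
  have hD0 : (dehom G).discr ≠ 0 := by
    have hdeg : ((dehom G).map (Polynomial.mapRingHom (Int.castRingHom ℂ))).natDegree = d := by
      rw [← hfd]
      exact Polynomial.natDegree_map_eq_of_injective
        (Polynomial.map_injective _ (RingHom.injective_int _)) (dehom G)
    have h2 := discr_ne_zero_of_irreducible _ (by rw [hdeg]; omega) hirr
    rw [SzBF.discr_map_of_ne (Polynomial.mapRingHom (Int.castRingHom ℂ)) (f := dehom G) (by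
      rw [hfl]
      simpa using hc)] at h2
    intro h0
    apply h2
    rw [h0, map_zero]
  have hfp : 1 ≤ (2 * d - 1).factorial := Nat.factorial_pos _
  have hd0 : d ≠ 0 := by omega
  set K0 : ℕ := (2 * d - 1).factorial * d * (d * (d + 1)) ^ (2 * d - 2) with hK0
  have hK0' : K0 ≠ 0 := by
    rw [hK0]
    positivity
  have h3 := SzAF.small_point d ((2 * d - 1) * d) (by omega) (dehom G) hfd _ hc hfl hirr
    (dehom G).discr hD0 hN
    ⟨1, one_ne_zero, 1, by simp⟩ (K0 * H ^ (2 * d - 2)) (Nat.one_le_iff_ne_zero.2 (by positivity))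
    (fun i => by
      have h4 := (DBd.coeff_le _ i).trans (hT 0 0 le_rfl)
      rw [Nat.cast_zero, Polynomial.taylor_zero] at h4
      refine h4.trans (le_of_eq ?_)
      rw [hK0]
      have h5 : ((d : ℤ) * ((d + 1) * H)) = ((d : ℤ) * (d + 1)) * H := by ring
      push_cast
      rw [one_pow, one_mul, one_mul, h5, mul_pow]
      ring)
  refine SzAF.smallPoint_mono h3 ?_
  have h5 : Real.log ((K0 * H ^ (2 * d - 2) : ℕ) : ℝ) =
      Real.log K0 + ((2 * d - 2 : ℕ) : ℝ) * Real.log H := by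
    have hK1 : (K0 : ℝ) ≠ 0 := by exact_mod_cast hK0'
    have hH2 : (H : ℝ) ≠ 0 := by
      have : H ≠ 0 := by omega
      exact_mod_cast this
    push_cast
    rw [Real.log_mul hK1 (by positivity), Real.log_pow]
  rw [h5]
  have h6 := num_aux d hd
  rw [← hK0] at h6
  linarith

/-- Almost all members of a family of plane curves. -/
theorem family_expl (r d w L : ℕ) (hd : 4 ≤ d)
    (G : MvPolynomial (Fin 3) (MvPolynomial (Fin r) ℤ))
    (hG : G.IsHomogeneous d) (hw : ∀ s, (G.coeff s).totalDegree ≤ w)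
    (hL : ∀ s, SzAF.len (G.coeff s) ≤ L)
    (hc : G.coeff (Finsupp.single 1 d) ≠ 0) (t₀ t₁ : Fin r → ℂ)
    (h1 : ∀ v : Fin 3 → ℂ, ¬ IsSing (member G t₁) v) (h0 : IsNodal (member G t₀)) (κ : ℝ)
    (hκ : ((2 * d - 2 : ℕ) : ℝ) * w < κ) :
    ∃ A η : ℝ, 0 < η ∧ ∀ T : ℕ, 1 ≤ T →
      (((SzFM.cube r T).filter (fun t => ¬ SzpiroPt (member G t) κ
        (((2 * d - 2 : ℕ) : ℝ) * Real.log L + 8 * (d : ℝ) ^ 2 * Real.log d))).card : ℝ) ≤
        A * (T : ℝ) ^ ((r : ℝ) - η) := by
  -- smoothness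
  obtain ⟨J, hJ1, hJ2⟩ := smooth_open d G hG ℂ (eval₂Hom (Int.castRingHom ℂ) t₁) h1
  have hJ0 : J ≠ 0 := by
    rintro rfl
    exact hJ1 (map_zero _)
  obtain ⟨A1, hA1, hZ⟩ := SzFM.cube_zero r (J * G.coeff (Finsupp.single 1 d)) (mul_ne_zero hJ0 hc)
  -- growth
  have hL1 : 1 ≤ L := (SzAF.len_pos hc).trans (hL _)
  have hK : ∀ T : ℕ, 1 ≤ T → ∀ t ∈ SzFM.cube r T, ∀ s,
      |(member G t).coeff s| ≤ ((L * T ^ w : ℕ) : ℤ) := by
    intro T hT t ht s
    rw [coeff_member]
    refine (SzAF.growth r w (G.coeff s) (hw s) T hT t ht).trans ?_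
    exact_mod_cast Nat.mul_le_mul_right _ (hL s)
  -- the exponent
  have hw0 : (0 : ℝ) ≤ ((2 * d - 2 : ℕ) : ℝ) * w := by positivity
  have hκ0 : 0 < κ := lt_of_le_of_lt hw0 hκ
  set ε : ℝ := 1 - ((2 * d - 2 : ℕ) : ℝ) * w / κ with hε
  have hε0 : 0 < ε := by
    have : ((2 * d - 2 : ℕ) : ℝ) * w / κ < 1 := by
      rw [div_lt_one hκ0]
      exact hκ
    linarith
  have hε1 : ε ≤ 1 := by
    have : 0 ≤ ((2 * d - 2 : ℕ) : ℝ) * w / κ := div_nonneg hw0 hκ0.le
    linarith
  obtain ⟨A, η, hη, hA⟩ := many_nodal r d (by omega) G hG t₀ t₁ h1 h0 ε hε0 hε1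
  refine ⟨|A| + A1, min η 1, lt_min hη one_pos, fun T hT => ?_⟩
  have hT1 : (1 : ℝ) ≤ T := by exact_mod_cast hT
  have hsub : ((SzFM.cube r T).filter (fun t => ¬ SzpiroPt (member G t) κ
        (((2 * d - 2 : ℕ) : ℝ) * Real.log L + 8 * (d : ℝ) ^ 2 * Real.log d))) ⊆
      ((SzFM.cube r T).filter (fun t => ¬ ∃ S : Finset ℕ, (∀ p ∈ S, NodalAt (member G t) p) ∧
        (T : ℝ) ^ (1 - ε) ≤ (∏ p ∈ S, p : ℕ))) ∪
      ((SzFM.cube r T).filter (fun t => eval t (J * G.coeff (Finsupp.single 1 d)) = 0)) := by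
    intro t ht
    rw [Finset.mem_filter] at ht
    rw [Finset.mem_union, Finset.mem_filter, Finset.mem_filter]
    by_contra hcon
    push Not at hcon
    obtain ⟨hc1, hc2⟩ := hcon
    obtain ⟨S, hS1, hS2⟩ := hc1 ht.1
    have hc3 := hc2 ht.1
    rw [map_mul] at hc3
    have hJt : eval t J ≠ 0 := left_ne_zero_of_mul hc3
    have hct : eval t (G.coeff (Finsupp.single 1 d)) ≠ 0 := right_ne_zero_of_mul hc3
    apply ht.2
    have hsm : ∀ v : Fin 3 → ℂ, ¬ IsSing (map (Int.castRingHom ℂ) (member G t)) v := by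
      rw [member_map]
      apply hJ2
      rw [RingHom.comp_apply]
      simpa using hJt
    refine ⟨hsm, S, hS1, ?_⟩
    have hhom : (member G t).IsHomogeneous d := hG.map _
    have h3 := small_expl d hd (member G t) hhom (by rw [coeff_member]; exact hct) hsm (L * T ^ w)
      (Nat.one_le_iff_ne_zero.2 (by positivity)) (hK T hT t ht.1)
    refine SzAF.smallPoint_mono h3 ?_
    have hlog : (1 - ε) * Real.log T ≤ Real.log (∏ p ∈ S, p : ℕ) := by
      rw [← Real.log_rpow (by linarith)]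
      exact Real.log_le_log (by positivity) hS2
    have h4 : κ * ((1 - ε) * Real.log T) = ((2 * d - 2 : ℕ) : ℝ) * w * Real.log T := by
      rw [hε]
      field_simp
      ring
    have h5 := mul_le_mul_of_nonneg_left hlog hκ0.le
    have h6 : Real.log ((L * T ^ w : ℕ) : ℝ) = Real.log L + w * Real.log T := by
      push_cast
      rw [Real.log_mul (by positivity) (by positivity), Real.log_pow]
    rw [h6]
    nlinarith
  have hη1 : (T : ℝ) ^ ((r : ℝ) - η) ≤ (T : ℝ) ^ ((r : ℝ) - min η 1) :=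
    Real.rpow_le_rpow_of_exponent_le hT1 (by linarith [min_le_left η 1])
  have hη2 : (T : ℝ) ^ ((r : ℝ) - 1) ≤ (T : ℝ) ^ ((r : ℝ) - min η 1) :=
    Real.rpow_le_rpow_of_exponent_le hT1 (by linarith [min_le_right η 1])
  have hp0 : (0 : ℝ) ≤ (T : ℝ) ^ ((r : ℝ) - η) := by positivity
  refine (Nat.cast_le.2 (Finset.card_le_card hsub)).trans ?_
  refine (Nat.cast_le.2 (Finset.card_union_le _ _)).trans ?_
  rw [Nat.cast_add]
  refine (add_le_add (hA T hT) (hZ T hT)).trans ?_
  rw [add_mul]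
  apply add_le_add
  · exact (mul_le_mul_of_nonneg_right (le_abs_self A) hp0).trans
      (mul_le_mul_of_nonneg_left hη1 (abs_nonneg A))
  · exact mul_le_mul_of_nonneg_left hη2 hA1

/-- Almost all plane curves of degree `d`. -/
theorem full_expl (d : ℕ) (hd : 4 ≤ d) (κ : ℝ) (hκ : ((2 * d - 2 : ℕ) : ℝ) < κ) :
    ∃ A η : ℝ, 0 < η ∧ ∀ T : ℕ, 1 ≤ T →
      (((box d T).filter (fun t => ¬ SzpiroPt (gform d t) κ
        (8 * (d : ℝ) ^ 2 * Real.log d))).card : ℝ) ≤
        A * (T : ℝ) ^ ((Fintype.card (Mon d) : ℝ) - η) := by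
  set r : ℕ := Fintype.card (Mon d) with hr
  obtain ⟨e⟩ : Nonempty (Mon d ≃ Fin r) := ⟨Fintype.equivFin _⟩
  set G : MvPolynomial (Fin 3) (MvPolynomial (Fin r) ℤ) :=
    gform d (fun s => X (e s)) with hG
  have hmem : ∀ (S : Type) [CommRing S] (t : Fin r → S),
      member G t = gform d (fun s => t (e s)) := by
    intro S _ t
    rw [hG]
    unfold member gform
    rw [map_sum]
    refine Finset.sum_congr rfl fun s _ => ?_
    simp only [map_mul, map_C, map_X, map_pow, coe_eval₂Hom, eval₂_X]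
  have hhom : G.IsHomogeneous d := by
    rw [hG]
    unfold gform
    apply IsHomogeneous.sum
    intro s _
    have h := (((isHomogeneous_C (Fin 3) (X (e s) : MvPolynomial (Fin r) ℤ)).mul
      ((isHomogeneous_X (MvPolynomial (Fin r) ℤ) (0 : Fin 3)).pow (e0 s))).mul
      ((isHomogeneous_X (MvPolynomial (Fin r) ℤ) (1 : Fin 3)).pow (e1 s))).mul
      ((isHomogeneous_X (MvPolynomial (Fin r) ℤ) (2 : Fin 3)).pow (d - e0 s - e1 s))
    convert h using 1
    have := PhiA.e_le s
    omega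
  have hcoef : ∀ m, G.coeff m = ∑ s : Mon d, if PhiA.ex s = m then X (e s) else 0 := by
    intro m
    rw [hG]
    unfold gform
    simp only [PhiA.term_eq]
    rw [coeff_sum]
    simp only [coeff_monomial]
  have hex : Function.Injective (PhiA.ex (d := d)) := by
    intro s t h
    apply PhiA.mon_ext
    · rw [← PhiA.ex_zero s, h, PhiA.ex_zero]
    · rw [← PhiA.ex_one s, h, PhiA.ex_one]
  have hcase : ∀ m, G.coeff m = 0 ∨ ∃ s, G.coeff m = X (e s) := by
    intro m
    rw [hcoef]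
    by_cases hm : ∃ s : Mon d, PhiA.ex s = m
    · obtain ⟨s, hs⟩ := hm
      right
      refine ⟨s, ?_⟩
      rw [Finset.sum_eq_single s]
      · rw [if_pos hs]
      · intro b _ hb
        rw [if_neg]
        intro h
        exact hb (hex (h.trans hs.symm))
      · intro h
        exact absurd (Finset.mem_univ _) h
    · left
      refine Finset.sum_eq_zero fun s _ => ?_
      rw [if_neg]
      intro h
      exact hm ⟨s, h⟩
  have hw : ∀ m, (G.coeff m).totalDegree ≤ 1 := by
    intro m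
    rcases hcase m with h | ⟨s, h⟩
    · rw [h, totalDegree_zero]
      exact Nat.zero_le _
    · rw [h, totalDegree_X]
  have hL : ∀ m, SzAF.len (G.coeff m) ≤ 1 := by
    intro m
    rcases hcase m with h | ⟨s, h⟩
    · rw [h]
      simp [SzAF.len]
    · rw [h, SzAF.len, support_X, Finset.sum_singleton, coeff_X]
      simp
  have hc : G.coeff (Finsupp.single 1 d) ≠ 0 := by
    rw [hcoef, Finset.sum_eq_single (PhiA.mk (d := d) 0 d (by omega))]
    · rw [if_pos]
      · exact X_ne_zero _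
      · simp [PhiA.ex]
    · intro t _ ht
      rw [if_neg]
      intro h
      apply ht
      apply PhiA.mon_ext
      · rw [← PhiA.ex_zero t, h, PhiA.e0_mk]
        simp
      · rw [← PhiA.ex_one t, h, PhiA.e1_mk]
        simp
    · intro h
      exact absurd (Finset.mem_univ _) h
  obtain ⟨u0, hu0⟩ := Full.nodal d hd
  obtain ⟨u1, hu1⟩ := Full.fermat d hd
  obtain ⟨A, η, hη, hA⟩ := family_expl r d 1 1 hd G hhom hw hL hc (fun i => u0 (e.symm i))
    (fun i => u1 (e.symm i)) (by rw [hmem]; simpa using hu1) (by rw [hmem]; simpa using hu0) κ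
    (by simpa using hκ)
  refine ⟨A, η, hη, fun T hT => le_trans ?_ (hA T hT)⟩
  refine Nat.cast_le.2 (Finset.card_le_card_of_injOn (fun t => fun i => t (e.symm i)) ?_ ?_)
  · intro t ht
    rw [Finset.mem_coe, Finset.mem_filter] at ht ⊢
    refine ⟨?_, ?_⟩
    · have h1 := ht.1
      unfold box at h1
      unfold SzFM.cube
      rw [Fintype.mem_piFinset] at h1 ⊢
      exact fun i => h1 _
    · have h2 : member G (fun i => t (e.symm i)) = gform d t := by
        rw [hmem]
        simp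
      have h3 : ((2 * d - 2 : ℕ) : ℝ) * Real.log ((1 : ℕ) : ℝ) + 8 * (d : ℝ) ^ 2 * Real.log d =
          8 * (d : ℝ) ^ 2 * Real.log d := by simp
      rw [h2, h3]
      exact ht.2
  · intro t _ t' _ h
    funext s
    have := congrFun h (e s)
    simpa using this

end SzPl
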