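import Pool.Agent.SzPl.Defs

/-!
Two facts about `dehom`.
-/

open MvPolynomial

namespace SzPl

theorem dehom_eq_sum {R : Type*} [CommRing R] (G : MvPolynomial (Fin 3) R) :
    dehom G = ∑ m ∈ G.support, Polynomial.C (Polynomial.C (G.coeff m) * Polynomial.X ^ (m 0)) *
      Polynomial.X ^ (m 1) := by
  unfold dehom
  rw [coe_eval₂Hom, eval₂_eq']
  refine Finset.sum_congr rfl fun m _ => ?_
  rw [Fin.prod_univ_three]
  simp [mul_assoc]

theorem dehom_coeff {R : Type*} [CommRing R] (G : MvPolynomial (Fin 3) R) (j : ℕ) :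
    (dehom G).coeff j = ∑ m ∈ G.support,
      if m 1 = j then Polynomial.C (G.coeff m) * Polynomial.X ^ (m 0) else 0 := by
  rw [dehom_eq_sum, Polynomial.finsetSum_coeff]
  refine Finset.sum_congr rfl fun m _ => ?_
  rw [Polynomial.coeff_C_mul, Polynomial.coeff_X_pow]
  by_cases h : m 1 = j
  · simp [h]
  · rw [if_neg h, if_neg (fun e => h e.symm), mul_zero]

theorem fin3_degree (m : Fin 3 →₀ ℕ) : m.degree = m 0 + m 1 + m 2 := by
  rw [Finsupp.degree_eq_sum, Fin.sum_univ_three]

theorem dehom_natDegree_proof {R : Type*} [CommRing R] (d : ℕ) (G : MvPolynomial (Fin 3) R)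
    (hG : G.IsHomogeneous d) (hc : G.coeff (Finsupp.single 1 d) ≠ 0) :
    (dehom G).natDegree = d ∧
      (dehom G).leadingCoeff = Polynomial.C (G.coeff (Finsupp.single 1 d)) := by
  have hdeg : ∀ m ∈ G.support, m 0 + m 1 + m 2 = d := by
    intro m hm
    rw [← fin3_degree]
    by_contra hne
    exact (mem_support_iff.1 hm) (hG.coeff_eq_zero hne)
  have htop : (dehom G).coeff d = Polynomial.C (G.coeff (Finsupp.single 1 d)) := by
    rw [dehom_coeff, Finset.sum_eq_single (Finsupp.single 1 d)]
    · simp
    · intro m hm hne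
      rw [if_neg]
      intro h1
      apply hne
      have h2 := hdeg m hm
      ext i
      fin_cases i
      · simp
        omega
      · simp [h1]
      · simp
        omega
    · intro hm
      exact absurd (mem_support_iff.2 hc) hm
  have hle : (dehom G).natDegree ≤ d := by
    rw [Polynomial.natDegree_le_iff_coeff_eq_zero]
    intro j hj
    rw [dehom_coeff]
    refine Finset.sum_eq_zero fun m hm => ?_
    rw [if_neg]
    intro h1
    have h2 := hdeg m hm
    omega
  have hne : (dehom G).coeff d ≠ 0 := by
    rw [htop]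
    exact fun h => hc (Polynomial.C_eq_zero.1 h)
  have hnd : (dehom G).natDegree = d := le_antisymm hle (Polynomial.le_natDegree_of_ne_zero hne)
  refine ⟨hnd, ?_⟩
  rw [Polynomial.leadingCoeff, hnd, htop]

theorem dehom_map_proof {R S : Type*} [CommRing R] [CommRing S] (φ : R →+* S)
    (G : MvPolynomial (Fin 3) R) :
    dehom (map φ G) = (dehom G).map (Polynomial.mapRingHom φ) := by
  have h : (dehom (R := S)).comp (map φ) =
      (Polynomial.mapRingHom (Polynomial.mapRingHom φ)).comp (dehom (R := R)) := by
    refine MvPolynomial.ringHom_ext ?_ ?_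
    · intro r
      simp [dehom]
    · intro i
      fin_cases i <;> simp [dehom]
  have h2 := congrArg (fun f => f G) h
  simpa using h2

end SzPl
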