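import Pool.Agent.SzPl.PhiD

/-!
Curves with a singular point outside the line `x_2 = 0` are specialisations of the universal
singular curve.
-/

open MvPolynomial

namespace SzPl

theorem phiB_ext {d : ℕ} {s t : Mon d} (h0 : e0 s = e0 t) (h1 : e1 s = e1 t) : s = t := by
  apply Subtype.ext
  apply Prod.ext
  · exact Fin.ext h0
  · exact Fin.ext h1

theorem phiB_split {d : ℕ} {k : Type*} [Field k] (s0 : Mon d) (h0 : e0 s0 + e1 s0 < 2)
    (F : Mon d → k) (hF : ∀ s, s ≠ s0 → e0 s + e1 s < 2 → F s = 0) (hs : ∑ s, F s = 0) :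
    F s0 = - ∑ s, if 2 ≤ e0 s + e1 s then F s else 0 := by
  have h1 : ∑ s, F s = (∑ s, if s = s0 then F s0 else 0) +
      ∑ s, if 2 ≤ e0 s + e1 s then F s else 0 := by
    rw [← Finset.sum_add_distrib]
    apply Finset.sum_congr rfl
    intro s _
    by_cases hs0 : s = s0
    · subst hs0
      rw [if_pos rfl, if_neg (by omega), add_zero]
    · rw [if_neg hs0]
      by_cases h2 : 2 ≤ e0 s + e1 s
      · rw [if_pos h2, zero_add]
      · rw [if_neg h2, hF s hs0 (by omega), zero_add]
  rw [Finset.sum_ite_eq' Finset.univ s0 (fun _ => F s0), if_pos (Finset.mem_univ _), hs] at h1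
  exact eq_neg_of_add_eq_zero_left h1.symm

theorem phiB_map {d : ℕ} {k : Type*} [Field k] (ψ : MvPolynomial (Mon d) ℤ →+* k) :
    map ψ (gen d) =
      ∑ s : Mon d, C (ψ (X s)) * X 0 ^ e0 s * X 1 ^ e1 s * X 2 ^ (d - e0 s - e1 s) := by
  simp [gen, map_sum, map_mul, map_pow]

theorem phiB_A {d : ℕ} {k : Type*} [Field k] (ψ : MvPolynomial (Mon d) ℤ →+* k)
    (v : Fin 3 → k) (hv : v 2 ≠ 0) (h : eval v (map ψ (gen d)) = 0) :
    ∑ s : Mon d, ψ (X s) * (v 0 / v 2) ^ e0 s * (v 1 / v 2) ^ e1 s = 0 := by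
  rw [phiB_map] at h
  simp only [map_sum, map_mul, map_pow, eval_C, eval_X] at h
  have h2 : v 2 ^ d * ∑ s : Mon d, ψ (X s) * (v 0 / v 2) ^ e0 s * (v 1 / v 2) ^ e1 s = 0 := by
    rw [← h, Finset.mul_sum]
    apply Finset.sum_congr rfl
    intro s _
    have hs : e0 s + e1 s ≤ d := s.2
    have hd : d = e0 s + (e1 s + (d - e0 s - e1 s)) := by omega
    have h3 : v 2 ^ d = v 2 ^ e0 s * (v 2 ^ e1 s * v 2 ^ (d - e0 s - e1 s)) := by
      rw [← pow_add, ← pow_add, ← hd]
    rw [h3, div_pow, div_pow]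
    field_simp
  rcases mul_eq_zero.mp h2 with h4 | h4
  · exact absurd h4 (pow_ne_zero _ hv)
  · exact h4

theorem phiB_B {d : ℕ} (hd : 1 ≤ d) {k : Type*} [Field k] (ψ : MvPolynomial (Mon d) ℤ →+* k)
    (v : Fin 3 → k) (hv : v 2 ≠ 0) (h : eval v (pderiv 0 (map ψ (gen d))) = 0) :
    ∑ s : Mon d, ψ (X s) * (e0 s : k) * (v 0 / v 2) ^ (e0 s - 1) * (v 1 / v 2) ^ e1 s = 0 := by
  rw [phiB_map] at h
  simp only [map_sum, Derivation.leibniz, Derivation.leibniz_pow, pderiv_C, pderiv_X, map_add,
    map_mul, map_pow, eval_C, eval_X, smul_eq_mul, nsmul_eq_mul] at h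
  have h2 : v 2 ^ (d - 1) * ∑ s : Mon d,
      ψ (X s) * (e0 s : k) * (v 0 / v 2) ^ (e0 s - 1) * (v 1 / v 2) ^ e1 s = 0 := by
    rw [← h, Finset.mul_sum]
    apply Finset.sum_congr rfl
    intro s _
    have hs : e0 s + e1 s ≤ d := s.2
    rcases Nat.eq_zero_or_pos (e0 s) with h0 | h0
    · simp [h0]
    · have hd' : d - 1 = (e0 s - 1) + (e1 s + (d - e0 s - e1 s)) := by omega
      have h3 : v 2 ^ (d - 1) = v 2 ^ (e0 s - 1) * (v 2 ^ e1 s * v 2 ^ (d - e0 s - e1 s)) := by
        rw [← pow_add, ← pow_add, ← hd']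
      rw [h3, div_pow, div_pow]
      simp
      field_simp
  rcases mul_eq_zero.mp h2 with h4 | h4
  · exact absurd h4 (pow_ne_zero _ hv)
  · exact h4

theorem phiB_C {d : ℕ} (hd : 1 ≤ d) {k : Type*} [Field k] (ψ : MvPolynomial (Mon d) ℤ →+* k)
    (v : Fin 3 → k) (hv : v 2 ≠ 0) (h : eval v (pderiv 1 (map ψ (gen d))) = 0) :
    ∑ s : Mon d, ψ (X s) * (e1 s : k) * (v 0 / v 2) ^ e0 s * (v 1 / v 2) ^ (e1 s - 1) = 0 := by
  rw [phiB_map] at h
  simp only [map_sum, Derivation.leibniz, Derivation.leibniz_pow, pderiv_C, pderiv_X, map_add,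
    map_mul, map_pow, eval_C, eval_X, smul_eq_mul, nsmul_eq_mul] at h
  have h2 : v 2 ^ (d - 1) * ∑ s : Mon d,
      ψ (X s) * (e1 s : k) * (v 0 / v 2) ^ e0 s * (v 1 / v 2) ^ (e1 s - 1) = 0 := by
    rw [← h, Finset.mul_sum]
    apply Finset.sum_congr rfl
    intro s _
    have hs : e0 s + e1 s ≤ d := s.2
    rcases Nat.eq_zero_or_pos (e1 s) with h0 | h0
    · simp [h0]
    · have hd' : d - 1 = e0 s + ((e1 s - 1) + (d - e0 s - e1 s)) := by omega
      have h3 : v 2 ^ (d - 1) = v 2 ^ e0 s * (v 2 ^ (e1 s - 1) * v 2 ^ (d - e0 s - e1 s)) := by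
        rw [← pow_add, ← pow_add, ← hd']
      rw [h3, div_pow, div_pow]
      simp
      field_simp
  rcases mul_eq_zero.mp h2 with h4 | h4
  · exact absurd h4 (pow_ne_zero _ hv)
  · exact h4

/-- curves with a singular point outside the line `x_2 = 0` are specialisations -/
theorem phi_univ_proof (d : ℕ) (hd : 2 ≤ d) {k : Type*} [Field k]
    (ψ : MvPolynomial (Mon d) ℤ →+* k) (v : Fin 3 → k) (hv : v 2 ≠ 0)
    (h : IsSing (map ψ (gen d)) v) (Q : MvPolynomial (Mon d) ℤ) (hQ : phi d Q = 0) : ψ Q = 0 := by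
  obtain ⟨_, hA, hP⟩ := h
  have A := phiB_A ψ v hv hA
  have B := phiB_B (by omega) ψ v hv (hP 0)
  have Cc := phiB_C (by omega) ψ v hv (hP 1)
  set u0 : k := v 0 / v 2 with hu0
  set u1 : k := v 1 / v 2 with hu1
  let χ : BRing d →+* k := eval₂Hom ψ ![u0, u1]
  have hχC : ∀ a, χ (C a) = ψ a := fun a => eval₂Hom_C _ _ _
  have hχ0 : χ (X 0) = u0 := by simp [χ]
  have hχ1 : χ (X 1) = u1 := by simp [χ]
  have hh : ∀ (c : Mon d → ℤ) (p q : Mon d → ℕ), χ (hsum d c p q) =
      ∑ s : Mon d, if 2 ≤ e0 s + e1 s then ψ (X s) * (c s : k) * u0 ^ p s * u1 ^ q s else 0 := by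
    intro c p q
    rw [hsum, map_sum]
    apply Finset.sum_congr rfl
    intro s _
    split_ifs
    · rw [map_mul, map_mul, map_mul, map_pow, map_pow, hχC, hχC, hχ0, hχ1]
      congr 3
      have : (MvPolynomial.C (c s) : MvPolynomial (Mon d) ℤ) = ((c s : ℤ) : MvPolynomial (Mon d) ℤ) :=
        by simp
      rw [this, map_intCast]
    · exact map_zero χ
  have key : χ.comp (phi d) = ψ := by
    apply MvPolynomial.ringHom_ext
    · intro r
      have : (MvPolynomial.C r : MvPolynomial (Mon d) ℤ) = ((r : ℤ) : MvPolynomial (Mon d) ℤ) := by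
        simp
      rw [this, map_intCast, map_intCast]
    · intro s
      have e : (χ.comp (phi d)) (X s) = χ (img d s) := by
        rw [RingHom.comp_apply, phi, eval₂Hom_X']
      rw [e, img]
      split_ifs with h2 h10 h01
      · exact hχC _
      · rw [map_neg, hh]
        have h11 : e1 s = 0 := by omega
        have := phiB_split s (by omega)
          (fun s => ψ (X s) * (e0 s : k) * u0 ^ (e0 s - 1) * u1 ^ e1 s) (by
            intro t ht ht2
            have : e0 t = 0 := by
              by_contra hne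
              apply ht
              apply phiB_ext <;> omega
            simp [this]) B
        simp only [h10, h11] at this
        simp only [Int.cast_natCast]
        rw [← this]
        simp
      · rw [map_neg, hh]
        have h00 : e0 s = 0 := by omega
        have := phiB_split s (by omega)
          (fun s => ψ (X s) * (e1 s : k) * u0 ^ e0 s * u1 ^ (e1 s - 1)) (by
            intro t ht ht2
            have : e1 t = 0 := by
              by_contra hne
              apply ht
              apply phiB_ext <;> omega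
            simp [this]) Cc
        simp only [h01, h00] at this
        simp only [Int.cast_natCast]
        rw [← this]
        simp
      · rw [hh]
        have h00 : e0 s = 0 := by omega
        have h11 : e1 s = 0 := by omega
        have hsum0 : ∑ s : Mon d, ψ (X s) * (1 - (e0 s : k) - e1 s) * u0 ^ e0 s * u1 ^ e1 s = 0 := by
          have e1' : ∑ s : Mon d, ψ (X s) * (1 - (e0 s : k) - e1 s) * u0 ^ e0 s * u1 ^ e1 s =
              (∑ s : Mon d, ψ (X s) * u0 ^ e0 s * u1 ^ e1 s) -
              u0 * (∑ s : Mon d, ψ (X s) * (e0 s : k) * u0 ^ (e0 s - 1) * u1 ^ e1 s) -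
              u1 * (∑ s : Mon d, ψ (X s) * (e1 s : k) * u0 ^ e0 s * u1 ^ (e1 s - 1)) := by
            rw [Finset.mul_sum, Finset.mul_sum, ← Finset.sum_sub_distrib,
              ← Finset.sum_sub_distrib]
            apply Finset.sum_congr rfl
            intro t _
            have a0 : (e0 t : k) * (u0 * u0 ^ (e0 t - 1)) = (e0 t : k) * u0 ^ e0 t := by
              rcases Nat.eq_zero_or_pos (e0 t) with h | h
              · simp [h]
              · rw [← pow_succ', Nat.sub_add_cancel h]
            have a1 : (e1 t : k) * (u1 * u1 ^ (e1 t - 1)) = (e1 t : k) * u1 ^ e1 t := by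
              rcases Nat.eq_zero_or_pos (e1 t) with h | h
              · simp [h]
              · rw [← pow_succ', Nat.sub_add_cancel h]
            linear_combination (ψ (X t) * u1 ^ e1 t) * a0 + (ψ (X t) * u0 ^ e0 t) * a1
          rw [e1', A, B, Cc]
          ring
        have := phiB_split s (by omega)
          (fun s => ψ (X s) * (1 - (e0 s : k) - e1 s) * u0 ^ e0 s * u1 ^ e1 s) (by
            intro t ht ht2
            have : e0 t + e1 t = 1 := by
              by_contra hne
              apply ht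
              apply phiB_ext <;> omega
            have h' : (e0 t : k) + e1 t = 1 := by
              rw [← Nat.cast_add, this, Nat.cast_one]
            have : (1 - (e0 t : k) - e1 t) = 0 := by linear_combination -h'
            simp [this]) hsum0
        simp only [h00, h11] at this
        have e3 : ψ (X s) = - ∑ s : Mon d, if 2 ≤ e0 s + e1 s then
            ψ (X s) * (1 - (e0 s : k) - e1 s) * u0 ^ e0 s * u1 ^ e1 s else 0 := by
          rw [← this]; simp
        rw [e3, ← Finset.sum_neg_distrib]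
        apply Finset.sum_congr rfl
        intro t _
        split_ifs
        · push_cast
          ring
        · simp
  rw [← key, RingHom.comp_apply, hQ, map_zero]

end SzPl
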