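import Pool.Agent.SzPl.PhiD

/-!
The kernel of `phi` is principal.
-/

open MvPolynomial

namespace SzPl

/-- the monomials `x_2^d`, `x_0 x_2^(d-1)`, `x_1 x_2^(d-1)`, `x_0 x_1 x_2^(d-2)` -/
def phiS (d : ℕ) (i j : ℕ) (h : i + j ≤ d) : Mon d :=
  ⟨(⟨i, by omega⟩, ⟨j, by omega⟩), h⟩

theorem phiS_e0 (d i j : ℕ) (h : i + j ≤ d) : e0 (phiS d i j h) = i := rfl

theorem phiS_e1 (d i j : ℕ) (h : i + j ≤ d) : e1 (phiS d i j h) = j := rfl

theorem phiS_ext {d : ℕ} (s t : Mon d) (h0 : e0 s = e0 t) (h1 : e1 s = e1 t) : s = t :=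
  Subtype.ext (Prod.ext (Fin.ext h0) (Fin.ext h1))

/-- the map which makes the linear coefficients variables -/
noncomputable def phiT (d : ℕ) (s : Mon d) : BRing d :=
  if 2 ≤ e0 s + e1 s then C (X s) else if e0 s = 1 then X 0 else X 1

theorem phiT_inj (d : ℕ) (hd : 2 ≤ d) (s0 : Mon d) (hs0 : s0 = phiS d 0 0 (by omega)) :
    Function.Injective (eval₂Hom (Int.castRingHom (BRing d))
      (fun s : {s : Mon d // s ≠ s0} => phiT d s.1)) := by
  have h1 : ((eval₂Hom (RingHom.id (MvPolynomial (Mon d) ℤ))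
      ![X (phiS d 1 0 (by omega)), X (phiS d 0 1 (by omega))]).comp
      (eval₂Hom (Int.castRingHom (BRing d))
      (fun s : {s : Mon d // s ≠ s0} => phiT d s.1))) =
      ((rename Subtype.val : MvPolynomial {s : Mon d // s ≠ s0} ℤ →ₐ[ℤ] _) :
        MvPolynomial {s : Mon d // s ≠ s0} ℤ →+* MvPolynomial (Mon d) ℤ) := by
    apply ringHom_ext
    · intro r
      simp
    · rintro ⟨s, hs⟩
      simp only [RingHom.comp_apply, eval₂Hom_X', RingHom.coe_coe, rename_X]
      unfold phiT
      split_ifs with h2 h3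
      · simp
      · rw [eval₂Hom_X']
        simp only [Matrix.cons_val_zero]
        congr 1
        exact phiS_ext _ _ (by rw [phiS_e0, h3]) (by rw [phiS_e1]; omega)
      · have h4 : e0 s = 0 := by omega
        have h5 : e1 s ≠ 0 := by
          intro h5
          apply hs
          rw [hs0]
          exact phiS_ext _ _ (by rw [phiS_e0, h4]) (by rw [phiS_e1, h5])
        rw [eval₂Hom_X']
        have h6 : s = phiS d 0 1 (by omega) :=
          phiS_ext _ _ (by rw [phiS_e0, h4]) (by rw [phiS_e1]; omega)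
        rw [h6]
        rfl
  have h2 := rename_injective (R := ℤ) (Subtype.val : {s : Mon d // s ≠ s0} → Mon d)
    Subtype.val_injective
  intro a b hab
  apply h2
  have h3 := congrArg (fun F => F a) h1
  have h4 := congrArg (fun F => F b) h1
  simp only [RingHom.comp_apply, RingHom.coe_coe] at h3 h4
  rw [← h3, ← h4, hab]

/-- the specialisation to `h = u v` -/
noncomputable def phiSp (d : ℕ) (s1 : Mon d) : BRing d →+* MvPolynomial (Fin 2) ℤ :=
  map (eval₂Hom (Int.castRingHom ℤ) (fun s : Mon d => if s = s1 then 1 else 0))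

theorem phiSp_hsum (d : ℕ) (s1 : Mon d) (h1 : 2 ≤ e0 s1 + e1 s1) (c : Mon d → ℤ)
    (p q : Mon d → ℕ) : phiSp d s1 (hsum d c p q) = C (c s1) * X 0 ^ p s1 * X 1 ^ q s1 := by
  unfold hsum
  rw [map_sum, Finset.sum_eq_single s1]
  · rw [if_pos h1]
    simp [phiSp]
  · intro s _ hs
    split_ifs with h2
    · simp [phiSp, hs]
    · simp
  · intro h
    exact absurd (Finset.mem_univ _) h

theorem phi_jac (d : ℕ) (hd : 2 ≤ d) :
    pderiv 0 (img d (phiS d 1 0 (by omega))) * pderiv 1 (img d (phiS d 0 1 (by omega))) -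
    pderiv 1 (img d (phiS d 1 0 (by omega))) * pderiv 0 (img d (phiS d 0 1 (by omega))) ≠ 0 := by
  intro h
  have h1 := congrArg (phiSp d (phiS d 1 1 (by omega))) h
  have e10 : phiSp d (phiS d 1 1 (by omega)) (img d (phiS d 1 0 (by omega))) = - X 1 := by
    unfold img
    rw [if_neg (by rw [phiS_e0, phiS_e1]; omega), if_pos (by rw [phiS_e0]), map_neg,
      phiSp_hsum _ _ (by rw [phiS_e0, phiS_e1])]
    simp [phiS_e0, phiS_e1]
  have e01 : phiSp d (phiS d 1 1 (by omega)) (img d (phiS d 0 1 (by omega))) = - X 0 := by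
    unfold img
    rw [if_neg (by rw [phiS_e0, phiS_e1]; omega), if_neg (by rw [phiS_e0]; omega),
      if_pos (by rw [phiS_e1]), map_neg,
      phiSp_hsum _ _ (by rw [phiS_e0, phiS_e1])]
    simp [phiS_e0, phiS_e1]
  rw [map_sub, map_mul, map_mul, map_zero] at h1
  unfold phiSp at h1 e10 e01
  rw [← pderiv_map, ← pderiv_map, ← pderiv_map, ← pderiv_map, e10, e01] at h1
  simp [pderiv_X] at h1

theorem phi_ker_proof (d : ℕ) (hd : 2 ≤ d) : ∃ P : MvPolynomial (Mon d) ℤ,
    RingHom.ker (phi d) = Ideal.span {P} := by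
  classical
  obtain ⟨s0, hs0⟩ : ∃ s0 : Mon d, s0 = phiS d 0 0 (by omega) := ⟨_, rfl⟩
  -- the embedding over the fraction field
  let K := FractionRing (MvPolynomial (Mon d) ℤ)
  let ι : BRing d →+* MvPolynomial (Fin 2) K := map (algebraMap (MvPolynomial (Mon d) ℤ) K)
  have hι : Function.Injective ι := map_injective _ (IsFractionRing.injective _ _)
  have hjac : AlgebraicIndependent K ![ι (img d (phiS d 1 0 (by omega))),
      ι (img d (phiS d 0 1 (by omega)))] := by
    apply jac
    have h1 := (map_ne_zero_iff ι hι).mpr (phi_jac d hd)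
    rw [map_sub, map_mul, map_mul] at h1
    simp only [ι, ← pderiv_map] at h1
    exact h1
  -- injectivity on the polynomials without the constant coefficient
  have hinj : ∀ a : MvPolynomial {s : Mon d // s ≠ s0} ℤ,
      phi d (rename Subtype.val a) = 0 → a = 0 := by
    intro a ha
    have h1 : (ι.comp (phi d)).comp
        ((rename Subtype.val : MvPolynomial {s : Mon d // s ≠ s0} ℤ →ₐ[ℤ] _) :
        MvPolynomial {s : Mon d // s ≠ s0} ℤ →+* MvPolynomial (Mon d) ℤ) =
        ((aeval ![ι (img d (phiS d 1 0 (by omega))), ι (img d (phiS d 0 1 (by omega)))] :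
          MvPolynomial (Fin 2) K →ₐ[K] MvPolynomial (Fin 2) K) :
          MvPolynomial (Fin 2) K →+* MvPolynomial (Fin 2) K).comp
        (ι.comp (eval₂Hom (Int.castRingHom (BRing d))
          (fun s : {s : Mon d // s ≠ s0} => phiT d s.1))) := by
      apply ringHom_ext
      · intro r
        simp
      · rintro ⟨s, hs⟩
        simp only [RingHom.comp_apply, eval₂Hom_X', RingHom.coe_coe, rename_X]
        have h0 : phi d (X s) = img d s := by
          unfold phi
          rw [eval₂Hom_X']
        rw [h0]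
        unfold phiT
        split_ifs with h2 h3
        · have h4 : img d s = C (X s) := by
            unfold img
            rw [if_pos h2]
          rw [h4]
          simp only [ι, map_C, aeval_C, algebraMap_eq]
        · have h4 : s = phiS d 1 0 (by omega) :=
            phiS_ext _ _ (by rw [phiS_e0, h3]) (by rw [phiS_e1]; omega)
          have h5 : ι (X 0) = X 0 := by simp [ι]
          rw [h5, aeval_X, h4]
          rfl
        · have h4 : e0 s = 0 := by omega
          have h5 : e1 s ≠ 0 := by
            intro h5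
            apply hs
            rw [hs0]
            exact phiS_ext _ _ (by rw [phiS_e0, h4]) (by rw [phiS_e1, h5])
          have h6 : s = phiS d 0 1 (by omega) :=
            phiS_ext _ _ (by rw [phiS_e0, h4]) (by rw [phiS_e1]; omega)
          have h7 : ι (X 1) = X 1 := by simp [ι]
          rw [h7, aeval_X, h6]
          rfl
    have h2 := congrArg (fun F => F a) h1
    simp only [RingHom.comp_apply, RingHom.coe_coe] at h2
    rw [ha, map_zero] at h2
    have h3 : ι ((eval₂Hom (Int.castRingHom (BRing d))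
        (fun s : {s : Mon d // s ≠ s0} => phiT d s.1)) a) = 0 := by
      apply hjac
      rw [← h2, map_zero]
    have h4 := (map_eq_zero_iff ι hι).mp h3
    exact (map_eq_zero_iff _ (phiT_inj d hd s0 hs0)).mp h4
  -- the isomorphism with the polynomials in the constant coefficient
  let E : MvPolynomial (Mon d) ℤ ≃+*
      Polynomial (MvPolynomial {s : Mon d // s ≠ s0} ℤ) :=
    ((renameEquiv ℤ (Equiv.optionSubtypeNe s0).symm).trans
      (optionEquivLeft ℤ {s : Mon d // s ≠ s0})).toRingEquiv
  have hE : ∀ a, E.symm (Polynomial.C a) = rename Subtype.val a := by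
    intro a
    have h1 : ((E.symm : Polynomial (MvPolynomial {s : Mon d // s ≠ s0} ℤ) →+*
        MvPolynomial (Mon d) ℤ).comp Polynomial.C) =
        ((rename Subtype.val : MvPolynomial {s : Mon d // s ≠ s0} ℤ →ₐ[ℤ] _) :
        MvPolynomial {s : Mon d // s ≠ s0} ℤ →+* MvPolynomial (Mon d) ℤ) := by
      apply ringHom_ext
      · intro r
        simp
      · intro s
        simp only [RingHom.comp_apply, RingHom.coe_coe, rename_X]
        show E.symm (Polynomial.C (X s)) = X s.1
        rw [RingEquiv.symm_apply_eq]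
        simp only [E]
        show Polynomial.C (X s) = optionEquivLeft ℤ {s : Mon d // s ≠ s0}
          (rename (Equiv.optionSubtypeNe s0).symm (X s.1))
        rw [rename_X, Equiv.optionSubtypeNe_symm_of_ne s.2, optionEquivLeft_X_some]
    exact congrArg (fun F => F a) h1
  have hpr : (RingHom.ker ((phi d).comp (E.symm :
      Polynomial (MvPolynomial {s : Mon d // s ≠ s0} ℤ) →+* MvPolynomial (Mon d) ℤ))).IsPrime :=
    RingHom.ker_isPrime _
  obtain ⟨g, hg⟩ := principal_of_lies_over_zero
    (RingHom.ker ((phi d).comp (E.symm : Polynomial (MvPolynomial {s : Mon d // s ≠ s0} ℤ) →+*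
        MvPolynomial (Mon d) ℤ))) (by
      intro a ha
      rw [RingHom.mem_ker, RingHom.comp_apply] at ha
      apply hinj
      rw [← hE]
      exact ha)
  refine ⟨E.symm g, ?_⟩
  ext x
  rw [RingHom.mem_ker, Ideal.mem_span_singleton]
  have h1 : E x ∈ RingHom.ker ((phi d).comp (E.symm :
      Polynomial (MvPolynomial {s : Mon d // s ≠ s0} ℤ) →+* MvPolynomial (Mon d) ℤ)) ↔
      phi d x = 0 := by
    rw [RingHom.mem_ker, RingHom.comp_apply]
    show phi d (E.symm (E x)) = 0 ↔ _
    rw [RingEquiv.symm_apply_apply]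
  rw [← h1, hg, Ideal.mem_span_singleton]
  constructor
  · rintro ⟨y, hy⟩
    refine ⟨E.symm y, ?_⟩
    rw [← map_mul, ← hy, RingEquiv.symm_apply_apply]
  · rintro ⟨y, hy⟩
    refine ⟨E y, ?_⟩
    rw [hy, map_mul, RingEquiv.apply_symm_apply]

end SzPl
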