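import Pool.Agent.SzPl.PhiA
import Pool.Agent.SzPl.PhiB
import Pool.Agent.SzPl.PhiC

/-!
The universal plane curve of degree `d` and the universal curve with the singular point
`(u, v, 1)`.
-/

open MvPolynomial

namespace SzPl

/-- every form of degree `d` is a specialisation of the universal one -/
theorem exists_spec {R : Type*} [CommRing R] (d : ℕ) (G : MvPolynomial (Fin 3) R)
    (hG : G.IsHomogeneous d) : ∃ α : MvPolynomial (Mon d) ℤ →+* R, map α (gen d) = G :=
  PhiA.exists_spec_proof d G hG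

theorem phi_sing (d : ℕ) (hd : 2 ≤ d) :
    eval ![X 0, X 1, 1] (map (phi d) (gen d)) = 0 ∧
      ∀ i, eval ![X 0, X 1, 1] (pderiv i (map (phi d) (gen d))) = 0 :=
  PhiA.phi_sing_proof d hd

/-- curves with a singular point outside the line `x_2 = 0` are specialisations -/
theorem phi_univ (d : ℕ) (hd : 2 ≤ d) {k : Type*} [Field k]
    (ψ : MvPolynomial (Mon d) ℤ →+* k) (v : Fin 3 → k) (hv : v 2 ≠ 0)
    (h : IsSing (map ψ (gen d)) v) (Q : MvPolynomial (Mon d) ℤ) (hQ : phi d Q = 0) : ψ Q = 0 :=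
  phi_univ_proof d hd ψ v hv h Q hQ

/-- the kernel is principal -/
theorem phi_ker (d : ℕ) (hd : 2 ≤ d) : ∃ P : MvPolynomial (Mon d) ℤ,
    RingHom.ker (phi d) = Ideal.span {P} :=
  phi_ker_proof d hd

end SzPl
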