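import Pool.Agent.SzPl.PhiD

/-!
Specialisations of the universal plane curve; the universal singular point.
-/

open MvPolynomial

namespace SzPl

namespace PhiA

theorem e_le {d : ℕ} (s : Mon d) : e0 s + e1 s ≤ d := s.2

theorem mon_ext {d : ℕ} {s t : Mon d} (h0 : e0 s = e0 t) (h1 : e1 s = e1 t) : s = t :=
  Subtype.ext (Prod.ext (Fin.ext h0) (Fin.ext h1))

/-- the element of `Mon d` with given exponents -/
def mk {d : ℕ} (i j : ℕ) (h : i + j ≤ d) : Mon d :=
  ⟨(⟨i, by omega⟩, ⟨j, by omega⟩), h⟩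

@[simp] theorem e0_mk {d : ℕ} (i j : ℕ) (h : i + j ≤ d) : e0 (mk i j h) = i := rfl
@[simp] theorem e1_mk {d : ℕ} (i j : ℕ) (h : i + j ≤ d) : e1 (mk i j h) = j := rfl

/-- the exponent vector -/
noncomputable def ex {d : ℕ} (s : Mon d) : Fin 3 →₀ ℕ :=
  Finsupp.single 0 (e0 s) + Finsupp.single 1 (e1 s) + Finsupp.single 2 (d - e0 s - e1 s)

theorem ex_zero {d : ℕ} (s : Mon d) : ex s 0 = e0 s := by
  simp [ex]

theorem ex_one {d : ℕ} (s : Mon d) : ex s 1 = e1 s := by
  simp [ex]

theorem ex_two {d : ℕ} (s : Mon d) : ex s 2 = d - e0 s - e1 s := by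
  simp [ex]

theorem term_eq {R : Type*} [CommRing R] {d : ℕ} (s : Mon d) (c : R) :
    (C c * X 0 ^ e0 s * X 1 ^ e1 s * X 2 ^ (d - e0 s - e1 s) : MvPolynomial (Fin 3) R) =
      monomial (ex s) c := by
  rw [X_pow_eq_monomial, X_pow_eq_monomial, X_pow_eq_monomial, C_mul_monomial, monomial_mul,
    monomial_mul, ex]
  simp

theorem map_gen {R : Type*} [CommRing R] {d : ℕ} (α : MvPolynomial (Mon d) ℤ →+* R) :
    map α (gen d) = ∑ s : Mon d, C (α (X s)) * X 0 ^ e0 s * X 1 ^ e1 s *
      X 2 ^ (d - e0 s - e1 s) := by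
  rw [gen, map_sum]
  refine Finset.sum_congr rfl fun s _ => ?_
  simp only [map_mul, map_C, map_X, map_pow]

/-- every form of degree `d` is a specialisation of the universal one -/
theorem exists_spec_proof {R : Type*} [CommRing R] (d : ℕ) (G : MvPolynomial (Fin 3) R)
    (hG : G.IsHomogeneous d) : ∃ α : MvPolynomial (Mon d) ℤ →+* R, map α (gen d) = G := by
  classical
  refine ⟨eval₂Hom (Int.castRingHom R) fun s => coeff (ex s) G, ?_⟩
  rw [map_gen]
  have h1 : ∀ s : Mon d, (eval₂Hom (Int.castRingHom R) fun s => coeff (ex s) G) (X s) =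
      coeff (ex s) G := fun s => by
    simp
  simp only [h1, term_eq]
  ext m
  rw [coeff_sum]
  simp only [coeff_monomial]
  by_cases hm : m 0 + m 1 + m 2 = d
  · have hs : ex (mk (d := d) (m 0) (m 1) (by omega)) = m := by
      ext i
      fin_cases i
      · have := ex_zero (mk (d := d) (m 0) (m 1) (by omega))
        rw [e0_mk] at this
        exact this
      · have := ex_one (mk (d := d) (m 0) (m 1) (by omega))
        rw [e1_mk] at this
        exact this
      · have := ex_two (mk (d := d) (m 0) (m 1) (by omega))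
        rw [e0_mk, e1_mk] at this
        show ex (mk (d := d) (m 0) (m 1) (by omega)) 2 = m 2
        omega
    rw [Finset.sum_eq_single (mk (d := d) (m 0) (m 1) (by omega))]
    · rw [if_pos hs, hs]
    · intro t _ ht
      rw [if_neg]
      intro h
      apply ht
      apply mon_ext
      · rw [← ex_zero t, h, e0_mk]
      · rw [← ex_one t, h, e1_mk]
    · intro h
      exact absurd (Finset.mem_univ _) h
  · rw [Finset.sum_eq_zero]
    · symm
      by_contra hne
      apply hm
      have := hG hne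
      rw [Finsupp.weight_apply, Finsupp.sum_fintype _ _ (by simp)] at this
      simpa [Fin.sum_univ_three] using this
    · intro t _
      rw [if_neg]
      intro h
      apply hm
      rw [← h, ex_zero, ex_one, ex_two]
      have := e_le t
      omega

theorem low_sum {R : Type*} [CommRing R] {d : ℕ} (hd : 2 ≤ d) (F : Mon d → R) :
    (∑ s : Mon d, if 2 ≤ e0 s + e1 s then 0 else F s) =
      F (mk 0 0 (by omega)) + F (mk 1 0 (by omega)) + F (mk 0 1 (by omega)) := by
  classical
  obtain ⟨m0, hm0⟩ : ∃ m : Mon d, m = mk 0 0 (by omega) := ⟨_, rfl⟩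
  obtain ⟨m1, hm1⟩ : ∃ m : Mon d, m = mk 1 0 (by omega) := ⟨_, rfl⟩
  obtain ⟨m2, hm2⟩ : ∃ m : Mon d, m = mk 0 1 (by omega) := ⟨_, rfl⟩
  have a0 : e0 m0 = 0 := by rw [hm0]; rfl
  have b0 : e1 m0 = 0 := by rw [hm0]; rfl
  have a1 : e0 m1 = 1 := by rw [hm1]; rfl
  have b1 : e1 m1 = 0 := by rw [hm1]; rfl
  have a2 : e0 m2 = 0 := by rw [hm2]; rfl
  have b2 : e1 m2 = 1 := by rw [hm2]; rfl
  rw [← hm0, ← hm1, ← hm2]
  have h : ∀ s : Mon d, (if 2 ≤ e0 s + e1 s then 0 else F s) =
      (if s = m0 then F m0 else 0) + (if s = m1 then F m1 else 0) +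
      (if s = m2 then F m2 else 0) := by
    intro s
    by_cases h2 : 2 ≤ e0 s + e1 s
    · rw [if_pos h2, if_neg, if_neg, if_neg]
      · simp
      · rintro rfl
        omega
      · rintro rfl
        omega
      · rintro rfl
        omega
    · rw [if_neg h2]
      have h3 : (e0 s = 0 ∧ e1 s = 0) ∨ (e0 s = 1 ∧ e1 s = 0) ∨ (e0 s = 0 ∧ e1 s = 1) := by
        omega
      rcases h3 with ⟨ha, hb⟩ | ⟨ha, hb⟩ | ⟨ha, hb⟩
      · have hs : s = m0 := mon_ext (by omega) (by omega)
        rw [if_pos hs, if_neg, if_neg, hs]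
        · simp
        · rintro rfl
          omega
        · rintro rfl
          omega
      · have hs : s = m1 := mon_ext (by omega) (by omega)
        rw [if_neg, if_pos hs, if_neg, hs]
        · simp
        · rintro rfl
          omega
        · rintro rfl
          omega
      · have hs : s = m2 := mon_ext (by omega) (by omega)
        rw [if_neg, if_neg, if_pos hs, hs]
        · simp
        · rintro rfl
          omega
        · rintro rfl
          omega
  simp only [h, Finset.sum_add_distrib, Finset.sum_ite_eq', Finset.mem_univ, if_true]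

theorem img_zero {d : ℕ} (hd : 2 ≤ d) : img d (mk 0 0 (by omega)) =
    hsum d (fun s => (e0 s : ℤ) + e1 s - 1) e0 e1 := by
  simp [img]

theorem img_one {d : ℕ} (hd : 2 ≤ d) : img d (mk 1 0 (by omega)) =
    - hsum d (fun s => e0 s) (fun s => e0 s - 1) e1 := by
  simp [img]

theorem img_two {d : ℕ} (hd : 2 ≤ d) : img d (mk 0 1 (by omega)) =
    - hsum d (fun s => e1 s) e0 (fun s => e1 s - 1) := by
  simp [img]

theorem CC {d : ℕ} (z : ℤ) : (C (MvPolynomial.C z) : BRing d) = (z : BRing d) := by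
  simp

/-- the weighted sum of the images -/
theorem img_sum {d : ℕ} (hd : 2 ≤ d) (W : Mon d → BRing d) :
    (∑ s : Mon d, img d s * W s) = ∑ s : Mon d, if 2 ≤ e0 s + e1 s then
      C (X s) * (W s + (((e0 s : ℤ) + e1 s - 1 : ℤ) : BRing d) * X 0 ^ e0 s * X 1 ^ e1 s *
        W (mk 0 0 (by omega)) -
        ((e0 s : ℤ) : BRing d) * X 0 ^ (e0 s - 1) * X 1 ^ e1 s * W (mk 1 0 (by omega)) -
        ((e1 s : ℤ) : BRing d) * X 0 ^ e0 s * X 1 ^ (e1 s - 1) * W (mk 0 1 (by omega))) else 0 := by
  have h1 : ∀ s : Mon d, img d s * W s =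
      (if 2 ≤ e0 s + e1 s then C (X s) * W s else 0) +
      (if 2 ≤ e0 s + e1 s then 0 else img d s * W s) := by
    intro s
    by_cases h : 2 ≤ e0 s + e1 s
    · rw [if_pos h, if_pos h, img, if_pos h, add_zero]
    · rw [if_neg h, if_neg h, zero_add]
  have h2 : ∀ (S H0 H1 H2 w0 w1 w2 : BRing d),
      S + (H0 * w0 + (-H1) * w1 + (-H2) * w2) = S + H0 * w0 - H1 * w1 - H2 * w2 := by
    intros
    ring
  rw [Finset.sum_congr rfl fun s _ => h1 s, Finset.sum_add_distrib,
    low_sum hd (fun s => img d s * W s), img_zero hd, img_one hd, img_two hd, h2, hsum, hsum,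
    hsum, Finset.sum_mul, Finset.sum_mul, Finset.sum_mul, ← Finset.sum_add_distrib,
    ← Finset.sum_sub_distrib, ← Finset.sum_sub_distrib]
  refine Finset.sum_congr rfl fun s _ => ?_
  by_cases h : 2 ≤ e0 s + e1 s
  · simp only [if_pos h, CC]
    ring
  · simp only [if_neg h]
    simp

theorem phi_sing_proof (d : ℕ) (hd : 2 ≤ d) :
    eval ![X 0, X 1, 1] (map (phi d) (gen d)) = 0 ∧
      ∀ i, eval ![X 0, X 1, 1] (pderiv i (map (phi d) (gen d))) = 0 := by
  have hphi : ∀ s : Mon d, phi d (X s) = img d s := fun s => by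
    simp [phi]
  have hz : ∀ (W : Mon d → BRing d), (∀ s : Mon d, 2 ≤ e0 s + e1 s →
      W s + (((e0 s : ℤ) + e1 s - 1 : ℤ) : BRing d) * X 0 ^ e0 s * X 1 ^ e1 s *
        W (mk 0 0 (by omega)) -
        ((e0 s : ℤ) : BRing d) * X 0 ^ (e0 s - 1) * X 1 ^ e1 s * W (mk 1 0 (by omega)) -
        ((e1 s : ℤ) : BRing d) * X 0 ^ e0 s * X 1 ^ (e1 s - 1) * W (mk 0 1 (by omega)) = 0) →
      (∑ s : Mon d, img d s * W s) = 0 := by
    intro W hW
    rw [img_sum hd]
    refine Finset.sum_eq_zero fun s _ => ?_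
    by_cases h : 2 ≤ e0 s + e1 s
    · rw [if_pos h, hW s h, mul_zero]
    · rw [if_neg h]
  have hm : ∀ (x : BRing d) (e : ℕ), (e : BRing d) * (x ^ (e - 1) * x) = (e : BRing d) * x ^ e := by
    intro x e
    rcases e with _ | e
    · simp
    · rw [Nat.add_sub_cancel, pow_succ]
  constructor
  · rw [map_gen, map_sum]
    have h1 : ∀ s : Mon d, eval ![X 0, X 1, 1] (C (phi d (X s)) * X 0 ^ e0 s * X 1 ^ e1 s *
        X 2 ^ (d - e0 s - e1 s)) = img d s * ((X 0 : BRing d) ^ e0 s * (X 1 : BRing d) ^ e1 s) := by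
      intro s
      rw [hphi]
      simp [mul_assoc]
    rw [Finset.sum_congr rfl fun s _ => h1 s]
    apply hz
    intro s hs
    have ha := hm (X 0) (e0 s)
    have hb := hm (X 1) (e1 s)
    simp only [e0_mk, e1_mk, pow_zero, pow_one, one_mul, mul_one]
    push_cast
    linear_combination (-(X 1 : BRing d) ^ e1 s) * ha - ((X 0 : BRing d) ^ e0 s) * hb
  · intro i
    rw [map_gen, map_sum, map_sum]
    have key : ∀ s : Mon d, ∀ i, eval ![X 0, X 1, 1] (pderiv i (C (phi d (X s)) * X 0 ^ e0 s *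
        X 1 ^ e1 s * X 2 ^ (d - e0 s - e1 s))) = img d s *
          ((![((e0 s : ℕ) : BRing d) * X 0 ^ (e0 s - 1) * X 1 ^ e1 s,
            ((e1 s : ℕ) : BRing d) * X 0 ^ e0 s * X 1 ^ (e1 s - 1),
            ((d - e0 s - e1 s : ℕ) : BRing d) * X 0 ^ e0 s * X 1 ^ e1 s] : Fin 3 → BRing d) i) := by
      intro s i
      rw [hphi, term_eq, pderiv_monomial, eval_monomial, Finsupp.prod_fintype _ _ (by simp),
        Fin.prod_univ_three]
      fin_cases i
      · simp [ex_zero, ex_one, ex_two]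
        ring
      · simp [ex_zero, ex_one, ex_two]
        ring
      · simp [ex_zero, ex_one, ex_two]
        ring
    rw [Finset.sum_congr rfl fun s _ => key s i]
    apply hz
    intro s hs
    have ha := hm (X 0) (e0 s)
    have hb := hm (X 1) (e1 s)
    have hle := e_le s
    have hsub : ((d - e0 s - e1 s : ℕ) : BRing d) = (d : BRing d) - e0 s - e1 s := by
      rw [Nat.cast_sub (by omega), Nat.cast_sub (by omega)]
    have hd1 : ((d - 1 : ℕ) : BRing d) = (d : BRing d) - 1 := by
      rw [Nat.cast_sub (by omega)]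
      simp
    fin_cases i
    · simp
      try ring
    · simp
      try ring
    · simp
      rw [hsub, hd1]
      linear_combination (-((d : BRing d) - 1) * (X 1 : BRing d) ^ e1 s) * ha -
        (((d : BRing d) - 1) * (X 0 : BRing d) ^ e0 s) * hb

end PhiA

end SzPl
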