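import Mathlib

/-!
Prime ideals of `A[X]`, `A` factorial, which lie over zero are principal.
-/

open Polynomial

namespace SzPl

theorem principal_of_lies_over_zero {A : Type*} [CommRing A] [IsDomain A]
    [UniqueFactorizationMonoid A] (q : Ideal A[X]) [q.IsPrime] (h : ∀ a : A, C a ∈ q → a = 0) :
    ∃ g : A[X], q = Ideal.span {g} := by
  classical
  by_cases hq : q = ⊥
  · exact ⟨0, by rw [hq, Ideal.span_singleton_eq_bot.2 rfl]⟩
  obtain ⟨π, hπq, hπ⟩ := Ideal.IsPrime.exists_mem_prime_of_ne_bot (inferInstance : q.IsPrime) hq
  have hdeg : π.natDegree ≠ 0 := by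
    intro h0
    rw [Polynomial.natDegree_eq_zero] at h0
    obtain ⟨a, ha⟩ := h0
    have h1 : a = 0 := h a (by rw [ha]; exact hπq)
    apply hπ.ne_zero
    rw [← ha, h1, C_0]
  let _ : StrongNormalizationMonoid A := UniqueFactorizationMonoid.strongNormalizationMonoid
  let _ : NormalizedGCDMonoid A := UniqueFactorizationMonoid.toNormalizedGCDMonoid A
  have hprim : π.IsPrimitive := hπ.irreducible.isPrimitive hdeg
  refine ⟨π, le_antisymm ?_ ?_⟩
  · intro f hf
    rw [Ideal.mem_span_singleton]
    set K := FractionRing A
    have hirr : Irreducible (π.map (algebraMap A K)) :=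
      (hprim.irreducible_iff_irreducible_map_fraction_map).1 hπ.irreducible
    rcases (EuclideanDomain.dvd_or_coprime _ (f.map (algebraMap A K)) hirr) with h1 | h1
    · exact (IsPrimitive.dvd_iff_fraction_map_dvd_fraction_map K hprim).2 h1
    · exfalso
      obtain ⟨u, v, huv⟩ := h1
      obtain ⟨b1, hb1m, hb1⟩ := IsLocalization.integerNormalization_spec (nonZeroDivisors A) u
      obtain ⟨b2, hb2m, hb2⟩ := IsLocalization.integerNormalization_spec (nonZeroDivisors A) v
      set U := IsLocalization.integerNormalization (nonZeroDivisors A) u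
      set V := IsLocalization.integerNormalization (nonZeroDivisors A) v
      have hinj : Function.Injective (Polynomial.map (algebraMap A K)) :=
        map_injective _ (IsFractionRing.injective A K)
      have key : C b2 * U * π + C b1 * V * f = C (b1 * b2) := by
        apply hinj
        rw [Polynomial.map_add, Polynomial.map_mul, Polynomial.map_mul, Polynomial.map_mul,
          Polynomial.map_mul, map_C, map_C, map_C, hb1, hb2, map_mul, C_mul]
        rw [Algebra.smul_def, Algebra.smul_def, Polynomial.algebraMap_apply,
          Polynomial.algebraMap_apply]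
        linear_combination (C (algebraMap A K b1) * C (algebraMap A K b2)) * huv
      have hmem : C (b1 * b2) ∈ q := by
        rw [← key]
        exact q.add_mem (q.mul_mem_left _ hπq) (q.mul_mem_left _ hf)
      have h5 := h _ hmem
      rcases mul_eq_zero.1 h5 with h6 | h6
      · exact nonZeroDivisors.ne_zero hb1m h6
      · exact nonZeroDivisors.ne_zero hb2m h6
  · rw [Ideal.span_singleton_le_iff_mem]
    exact hπq

end SzPl
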