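import Pool.Agent.SzPl.Basic
import Pool.Agent.SzPl.Jac
import Pool.Agent.SzPl.Ppr

/-!
The universal plane curve of degree `d` and the universal curve with the singular point
`(u, v, 1)`: definitions.
-/

open MvPolynomial

namespace SzPl

/-- the monomials `x_0^i x_1^j x_2^(d-i-j)` -/
def Mon (d : ℕ) : Type := {s : Fin (d + 1) × Fin (d + 1) // (s.1 : ℕ) + (s.2 : ℕ) ≤ d}

instance (d : ℕ) : Fintype (Mon d) := inferInstanceAs (Fintype {_s // _})
instance (d : ℕ) : DecidableEq (Mon d) := inferInstanceAs (DecidableEq {_s // _})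

/-- the exponent of `x_0` -/
def e0 {d : ℕ} (s : Mon d) : ℕ := (s.1.1 : ℕ)

/-- the exponent of `x_1` -/
def e1 {d : ℕ} (s : Mon d) : ℕ := (s.1.2 : ℕ)

/-- the universal form of degree `d` -/
noncomputable def gen (d : ℕ) : MvPolynomial (Fin 3) (MvPolynomial (Mon d) ℤ) :=
  ∑ s : Mon d, C (X s) * X 0 ^ e0 s * X 1 ^ e1 s * X 2 ^ (d - e0 s - e1 s)

/-- the coordinate ring of the forms with a singular point at `(u, v, 1)` -/
abbrev BRing (d : ℕ) : Type := MvPolynomial (Fin 2) (MvPolynomial (Mon d) ℤ)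

/-- the sum of `a_s * c_s * u^i v^j` over the monomials with `e0 + e1 ≥ 2` -/
noncomputable def hsum (d : ℕ) (c : Mon d → ℤ) (p q : Mon d → ℕ) : BRing d :=
  ∑ s : Mon d, if 2 ≤ e0 s + e1 s then
    C (X s) * C (MvPolynomial.C (c s)) * X 0 ^ p s * X 1 ^ q s else 0

/-- the images of the coefficients -/
noncomputable def img (d : ℕ) (s : Mon d) : BRing d :=
  if 2 ≤ e0 s + e1 s then C (X s)
  else if e0 s = 1 then - hsum d (fun s => e0 s) (fun s => e0 s - 1) e1
  else if e1 s = 1 then - hsum d (fun s => e1 s) e0 (fun s => e1 s - 1)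
  else hsum d (fun s => (e0 s : ℤ) + e1 s - 1) e0 e1

/-- the universal singular curve -/
noncomputable def phi (d : ℕ) : MvPolynomial (Mon d) ℤ →+* BRing d :=
  eval₂Hom (Int.castRingHom _) (img d)

end SzPl
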